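import Pool.Agent.NPC.Dec

/-!
Project RO: the decision procedure.
-/

set_option autoImplicit false

namespace Pool.Agent.T6.H37.RO

open Pool.Agent.NPC

/-- the list of the neighbours of `v` -/
def nb (I : List (List ℕ)) (v : ℕ) : List ℕ := I.getD v []

/-- test at the vertex `v` -/
def okv (I : List (List ℕ)) (v : ℕ) : Bool :=
  (decide ((nb I v).length = 3) && (!decide ((nb I v).getD 0 0 = (nb I v).getD 1 0) &&
    (!decide ((nb I v).getD 1 0 = (nb I v).getD 2 0) &&
      !decide ((nb I v).getD 0 0 = (nb I v).getD 2 0)))) &&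
  (nb I v).all fun u => decide (u < I.length) && (!decide (u = v) && decide (v ∈ nb I u))

/-- the cyclic order at `v` is `x, y, z` -/
def posq (I : List (List ℕ)) (v x y z : ℕ) : Bool :=
  decide (nb I v = [x, y, z]) || (decide (nb I v = [y, z, x]) || decide (nb I v = [z, x, y]))

/-- adjacency test -/
def adjq (I : List (List ℕ)) (u v : ℕ) : Bool := decide (v ∈ nb I u)

/-- test at a quadruple -/
def evq (I : List (List ℕ)) (a b c d : ℕ) : Bool :=
  !(adjq I a b && (adjq I a c && (adjq I a d && (adjq I b c && (adjq I b d && adjq I c d))))) ||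
    !((posq I a b c d ^^ posq I b a c d) ^^ (posq I c a b d ^^ posq I d a b c))

/-- the decision procedure -/
def decq (I : List (List ℕ)) : Bool :=
  (List.range I.length).all (fun v => okv I v) &&
    (List.range I.length).all fun a => (List.range I.length).all fun b =>
      (List.range I.length).all fun c => (List.range I.length).all fun d => evq I a b c d

section

variable {α : Type} [TEnc α]

theorem poly_nb {I : α → List (List ℕ)} {v : α → ℕ} (hI : Poly I) (hv : Poly v) :
    Poly (fun a => nb (I a) (v a)) :=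
  Poly.getD hI hv (NPC.Poly.const [])

theorem poly_okv {I : α → List (List ℕ)} {v : α → ℕ} (hI : Poly I) (hv : Poly v) :
    Poly (fun a => okv (I a) (v a)) := by
  have hn := poly_nb hI hv
  have h0 : Poly (fun a => (nb (I a) (v a)).getD 0 0) := Poly.getD hn (NPC.Poly.const 0) (NPC.Poly.const 0)
  have h1 : Poly (fun a => (nb (I a) (v a)).getD 1 0) := Poly.getD hn (NPC.Poly.const 1) (NPC.Poly.const 0)
  have h2 : Poly (fun a => (nb (I a) (v a)).getD 2 0) := Poly.getD hn (NPC.Poly.const 2) (NPC.Poly.const 0)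
  unfold okv
  refine Poly.and (Poly.and (Poly.decide_eq (Poly.length hn) (NPC.Poly.const 3))
    (Poly.and (Poly.not (Poly.decide_eq h0 h1)) (Poly.and (Poly.not (Poly.decide_eq h1 h2))
      (Poly.not (Poly.decide_eq h0 h2))))) ?_
  refine Poly.all (p := fun a u => decide (u < (I a).length) && (!decide (u = v a) &&
    decide (v a ∈ nb (I a) u))) hn ?_
  have hI' : Poly (fun x : α × ℕ => I x.1) := hI.comp (Poly.fst NPC.Poly.id)
  have hv' : Poly (fun x : α × ℕ => v x.1) := hv.comp (Poly.fst NPC.Poly.id)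
  exact Poly.and (Poly.decide_lt (Poly.snd NPC.Poly.id) (Poly.length hI'))
    (Poly.and (Poly.not (Poly.decide_eq (Poly.snd NPC.Poly.id) hv'))
      (Poly.decide_mem hv' (poly_nb hI' (Poly.snd NPC.Poly.id))))

theorem poly_list3 {x y z : α → ℕ} (hx : Poly x) (hy : Poly y) (hz : Poly z) :
    Poly (fun a => [x a, y a, z a]) :=
  Poly.cons hx (Poly.cons hy (Poly.cons hz (NPC.Poly.const [])))

theorem poly_posq {I : α → List (List ℕ)} {v x y z : α → ℕ} (hI : Poly I) (hv : Poly v)
    (hx : Poly x) (hy : Poly y) (hz : Poly z) :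
    Poly (fun a => posq (I a) (v a) (x a) (y a) (z a)) :=
  Poly.or (Poly.decide_eq (poly_nb hI hv) (poly_list3 hx hy hz))
    (Poly.or (Poly.decide_eq (poly_nb hI hv) (poly_list3 hy hz hx))
      (Poly.decide_eq (poly_nb hI hv) (poly_list3 hz hx hy)))

theorem poly_adjq {I : α → List (List ℕ)} {u v : α → ℕ} (hI : Poly I) (hu : Poly u)
    (hv : Poly v) : Poly (fun a => adjq (I a) (u a) (v a)) :=
  Poly.decide_mem hv (poly_nb hI hu)

theorem poly_evq {I : α → List (List ℕ)} {a b c d : α → ℕ} (hI : Poly I) (ha : Poly a)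
    (hb : Poly b) (hc : Poly c) (hd : Poly d) :
    Poly (fun x => evq (I x) (a x) (b x) (c x) (d x)) :=
  Poly.or (Poly.not (Poly.and (poly_adjq hI ha hb) (Poly.and (poly_adjq hI ha hc)
    (Poly.and (poly_adjq hI ha hd) (Poly.and (poly_adjq hI hb hc)
      (Poly.and (poly_adjq hI hb hd) (poly_adjq hI hc hd)))))))
    (Poly.not (Poly.xor (Poly.xor (poly_posq hI ha hb hc hd) (poly_posq hI hb ha hc hd))
      (Poly.xor (poly_posq hI hc ha hb hd) (poly_posq hI hd ha hb hc))))

end

theorem poly_decq : Poly decq := by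
  unfold decq
  refine Poly.and ?_ ?_
  · exact Poly.all (p := fun I v => okv I v) (Poly.range_length NPC.Poly.id)
      (poly_okv (Poly.fst NPC.Poly.id) (Poly.snd NPC.Poly.id))
  · refine Poly.all (p := fun (I : List (List ℕ)) a => (List.range I.length).all fun b =>
      (List.range I.length).all fun c => (List.range I.length).all fun d => evq I a b c d)
      (Poly.range_length NPC.Poly.id) ?_
    refine Poly.all (p := fun (x : List (List ℕ) × ℕ) b =>
      (List.range x.1.length).all fun c => (List.range x.1.length).all fun d =>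
        evq x.1 x.2 b c d) (Poly.range_length (Poly.fst NPC.Poly.id)) ?_
    refine Poly.all (p := fun (x : (List (List ℕ) × ℕ) × ℕ) c =>
      (List.range x.1.1.length).all fun d => evq x.1.1 x.1.2 x.2 c d)
      (Poly.range_length (Poly.fst (Poly.fst NPC.Poly.id))) ?_
    refine Poly.all (p := fun (x : ((List (List ℕ) × ℕ) × ℕ) × ℕ) d =>
      evq x.1.1.1 x.1.1.2 x.1.2 x.2 d)
      (Poly.range_length (Poly.fst (Poly.fst (Poly.fst NPC.Poly.id)))) ?_
    exact poly_evq (Poly.fst (Poly.fst (Poly.fst (Poly.fst NPC.Poly.id))))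
      (Poly.snd (Poly.fst (Poly.fst (Poly.fst NPC.Poly.id))))
      (Poly.snd (Poly.fst (Poly.fst NPC.Poly.id)))
      (Poly.snd (Poly.fst NPC.Poly.id)) (Poly.snd NPC.Poly.id)

/-! ### meaning -/

theorem okv_iff (I : List (List ℕ)) (v : ℕ) : okv I v = true ↔
    ∃ a b c, nb I v = [a, b, c] ∧ a ≠ b ∧ b ≠ c ∧ a ≠ c ∧
      ∀ u ∈ nb I v, u < I.length ∧ u ≠ v ∧ v ∈ nb I u := by
  unfold okv
  simp only [Bool.and_eq_true, decide_eq_true_eq, Bool.not_eq_true', decide_eq_false_iff_not,
    List.all_eq_true]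
  constructor
  · rintro ⟨⟨h1, h2, h3, h4⟩, h5⟩
    obtain ⟨a, b, c, h⟩ := List.length_eq_three.1 h1
    rw [h] at h2 h3 h4
    exact ⟨a, b, c, h, h2, h3, h4, fun u hu => h5 u hu⟩
  · rintro ⟨a, b, c, h, h2, h3, h4, h5⟩
    refine ⟨⟨by rw [h]; rfl, ?_, ?_, ?_⟩, fun u hu => h5 u hu⟩
    · rw [h]; exact h2
    · rw [h]; exact h3
    · rw [h]; exact h4

theorem posq_iff (I : List (List ℕ)) (v x y z : ℕ) : posq I v x y z = true ↔
    nb I v = [x, y, z] ∨ nb I v = [y, z, x] ∨ nb I v = [z, x, y] := by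
  unfold posq
  simp only [Bool.or_eq_true, decide_eq_true_eq]

theorem evq_iff (I : List (List ℕ)) (a b c d : ℕ) : evq I a b c d = true ↔
    (b ∈ nb I a → c ∈ nb I a → d ∈ nb I a → c ∈ nb I b → d ∈ nb I b → d ∈ nb I c →
      ((posq I a b c d ^^ posq I b a c d) ^^ (posq I c a b d ^^ posq I d a b c)) = false) := by
  unfold evq adjq
  simp only [Bool.or_eq_true, Bool.not_eq_true', Bool.and_eq_false_iff, decide_eq_false_iff_not]
  tauto

theorem decq_iff (I : List (List ℕ)) : decq I = true ↔ (∀ v < I.length, okv I v = true) ∧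
    ∀ a < I.length, ∀ b < I.length, ∀ c < I.length, ∀ d < I.length, evq I a b c d = true := by
  unfold decq
  simp only [Bool.and_eq_true, List.all_eq_true, List.mem_range]

end Pool.Agent.T6.H37.RO
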