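import Pool.Agent.T6.H37.RO.Basic

/-!
Project RO: angles and orientation; collinear points.
-/

set_option autoImplicit false

namespace Pool.Agent.T6.H37.RO

open Real

/-- `X` is a positive multiple of `(cos θ, sin θ)` -/
def PolarAt (X : Pt) (θ : ℝ) : Prop := ∃ ρ : ℝ, 0 < ρ ∧ X = (ρ * cos θ, ρ * sin θ)

theorem polarAt_add {X : Pt} {θ : ℝ} : PolarAt X (θ + 2 * π) ↔ PolarAt X θ := by
  unfold PolarAt
  rw [cos_add_two_pi, sin_add_two_pi]

theorem exists_polar (X : Pt) (hX : X ≠ 0) : ∃ θ, PolarAt X θ := by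
  set z : ℂ := ⟨X.1, X.2⟩ with hz
  have hz0 : z ≠ 0 := by
    intro h
    apply hX
    have h1 := congrArg Complex.re h
    have h2 := congrArg Complex.im h
    exact Prod.ext h1 h2
  refine ⟨z.arg, ‖z‖, norm_pos_iff.2 hz0, ?_⟩
  rw [Complex.norm_mul_cos_arg, Complex.norm_mul_sin_arg]

theorem exists_polar_step {X Y : Pt} {θ : ℝ} (hX : PolarAt X θ) (h : 0 < cr X Y) :
    ∃ α, 0 < α ∧ α < π ∧ PolarAt Y (θ + α) := by
  obtain ⟨ρ, hρ, rfl⟩ := hX
  have h1 : 0 < - Y.1 * sin θ + Y.2 * cos θ := by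
    unfold cr at h
    simp only at h
    have : ρ * cos θ * Y.2 - ρ * sin θ * Y.1 = ρ * (- Y.1 * sin θ + Y.2 * cos θ) := by ring
    rw [this] at h
    exact (mul_pos_iff_of_pos_left hρ).1 h
  obtain ⟨α, r, hr, hα⟩ := exists_polar (Y.1 * cos θ + Y.2 * sin θ, - Y.1 * sin θ + Y.2 * cos θ)
    (by
      intro h2
      have := congrArg Prod.snd h2
      simp only [Prod.snd_zero] at this
      linarith)
  -- normalise the angle into `(-π, π]`
  have hsin : 0 < r * sin α := by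
    have := congrArg Prod.snd hα
    simp only at this
    linarith
  have hsin' : 0 < sin α := (mul_pos_iff_of_pos_left hr).1 hsin
  set β := toIocMod two_pi_pos (-π) α with hβ
  have hβm := toIocMod_mem_Ioc two_pi_pos (-π) α
  rw [← hβ] at hβm
  obtain ⟨k, hk⟩ : ∃ k : ℤ, β = α - k * (2 * π) := by
    refine ⟨toIocDiv two_pi_pos (-π) α, ?_⟩
    rw [hβ, toIocMod]
    simp
  have hcosβ : cos β = cos α := by rw [hk, cos_sub_int_mul_two_pi]
  have hsinβ : sin β = sin α := by rw [hk, sin_sub_int_mul_two_pi]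
  have hβpos : 0 < β := by
    by_contra hn
    push Not at hn
    have := sin_nonpos_of_nonpos_of_neg_pi_le hn hβm.1.le
    rw [hsinβ] at this
    linarith
  have hβlt : β < π := by
    have h2 : β ≤ π := by have := hβm.2; linarith
    rcases h2.lt_or_eq with h3 | h3
    · exact h3
    · rw [h3, sin_pi] at hsinβ
      linarith
  refine ⟨β, hβpos, hβlt, r, hr, ?_⟩
  have e1 := congrArg Prod.fst hα
  have e2 := congrArg Prod.snd hα
  simp only at e1 e2
  rw [cos_add, sin_add, hcosβ, hsinβ]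
  have hs := sin_sq_add_cos_sq θ
  apply Prod.ext
  · simp only
    have : Y.1 = cos θ * (Y.1 * cos θ + Y.2 * sin θ) - sin θ * (- Y.1 * sin θ + Y.2 * cos θ) := by
      linear_combination (-Y.1) * hs
    rw [this, e1, e2]
    ring
  · simp only
    have : Y.2 = sin θ * (Y.1 * cos θ + Y.2 * sin θ) + cos θ * (- Y.1 * sin θ + Y.2 * cos θ) := by
      linear_combination (-Y.2) * hs
    rw [this, e1, e2]
    ring

theorem cr_polar {X Y : Pt} {θ φ : ℝ} (hX : PolarAt X θ) (hY : PolarAt Y φ) :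
    ∃ c : ℝ, 0 < c ∧ cr X Y = c * sin (φ - θ) := by
  obtain ⟨ρ, hρ, rfl⟩ := hX
  obtain ⟨r, hr, rfl⟩ := hY
  refine ⟨ρ * r, mul_pos hρ hr, ?_⟩
  unfold cr
  rw [sin_sub]
  ring

theorem cr_pos_of_gap {X Y : Pt} {θ φ : ℝ} (hX : PolarAt X θ) (hY : PolarAt Y φ)
    (h1 : θ < φ) (h2 : φ < θ + π) : 0 < cr X Y := by
  obtain ⟨c, hc, h⟩ := cr_polar hX hY
  rw [h]
  exact mul_pos hc (sin_pos_of_pos_of_lt_pi (by linarith) (by linarith))

theorem ccw_iff_angles {X Y Z : Pt} : Ccw X Y Z ↔ ∃ θ₀ θ₁ θ₂ : ℝ, θ₀ < θ₁ ∧ θ₁ < θ₂ ∧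
    θ₂ < θ₀ + 2 * π ∧ PolarAt X θ₀ ∧ PolarAt Y θ₁ ∧ PolarAt Z θ₂ := by
  have hpi := pi_pos
  constructor
  · have key : ∀ {A B : Pt}, 0 < cr A B → A ≠ 0 := by
      rintro A B h rfl
      unfold cr at h
      simp at h
    rintro (⟨h1, h2⟩ | ⟨h1, h2⟩ | ⟨h1, h2⟩)
    · obtain ⟨θ, hθ⟩ := exists_polar X (key h1)
      obtain ⟨α, a1, a2, ha⟩ := exists_polar_step hθ h1
      obtain ⟨β, b1, b2, hb⟩ := exists_polar_step ha h2
      exact ⟨θ, θ + α, θ + α + β, by linarith, by linarith, by linarith, hθ, ha, hb⟩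
    · obtain ⟨θ, hθ⟩ := exists_polar Y (key h1)
      obtain ⟨α, a1, a2, ha⟩ := exists_polar_step hθ h1
      obtain ⟨β, b1, b2, hb⟩ := exists_polar_step ha h2
      refine ⟨θ + α + β - 2 * π, θ, θ + α, by linarith, by linarith, by linarith, ?_, hθ, ha⟩
      rw [← polarAt_add]
      simpa using hb
    · obtain ⟨θ, hθ⟩ := exists_polar Z (key h1)
      obtain ⟨α, a1, a2, ha⟩ := exists_polar_step hθ h1
      obtain ⟨β, b1, b2, hb⟩ := exists_polar_step ha h2
      refine ⟨θ + α, θ + α + β, θ + 2 * π, by linarith, by linarith, by linarith, ha, hb, ?_⟩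
      rw [polarAt_add]
      exact hθ
  · rintro ⟨θ₀, θ₁, θ₂, h1, h2, h3, hX, hY, hZ⟩
    have hX' : PolarAt X (θ₀ + 2 * π) := polarAt_add.2 hX
    have a1 : θ₁ < θ₀ + π → 0 < cr X Y := fun h => cr_pos_of_gap hX hY h1 h
    have a2 : θ₂ < θ₁ + π → 0 < cr Y Z := fun h => cr_pos_of_gap hY hZ h2 h
    have a3 : θ₀ + 2 * π < θ₂ + π → 0 < cr Z X := fun h => cr_pos_of_gap hZ hX' h3 h
    by_cases g1 : θ₁ < θ₀ + π
    · by_cases g2 : θ₂ < θ₁ + π
      · exact Or.inl ⟨a1 g1, a2 g2⟩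
      · exact Or.inr (Or.inr ⟨a3 (by linarith), a1 g1⟩)
    · exact Or.inr (Or.inl ⟨a2 (by linarith), a3 (by linarith)⟩)

/-! ### collinear points -/

theorem cr_eq_zero_of_mem_openSegment {a b c : Pt} (h : c ∈ openSegment ℝ a b) :
    cr (b - a) (c - a) = 0 := by
  obtain ⟨s, t, hs, ht, hst, rfl⟩ := h
  have : s = 1 - t := by linarith
  subst this
  unfold cr
  simp
  ring

theorem cr_ne_zero_of_not_mem {a b c : Pt} (hab : a ≠ b) (hac : a ≠ c) (hbc : b ≠ c)
    (h1 : c ∉ openSegment ℝ a b) (h2 : b ∉ openSegment ℝ a c) (h3 : a ∉ openSegment ℝ b c) :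
    cr (b - a) (c - a) ≠ 0 := by
  intro h
  have hx : ∃ t : ℝ, c - a = t • (b - a) := by
    set u := b - a with hu
    set v := c - a with hv
    have hu0 : u ≠ 0 := sub_ne_zero.2 hab.symm
    unfold cr at h
    have hn : u.1 ^ 2 + u.2 ^ 2 ≠ 0 := by
      intro h0
      apply hu0
      have h1 : u.1 = 0 := by nlinarith [sq_nonneg u.1, sq_nonneg u.2]
      have h2 : u.2 = 0 := by nlinarith [sq_nonneg u.1, sq_nonneg u.2]
      exact Prod.ext h1 h2
    refine ⟨(u.1 * v.1 + u.2 * v.2) / (u.1 ^ 2 + u.2 ^ 2), ?_⟩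
    apply Prod.ext
    · simp only [Prod.smul_fst, smul_eq_mul]
      field_simp
      linear_combination (-u.2) * h
    · simp only [Prod.smul_snd, smul_eq_mul]
      field_simp
      linear_combination u.1 * h
  obtain ⟨t, ht⟩ := hx
  have hc : c = a + t • (b - a) := by rw [← ht]; abel
  have ht0 : t ≠ 0 := by
    rintro rfl
    apply hac
    rw [hc]; simp
  have ht1 : t ≠ 1 := by
    rintro rfl
    apply hbc
    rw [hc]; simp
  rcases lt_trichotomy t 0 with h0 | h0 | h0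
  · apply h3
    refine ⟨(-t) / (1 - t), 1 / (1 - t), by apply div_pos <;> linarith,
      by apply div_pos <;> linarith, by field_simp [show (1 - t) ≠ 0 by linarith]; ring, ?_⟩
    have h1t : (1 - t) ≠ 0 := by linarith
    rw [hc]
    apply Prod.ext
    · simp only [Prod.fst_add, Prod.smul_fst, Prod.fst_sub, smul_eq_mul]
      field_simp
      ring
    · simp only [Prod.snd_add, Prod.smul_snd, Prod.snd_sub, smul_eq_mul]
      field_simp
      ring
  · exact ht0 h0
  · rcases lt_trichotomy t 1 with h4 | h4 | h4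
    · apply h1
      refine ⟨1 - t, t, by linarith, h0, by ring, ?_⟩
      rw [hc]
      apply Prod.ext
      · simp only [Prod.fst_add, Prod.smul_fst, Prod.fst_sub, smul_eq_mul]; ring
      · simp only [Prod.snd_add, Prod.smul_snd, Prod.snd_sub, smul_eq_mul]; ring
    · exact ht1 h4
    · apply h2
      refine ⟨(t - 1) / t, 1 / t, by apply div_pos <;> linarith, by apply div_pos <;> linarith,
        by field_simp; ring, ?_⟩
      rw [hc]
      apply Prod.ext
      · simp only [Prod.fst_add, Prod.smul_fst, Prod.fst_sub, smul_eq_mul]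
        field_simp
        ring
      · simp only [Prod.snd_add, Prod.smul_snd, Prod.snd_sub, smul_eq_mul]
        field_simp
        ring

end Pool.Agent.T6.H37.RO
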