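import Pool.Agent.T6.H37.RO.Defs

/-! Modules KFS and KFN: the shapes of a complete graph on four vertices. -/

set_option autoImplicit false

namespace Pool.Agent.T6.H37.RO

theorem kfs : StmtKFS := by
  intro s hs
  rcases h0 : s 0 <;> rcases h1 : s 1 <;> rcases h2 : s 2 <;> rcases h3 : s 3 <;>
    rw [h0, h1, h2, h3] at hs <;> simp at hs
  · refine ⟨![(-2, 0), (-1, 2), (3, 0), (-1, -2)], ?_, ?_, ?_, ?_⟩ <;>
      simp [CcwB, Ccw, cr] <;> norm_num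
  · refine ⟨![(3, -2), (3, 2), (1, -3), (-3, -1)], ?_, ?_, ?_, ?_⟩ <;>
      simp [CcwB, Ccw, cr] <;> norm_num
  · refine ⟨![(-3, 2), (3, 2), (1, 0), (1, -1)], ?_, ?_, ?_, ?_⟩ <;>
      simp [CcwB, Ccw, cr] <;> norm_num
  · refine ⟨![(3, -2), (-2, -3), (1, 3), (1, -3)], ?_, ?_, ?_, ?_⟩ <;>
      simp [CcwB, Ccw, cr] <;> norm_num
  · refine ⟨![(1, 0), (-2, -3), (1, -2), (-2, -1)], ?_, ?_, ?_, ?_⟩ <;>
      simp [CcwB, Ccw, cr] <;> norm_num
  · refine ⟨![(-2, -1), (-3, -1), (0, -2), (1, 1)], ?_, ?_, ?_, ?_⟩ <;>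
      simp [CcwB, Ccw, cr] <;> norm_num
  · refine ⟨![(-1, -3), (-1, -2), (2, -1), (2, 0)], ?_, ?_, ?_, ?_⟩ <;>
      simp [CcwB, Ccw, cr] <;> norm_num
  · refine ⟨![(2, 0), (3, 2), (-2, 3), (-1, -3)], ?_, ?_, ?_, ?_⟩ <;>
      simp [CcwB, Ccw, cr] <;> norm_num

namespace ModKFN

theorem cr_neg (x y : Pt) : cr y x = -cr x y := by
  unfold cr
  ring

theorem ex_sgn {t : ℝ} (h : t ≠ 0) : ∃ b : Bool, SgnB b t := by
  rcases lt_or_gt_of_ne h with h | h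
  · exact ⟨false, by simp, fun _ => h⟩
  · exact ⟨true, fun _ => h, by simp⟩

theorem sgn_neg {b : Bool} {t : ℝ} (h : SgnB b t) : SgnB (!b) (-t) := by
  cases b
  · exact ⟨fun _ => neg_pos.2 (h.2 rfl), by simp⟩
  · exact ⟨by simp, fun _ => neg_neg_iff_pos.2 (h.1 rfl)⟩

theorem maj {t a b c : Bool} {x y z : Pt} (h : CcwB t x y z) (ha : SgnB a (cr x y))
    (hb : SgnB b (cr y z)) (hc : SgnB c (cr z x)) : t = ((a && b) || (b && c) || (c && a)) := by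
  unfold CcwB Ccw at h
  rw [cr_neg x y, cr_neg y z, cr_neg z x] at h
  unfold SgnB at ha hb hc
  obtain ⟨h1, h2⟩ := h
  obtain ⟨a1, a2⟩ := ha
  obtain ⟨b1, b2⟩ := hb
  obtain ⟨c1, c2⟩ := hc
  cases t <;> cases a <;> cases b <;> cases c <;>
    simp only [Bool.and_true, Bool.and_false, Bool.or_true, Bool.or_false, Bool.false_eq_true,
      Bool.true_eq_false, IsEmpty.forall_iff, forall_const, Bool.and_self,
      Bool.or_self] at * <;>
    first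
    | (rcases h1 with ⟨h3, h4⟩ | ⟨h3, h4⟩ | ⟨h3, h4⟩ <;> linarith)
    | (rcases h2 with ⟨h3, h4⟩ | ⟨h3, h4⟩ | ⟨h3, h4⟩ <;> linarith)

end ModKFN

open ModKFN in
theorem kfn : StmtKFN := by
  intro s q hA hB hC hD h0 h1 h2 h3
  obtain ⟨a, ha⟩ := ex_sgn hA
  obtain ⟨b, hb⟩ := ex_sgn hB
  obtain ⟨c, hc⟩ := ex_sgn hC
  obtain ⟨d, hd⟩ := ex_sgn hD
  have e0 : cr (q 3 - q 0) (q 1 - q 0) = -cr (q 1 - q 0) (q 3 - q 0) := by
    unfold cr; ring
  have e1a : cr (q 0 - q 1) (q 2 - q 1) = -cr (q 1 - q 0) (q 2 - q 0) := by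
    unfold cr; simp only [Prod.fst_sub, Prod.snd_sub]; ring
  have e1b : cr (q 3 - q 1) (q 0 - q 1) = cr (q 1 - q 0) (q 3 - q 0) := by
    unfold cr; simp only [Prod.fst_sub, Prod.snd_sub]; ring
  have e2a : cr (q 0 - q 2) (q 1 - q 2) = cr (q 1 - q 0) (q 2 - q 0) := by
    unfold cr; simp only [Prod.fst_sub, Prod.snd_sub]; ring
  have e2b : cr (q 1 - q 2) (q 3 - q 2) = -cr (q 2 - q 1) (q 3 - q 1) := by
    unfold cr; simp only [Prod.fst_sub, Prod.snd_sub]; ring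
  have e2c : cr (q 3 - q 2) (q 0 - q 2) = cr (q 2 - q 0) (q 3 - q 0) := by
    unfold cr; simp only [Prod.fst_sub, Prod.snd_sub]; ring
  have e3a : cr (q 0 - q 3) (q 1 - q 3) = cr (q 1 - q 0) (q 3 - q 0) := by
    unfold cr; simp only [Prod.fst_sub, Prod.snd_sub]; ring
  have e3b : cr (q 1 - q 3) (q 2 - q 3) = cr (q 2 - q 1) (q 3 - q 1) := by
    unfold cr; simp only [Prod.fst_sub, Prod.snd_sub]; ring
  have e3c : cr (q 2 - q 3) (q 0 - q 3) = -cr (q 2 - q 0) (q 3 - q 0) := by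
    unfold cr; simp only [Prod.fst_sub, Prod.snd_sub]; ring
  have m0 := maj h0 ha hc (by rw [e0]; exact sgn_neg hb)
  have m1 := maj h1 (by rw [e1a]; exact sgn_neg ha) hd (by rw [e1b]; exact hb)
  have m2 := maj h2 (by rw [e2a]; exact ha) (by rw [e2b]; exact sgn_neg hd)
    (by rw [e2c]; exact hc)
  have m3 := maj h3 (by rw [e3a]; exact hb) (by rw [e3b]; exact hd)
    (by rw [e3c]; exact sgn_neg hc)
  rw [m0, m1, m2, m3]
  cases a <;> cases b <;> cases c <;> cases d <;> rfl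

end Pool.Agent.T6.H37.RO
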