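import Pool.Agent.T6.H37.RO.PER

/-!
Module BLO of the project RO (MP_8b4fe7_lc): blowing up one class.
-/

set_option autoImplicit false

namespace Pool.Agent.T6.H37.RO

open Filter Topology PERx

namespace BLOx

variable {V : Type}

theorem cr_smul (a b : ℝ) (x y : Pt) : cr (a • x) (b • y) = a * b * cr x y := by
  unfold cr
  rw [Prod.smul_fst, Prod.smul_snd, Prod.smul_fst, Prod.smul_snd, smul_eq_mul, smul_eq_mul,
    smul_eq_mul, smul_eq_mul]
  ring

theorem Ccw_smul {a b c : ℝ} (ha : 0 < a) (hb : 0 < b) (hc : 0 < c) {x y z : Pt}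
    (h : Ccw x y z) : Ccw (a • x) (b • y) (c • z) := by
  have h1 : 0 < a * b := mul_pos ha hb
  have h2 : 0 < b * c := mul_pos hb hc
  have h3 : 0 < c * a := mul_pos hc ha
  unfold Ccw
  rw [cr_smul, cr_smul, cr_smul]
  rcases h with ⟨h4, h5⟩ | ⟨h4, h5⟩ | ⟨h4, h5⟩
  · exact Or.inl ⟨mul_pos h1 h4, mul_pos h2 h5⟩
  · exact Or.inr (Or.inl ⟨mul_pos h2 h4, mul_pos h3 h5⟩)
  · exact Or.inr (Or.inr ⟨mul_pos h3 h4, mul_pos h1 h5⟩)

theorem Good_of_Cyc {r : Rot V} {p : V → Pt} {v a b c : V} (h : r.Cyc v a b c)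
    (hc : Ccw (p a - p v) (p b - p v) (p c - p v)) : Good r p v := by
  obtain ⟨i, h1, h2, h3⟩ := h
  rw [← h1, ← h2, ← h3] at hc
  fin_cases i
  · exact hc
  · exact Ccw_rot (Ccw_rot hc)
  · exact Ccw_rot hc

open Classical in
/-- the placement with `K` blown up -/
noncomputable def pe (K : Set V) (p q : V → Pt) (ε : ℝ) (v : V) : Pt :=
  if v ∈ K then p v + ε • q v else p v

theorem pe_in {K : Set V} {p q : V → Pt} {ε : ℝ} {v : V} (h : v ∈ K) :
    pe K p q ε v = p v + ε • q v := if_pos h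

theorem pe_out {K : Set V} {p q : V → Pt} {ε : ℝ} {v : V} (h : v ∉ K) :
    pe K p q ε v = p v := if_neg h

theorem smul_tendsto (y : Pt) (x : Pt) :
    Tendsto (fun ε : ℝ => x + ε • y) (𝓝[>] (0 : ℝ)) (𝓝 x) := by
  have h1 : Continuous (fun ε : ℝ => x + ε • y) := by fun_prop
  have h3 := (h1.tendsto 0).mono_left (nhdsWithin_le_nhds (s := Set.Ioi (0 : ℝ)))
  have h4 : x + (0 : ℝ) • y = x := by rw [zero_smul, add_zero]
  rwa [h4] at h3

theorem pe_tendsto (K : Set V) (p q : V → Pt) (v : V) :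
    Tendsto (fun ε : ℝ => pe K p q ε v) (𝓝[>] (0 : ℝ)) (𝓝 (p v)) := by
  by_cases h : v ∈ K
  · have h1 : (fun ε : ℝ => pe K p q ε v) = fun ε : ℝ => p v + ε • q v :=
      funext fun ε => pe_in h
    rw [h1]
    exact smul_tendsto (q v) (p v)
  · have h1 : (fun ε : ℝ => pe K p q ε v) = fun _ : ℝ => p v := funext fun ε => pe_out h
    rw [h1]
    exact tendsto_const_nhds

theorem good_ev {r : Rot V} {p : V → Pt} {v : V} (K : Set V) (q : V → Pt) (h : Good r p v) :
    ∀ᶠ ε in 𝓝[>] (0 : ℝ), Good r (pe K p q ε) v := by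
  have h4 : ∀ i : Fin 3, Tendsto (fun t : ℝ => pe K p q t (r.n i v) - pe K p q t v)
      (𝓝[>] (0 : ℝ)) (𝓝 (p (r.n i v) - p v)) := fun i =>
    (pe_tendsto K p q _).sub (pe_tendsto K p q _)
  exact Ccw_tendsto (h4 0) (h4 1) (h4 2) h

theorem lim_ev {r : Rot V} {κ : V → ℕ} {p q : V → Pt} {K : Set V} {v : V}
    (hp : ∀ u v, κ u = κ v → p u = p v)
    (hK : ∀ u v, u ∈ K → (v ∈ K ↔ κ u = κ v)) (h : LimGood r K p q v) :
    ∀ᶠ ε in 𝓝[>] (0 : ℝ), Good r (pe K p q ε) v := by
  classical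
  rcases h with ⟨hv, d, hd, hc⟩ | ⟨hv, a, b, c, hcyc, ha, hb, hcK, h1, h2⟩
  · obtain ⟨w, hw⟩ : ∃ w : Fin 3 → ℝ → Pt, w = fun i ε =>
        if r.n i v ∈ K then q (r.n i v) - q v else (p (r.n i v) - p v) + ε • (-(q v)) := ⟨_, rfl⟩
    obtain ⟨s, hs⟩ : ∃ s : Fin 3 → ℝ → ℝ, s = fun i ε =>
        if r.n i v ∈ K then ε else 1 := ⟨_, rfl⟩
    have hwd : ∀ i, Tendsto (w i) (𝓝[>] (0 : ℝ)) (𝓝 (d i)) := by
      intro i
      by_cases hi : r.n i v ∈ K
      · have h3 : w i = fun _ => d i := by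
          rw [hw, (hd i).1 hi]
          funext ε
          exact if_pos hi
        rw [h3]
        exact tendsto_const_nhds
      · have h3 : w i = fun ε => d i + ε • (-(q v)) := by
          rw [hw, (hd i).2 hi]
          funext ε
          exact if_neg hi
        rw [h3]
        exact smul_tendsto _ _
    have hsw : ∀ i ε, pe K p q ε (r.n i v) - pe K p q ε v = s i ε • w i ε := by
      intro i ε
      by_cases hi : r.n i v ∈ K
      · have h3 : w i ε = q (r.n i v) - q v := by rw [hw]; exact if_pos hi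
        have h4 : s i ε = ε := by rw [hs]; exact if_pos hi
        rw [pe_in hi, pe_in hv, h3, h4, hp _ _ ((hK v (r.n i v) hv).1 hi), smul_sub]
        abel
      · have h3 : w i ε = (p (r.n i v) - p v) + ε • (-(q v)) := by rw [hw]; exact if_neg hi
        have h4 : s i ε = 1 := by rw [hs]; exact if_neg hi
        rw [pe_out hi, pe_in hv, h3, h4, one_smul, smul_neg]
        abel
    have hspos : ∀ i ε, 0 < ε → 0 < s i ε := by
      intro i ε hε
      rw [hs]
      by_cases hi : r.n i v ∈ K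
      · show 0 < if r.n i v ∈ K then ε else 1
        rw [if_pos hi]
        exact hε
      · show 0 < if r.n i v ∈ K then ε else 1
        rw [if_neg hi]
        exact one_pos
    filter_upwards [self_mem_nhdsWithin, Ccw_tendsto (hwd 0) (hwd 1) (hwd 2) hc] with ε hε h3
    unfold Good
    rw [hsw, hsw, hsw]
    exact Ccw_smul (hspos 0 ε hε) (hspos 1 ε hε) (hspos 2 ε hε) h3
  · have hpab : p a = p b := hp a b ((hK a b ha).1 hb)
    have e1 : ∀ ε : ℝ, cr (pe K p q ε a - pe K p q ε v) (pe K p q ε b - pe K p q ε v) =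
        ε * (cr (p a - p v) (q b - q a) + ε * cr (q a) (q b)) := by
      intro ε
      rw [pe_in ha, pe_in hb, pe_out hv, ← hpab]
      unfold cr
      simp only [Prod.fst_sub, Prod.snd_sub, Prod.fst_add, Prod.snd_add, Prod.smul_fst,
        Prod.smul_snd, smul_eq_mul]
      ring
    have h3 : ∀ᶠ ε in 𝓝[>] (0 : ℝ),
        0 < cr (p a - p v) (q b - q a) + ε * cr (q a) (q b) := by
      have h4 : Continuous (fun ε : ℝ => cr (p a - p v) (q b - q a) + ε * cr (q a) (q b)) := by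
        fun_prop
      have h5 := (h4.tendsto 0).mono_left (nhdsWithin_le_nhds (s := Set.Ioi (0 : ℝ)))
      rw [zero_mul, add_zero] at h5
      exact h5.eventually_const_lt h1
    have h6 : ∀ u : V, Tendsto (fun ε : ℝ => pe K p q ε u - pe K p q ε v)
        (𝓝[>] (0 : ℝ)) (𝓝 (p u - p v)) := fun u =>
      (pe_tendsto K p q u).sub (pe_tendsto K p q v)
    have h7 := cr_tendsto (h6 b) (h6 c)
    have h8 := cr_tendsto (h6 c) (h6 a)
    rw [← hpab] at h7
    have h9 : cr (p c - p v) (p a - p v) = -cr (p a - p v) (p c - p v) := by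
      unfold cr
      ring
    rw [h9] at h8
    rcases lt_or_gt_of_ne h2 with hlt | hgt
    · have h10 : 0 < -cr (p a - p v) (p c - p v) := by linarith
      filter_upwards [self_mem_nhdsWithin, h3, h8.eventually_const_lt h10] with ε hε h11 h12
      refine Good_of_Cyc hcyc (Or.inr (Or.inr ⟨h12, ?_⟩))
      rw [e1]
      exact mul_pos hε h11
    · filter_upwards [self_mem_nhdsWithin, h3, h7.eventually_const_lt hgt] with ε hε h11 h12
      refine Good_of_Cyc hcyc (Or.inl ⟨?_, h12⟩)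
      rw [e1]
      exact mul_pos hε h11

end BLOx

open BLOx

theorem blo : StmtBLO := by
  intro V _ r κ κ' p q K hp hK hsplit hlim
  have hgood : ∀ᶠ ε in 𝓝[>] (0 : ℝ), ∀ v, Rainbow r κ' v → Good r (pe K p q ε) v := by
    rw [eventually_all]
    intro v
    by_cases hr' : Rainbow r κ' v
    · by_cases hr : Rainbow r κ v
      · exact (good_ev K q (hp.2 v hr)).mono fun ε h _ => h
      · exact (lim_ev hp.1 hK (hlim v hr' hr)).mono fun ε h _ => h
    · exact Eventually.of_forall fun t h => absurd h hr'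
  obtain ⟨ε, hε⟩ := hgood.exists
  refine ⟨pe K p q ε, fun u v huv => ?_, hε⟩
  rcases (hsplit u v).1 huv with h | ⟨h1, h2, h3⟩
  · rw [h]
  · rw [pe_out h1, pe_out h2, hp.1 u v h3]

end Pool.Agent.T6.H37.RO
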