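import Pool.Agent.T6.H37.RO.CYN

/-!
Project RO, module CYC: the shape of a cycle.
-/

set_option autoImplicit false

namespace Pool.Agent.T6.H37.RO

open Filter Topology

theorem natCast_ne {m a b : ℕ} (ha : a < m) (hb : b < m) (h : a ≠ b) :
    (a : ZMod m) ≠ (b : ZMod m) := by
  intro h2
  rw [ZMod.natCast_eq_natCast_iff'] at h2
  rw [Nat.mod_eq_of_lt ha, Nat.mod_eq_of_lt hb] at h2
  exact h h2

theorem val_succ {m : ℕ} [NeZero m] (hm : 3 ≤ m) (i : ZMod m) :
    (i + 1).val = if i.val + 1 = m then 0 else i.val + 1 := by
  have hone : (1 : ZMod m).val = 1 := ZMod.val_one'' (by omega)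
  have hlt : i.val < m := ZMod.val_lt i
  by_cases h : i.val + 1 = m
  · rw [if_pos h]
    have : i + 1 = 0 := by
      rw [← ZMod.natCast_zmod_val i]
      have : ((i.val + 1 : ℕ) : ZMod m) = 0 := by rw [h]; exact ZMod.natCast_self m
      exact_mod_cast this
    rw [this, ZMod.val_zero]
  · rw [if_neg h, ZMod.val_add_of_lt (by rw [hone]; omega), hone]

theorem of_thin {m : ℕ} [NeZero m] (x D : ZMod m → ℝ) (t : ZMod m → Bool) (α : ZMod m → Pt)
    (b : Pt) (hb : b ≠ 0) (hD : ∑ i, D i = 0) (hxD : ∑ i, x i * D i = 0)
    (hα : ∀ i, cr b (α i) ≠ 0)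
    (h : ∀ i, (0 < (x (i + 1) - x i) * (x (i - 1) - x i) ∧ SgnB (t i) (D i)) ∨
      ((x (i + 1) - x i) * (x (i - 1) - x i) < 0 ∧
        SgnB (t i) ((x (i + 1) - x i) * cr b (α i)))) :
    ∃ q : ZMod m → Pt, ∀ i, CcwB (t i) (q (i - 1) - q i) (q (i + 1) - q i) (α i) := by
  obtain ⟨y, hy⟩ := thin x D t α b hb hD hxD hα h
  obtain ⟨d, hd⟩ := hy.exists
  exact ⟨_, hd⟩

theorem shift {m : ℕ} (t : ZMod m → Bool) (α : ZMod m → Pt) (k : ZMod m)
    (h : ∃ q : ZMod m → Pt, ∀ i, CcwB (t (i + k)) (q (i - 1) - q i) (q (i + 1) - q i) (α (i + k))) :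
    ∃ q : ZMod m → Pt, ∀ i, CcwB (t i) (q (i - 1) - q i) (q (i + 1) - q i) (α i) := by
  obtain ⟨q, hq⟩ := h
  refine ⟨fun i => q (i - k), fun i => ?_⟩
  have := hq (i - k)
  rw [sub_add_cancel] at this
  have e1 : i - 1 - k = i - k - 1 := by ring
  have e2 : i + 1 - k = i - k + 1 := by ring
  simp only [e1, e2]
  exact this

theorem SgnB_sg (b : Bool) : SgnB b (sg b) := by
  have := SgnB_sg_mul b one_pos
  rwa [mul_one] at this

/-- case A: odd cycles -/
theorem cyc_odd {m : ℕ} [NeZero m] (hm : 3 ≤ m) (hodd : Odd m) (t : ZMod m → Bool)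
    (α : ZMod m → Pt) (hα : ∀ i, α i ≠ 0) (h12 : t 1 = t 2) :
    ∃ q : ZMod m → Pt, ∀ i, CcwB (t i) (q (i - 1) - q i) (q (i + 1) - q i) (α i) := by
  classical
  obtain ⟨b, hb, hb1, hb2⟩ := dir_one α hα (α 0) (hα 0) (t 0)
  have n10 : (1 : ZMod m) ≠ 0 := by
    simpa using natCast_ne (m := m) (a := 1) (b := 0) (by omega) (by omega) (by omega)
  have n20 : (2 : ZMod m) ≠ 0 := by
    simpa using natCast_ne (m := m) (a := 2) (b := 0) (by omega) (by omega) (by omega)
  have n21 : (2 : ZMod m) ≠ 1 := by
    simpa using natCast_ne (m := m) (a := 2) (b := 1) (by omega) (by omega) (by omega)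
  set x : ZMod m → ℝ := fun i => if i = 0 then 0 else if Odd i.val then 1 else -1 with hx
  have x0 : x 0 = 0 := by simp [hx]
  have xodd : ∀ i, i ≠ 0 → Odd i.val → x i = 1 := fun i h1 h2 => by
    simp only [hx]; rw [if_neg h1, if_pos h2]
  have xeven : ∀ i, i ≠ 0 → Even i.val → x i = -1 := fun i h1 h2 => by
    simp only [hx]; rw [if_neg h1, if_neg (Nat.not_odd_iff_even.2 h2)]
  have v1 : (1 : ZMod m).val = 1 := ZMod.val_one'' (by omega)
  have v2 : (2 : ZMod m).val = 2 := by
    have : ((2 : ℕ) : ZMod m).val = 2 := ZMod.val_cast_of_lt (by omega)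
    simpa using this
  have x1 : x 1 = 1 := xodd 1 n10 (by rw [v1]; exact odd_one)
  have x2 : x 2 = -1 := xeven 2 n20 (by rw [v2]; exact even_two)
  set R : ℝ := ∑ i, x i * sg (t i) with hR
  set T : ℝ := ∑ i, sg (t i) with hT
  set c1 : ℝ := sg (t 1) * |R| with hc1
  set c2 : ℝ := sg (t 1) * |R| + R with hc2
  set c0 : ℝ := -(T + c1 + c2) with hc0
  have htt := sg_mul_self (t 1)
  refine of_thin x (fun i => sg (t i) + (if i = 0 then c0 else 0) + (if i = 1 then c1 else 0) +
    (if i = 2 then c2 else 0)) t α b hb ?_ ?_ hb1 ?_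
  · simp only [Finset.sum_add_distrib, Finset.sum_ite_eq', Finset.mem_univ, if_true]
    rw [← hT, hc0]; ring
  · have e : ∀ i, x i * (sg (t i) + (if i = 0 then c0 else 0) + (if i = 1 then c1 else 0) +
        (if i = 2 then c2 else 0)) = x i * sg (t i) + (if i = 0 then x 0 * c0 else 0) +
        (if i = 1 then x 1 * c1 else 0) + (if i = 2 then x 2 * c2 else 0) := by
      intro i
      have e0 : x i * (if i = 0 then c0 else 0) = if i = 0 then x 0 * c0 else 0 := by
        split_ifs with h
        · rw [h]
        · ring
      have e1 : x i * (if i = 1 then c1 else 0) = if i = 1 then x 1 * c1 else 0 := by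
        split_ifs with h
        · rw [h]
        · ring
      have e2 : x i * (if i = 2 then c2 else 0) = if i = 2 then x 2 * c2 else 0 := by
        split_ifs with h
        · rw [h]
        · ring
      rw [mul_add, mul_add, mul_add, e0, e1, e2]
    rw [Finset.sum_congr rfl fun i _ => e i]
    simp only [Finset.sum_add_distrib, Finset.sum_ite_eq', Finset.mem_univ, if_true]
    rw [← hR, x0, x1, x2, hc1, hc2]; ring
  · intro i
    by_cases hi : i = 0
    · right
      subst hi
      have hm1 : x (0 - 1) = -1 := by
        have h1 := val_succ hm ((0 : ZMod m) - 1)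
        rw [sub_add_cancel, ZMod.val_zero] at h1
        have h2 : ((0 : ZMod m) - 1).val + 1 = m := by
          by_contra hne
          rw [if_neg hne] at h1
          omega
        apply xeven
        · intro h3
          rw [h3, ZMod.val_zero] at h2
          omega
        · rcases hodd with ⟨k, hk⟩
          exact ⟨k, by omega⟩
      rw [zero_add, hm1, x0, x1]
      constructor
      · norm_num
      · simpa using hb2
    · left
      have hval0 : i.val ≠ 0 := fun h => hi ((ZMod.val_eq_zero i).1 h)
      have hvs := val_succ hm i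
      have hvp : (i - 1).val + 1 = i.val := by
        have h1 := val_succ hm (i - 1)
        rw [sub_add_cancel] at h1
        by_cases h2 : (i - 1).val + 1 = m
        · rw [if_pos h2] at h1; exact absurd h1 hval0
        · rw [if_neg h2] at h1; exact h1.symm
      constructor
      · rcases Nat.even_or_odd i.val with he | ho
        · rw [xeven i hi he]
          have h1 : 0 ≤ x (i + 1) := by
            by_cases h2 : i + 1 = 0
            · rw [h2, x0]
            · rw [xodd (i + 1) h2]
              · norm_num
              · by_cases h3 : i.val + 1 = m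
                · rw [if_pos h3] at hvs
                  exact absurd ((ZMod.val_eq_zero _).1 hvs) h2
                · rw [hvs, if_neg h3]; exact he.add_one
          have h2 : 0 ≤ x (i - 1) := by
            by_cases h2 : i - 1 = 0
            · rw [h2, x0]
            · rw [xodd (i - 1) h2]
              · norm_num
              · rw [← hvp] at he
                rcases he with ⟨k, hk⟩
                exact ⟨k - 1, by omega⟩
          nlinarith
        · rw [xodd i hi ho]
          have h1 : x (i + 1) ≤ 0 := by
            by_cases h2 : i + 1 = 0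
            · rw [h2, x0]
            · rw [xeven (i + 1) h2]
              · norm_num
              · by_cases h3 : i.val + 1 = m
                · rw [if_pos h3] at hvs
                  exact absurd ((ZMod.val_eq_zero _).1 hvs) h2
                · rw [hvs, if_neg h3]; exact ho.add_one
          have h2 : x (i - 1) ≤ 0 := by
            by_cases h2 : i - 1 = 0
            · rw [h2, x0]
            · rw [xeven (i - 1) h2]
              · norm_num
              · rw [← hvp] at ho
                rcases ho with ⟨k, hk⟩
                exact ⟨k, by omega⟩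
          nlinarith
      · simp only [if_neg hi]
        by_cases h1 : i = 1
        · subst h1
          have e : sg (t 1) + 0 + (if (1 : ZMod m) = 1 then c1 else 0) +
              (if (1 : ZMod m) = 2 then c2 else 0) = sg (t 1) * (1 + |R|) := by
            rw [if_pos rfl, if_neg (Ne.symm n21), hc1]; ring
          rw [e]
          exact SgnB_sg_mul _ (by positivity)
        · by_cases h2 : i = 2
          · subst h2
            have e : sg (t 2) + 0 + (if (2 : ZMod m) = 1 then c1 else 0) +
                (if (2 : ZMod m) = 2 then c2 else 0) =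
                sg (t 2) * (1 + (|R| + sg (t 1) * R)) := by
              rw [if_neg n21, if_pos rfl, hc2, ← h12]
              linear_combination (-R) * htt
            rw [e]
            apply SgnB_sg_mul
            have h3 : 0 ≤ |R| + sg (t 1) * R := by
              cases t 1
              · simp only [sg_false]; linarith [le_abs_self R]
              · simp only [sg_true]; linarith [neg_abs_le R]
            linarith
          · rw [if_neg h1, if_neg h2, add_zero, add_zero, add_zero]
            exact SgnB_sg _

/-- a parity function on an even cycle -/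
theorem exists_parity {m : ℕ} [NeZero m] (hm : 3 ≤ m) (heven : Even m) :
    ∃ p : ZMod m → Bool, p 0 = true ∧ ∀ i, p (i + 1) = !(p i) := by
  classical
  refine ⟨fun i => decide (Even i.val), by simp, fun i => ?_⟩
  simp only
  rw [val_succ hm i]
  by_cases h : i.val + 1 = m
  · rw [if_pos h]
    have h1 : ¬ Even i.val := by
      intro h2
      rcases heven with ⟨k, hk⟩
      rcases h2 with ⟨l, hl⟩
      omega
    simp [h1]
  · rw [if_neg h]
    by_cases h1 : Even i.val
    · have : ¬ Even (i.val + 1) := by rw [Nat.even_add_one]; exact not_not.2 h1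
      simp [h1, this]
    · have : Even (i.val + 1) := Nat.even_add_one.2 h1
      simp [h1, this]

/-- case B: even cycles, vertices 0 and 1 flat -/
theorem cyc_even {m : ℕ} [NeZero m] (hm : 3 ≤ m) (heven : Even m) (t : ZMod m → Bool)
    (α : ZMod m → Pt) (hα : ∀ i, α i ≠ 0)
    (h01 : cr (α 0) (α 1) ≠ 0 ∨ (α 0 = α 1 ∧ t 0 = t 1)) :
    ∃ q : ZMod m → Pt, ∀ i, CcwB (t i) (q (i - 1) - q i) (q (i + 1) - q i) (α i) := by
  classical
  obtain ⟨b, hb, hb1, hb2, hb3⟩ : ∃ b : Pt, b ≠ 0 ∧ (∀ i, cr b (α i) ≠ 0) ∧
      SgnB (t 0) (cr b (α 0)) ∧ SgnB (t 1) (cr b (α 1)) := by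
    rcases h01 with h | ⟨h1, h2⟩
    · exact dir_two α hα _ _ h (t 0) (t 1)
    · obtain ⟨b, hb, hb1, hb2⟩ := dir_one α hα (α 0) (hα 0) (t 0)
      exact ⟨b, hb, hb1, hb2, by rw [← h1, ← h2]; exact hb2⟩
  obtain ⟨p, p0, hp⟩ := exists_parity hm heven
  have hpm : ∀ i, p (i - 1) = !(p i) := fun i => by
    have := hp (i - 1)
    rw [sub_add_cancel] at this
    rw [this, Bool.not_not]
  have n10 : (1 : ZMod m) ≠ 0 := by
    simpa using natCast_ne (m := m) (a := 1) (b := 0) (by omega) (by omega) (by omega)
  have n20 : (2 : ZMod m) ≠ 0 := by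
    simpa using natCast_ne (m := m) (a := 2) (b := 0) (by omega) (by omega) (by omega)
  have n21 : (2 : ZMod m) ≠ 1 := by
    simpa using natCast_ne (m := m) (a := 2) (b := 1) (by omega) (by omega) (by omega)
  have p1 : p 1 = false := by have := hp 0; rw [zero_add, p0] at this; simpa using this
  have p2 : p 2 = true := by
    have := hp 1
    rw [p1, one_add_one_eq_two] at this
    simpa using this
  set x : ZMod m → ℝ := fun i => if i = 0 then 0 else if i = 1 then 1 else
    if p i = true then 2 else -1 with hx
  have x0 : x 0 = 0 := by simp [hx]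
  have x1 : x 1 = 1 := by simp only [hx]; rw [if_neg n10]; simp
  have x2 : x 2 = 2 := by simp only [hx]; rw [if_neg n20, if_neg n21, if_pos p2]
  have hxt : ∀ i, p i = true → 0 ≤ x i := fun i h => by
    simp only [hx]
    split_ifs <;> norm_num
  have hxf : ∀ i, p i = false → x i ≤ 1 := fun i h => by
    simp only [hx]
    rw [h]
    simp only [Bool.false_eq_true, if_false]
    split_ifs <;> norm_num
  have hxm1 : x (0 - 1) = -1 := by
    have h1 : p (0 - 1) = false := by rw [hpm, p0]; rfl
    have h2 : (0 : ZMod m) - 1 ≠ 0 := by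
      intro h
      rw [h, p0] at h1
      simp at h1
    have h3 : (0 : ZMod m) - 1 ≠ 1 := by
      intro h
      apply n20
      have : (1 : ZMod m) + 1 = 0 := by
        nth_rewrite 1 [← h]; ring
      rw [← one_add_one_eq_two, this]
    simp only [hx]
    rw [if_neg h2, if_neg h3, h1]
    simp
  set R : ℝ := ∑ i, x i * sg (t i) with hR
  set T : ℝ := ∑ i, sg (t i) with hT
  set c1 : ℝ := -R with hc1
  set c0 : ℝ := -(T + c1) with hc0
  refine of_thin x (fun i => sg (t i) + (if i = 0 then c0 else 0) + (if i = 1 then c1 else 0))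
    t α b hb ?_ ?_ hb1 ?_
  · simp only [Finset.sum_add_distrib, Finset.sum_ite_eq', Finset.mem_univ, if_true]
    rw [← hT, hc0]; ring
  · have e : ∀ i, x i * (sg (t i) + (if i = 0 then c0 else 0) + (if i = 1 then c1 else 0)) =
        x i * sg (t i) + (if i = 0 then x 0 * c0 else 0) + (if i = 1 then x 1 * c1 else 0) := by
      intro i
      have e0 : x i * (if i = 0 then c0 else 0) = if i = 0 then x 0 * c0 else 0 := by
        split_ifs with h
        · rw [h]
        · ring
      have e1 : x i * (if i = 1 then c1 else 0) = if i = 1 then x 1 * c1 else 0 := by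
        split_ifs with h
        · rw [h]
        · ring
      rw [mul_add, mul_add, e0, e1]
    rw [Finset.sum_congr rfl fun i _ => e i]
    simp only [Finset.sum_add_distrib, Finset.sum_ite_eq', Finset.mem_univ, if_true]
    rw [← hR, x0, x1, hc1]; ring
  · intro i
    by_cases hi : i = 0
    · right
      subst hi
      rw [zero_add, hxm1, x0, x1]
      constructor
      · norm_num
      · simpa using hb2
    · by_cases hi1 : i = 1
      · right
        subst hi1
        rw [sub_self, one_add_one_eq_two, x0, x1, x2]
        constructor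
        · norm_num
        · have e : ((2 : ℝ) - 1) * cr b (α 1) = cr b (α 1) := by ring
          rw [e]; exact hb3
      · left
        constructor
        · cases hpi : p i with
          | true =>
            have h1 : x i = 2 := by simp only [hx]; rw [if_neg hi, if_neg hi1, if_pos hpi]
            have h2 := hxf (i + 1) (by rw [hp, hpi]; rfl)
            have h3 := hxf (i - 1) (by rw [hpm, hpi]; rfl)
            rw [h1]; nlinarith
          | false =>
            have h1 : x i = -1 := by
              simp only [hx]; rw [if_neg hi, if_neg hi1, hpi]; simp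
            have h2 := hxt (i + 1) (by rw [hp, hpi]; rfl)
            have h3 := hxt (i - 1) (by rw [hpm, hpi]; rfl)
            rw [h1]; nlinarith
        · simp only [if_neg hi, if_neg hi1, add_zero]
          exact SgnB_sg _

/-- case C: alternating signs, one direction, at least 6 vertices -/
theorem cyc_alt {m : ℕ} [NeZero m] (hm : 6 ≤ m) (t : ZMod m → Bool) (α : ZMod m → Pt)
    (hα : ∀ i, α i ≠ 0) (ht : ∀ i, t (i + 1) = !(t i)) :
    ∃ q : ZMod m → Pt, ∀ i, CcwB (t i) (q (i - 1) - q i) (q (i + 1) - q i) (α i) := by
  classical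
  obtain ⟨b, hb, hb1, -⟩ := dir_one α hα (α 0) (hα 0) (t 0)
  have htm : ∀ i, t (i - 1) = !(t i) := fun i => by
    have := ht (i - 1)
    rw [sub_add_cancel] at this
    rw [this, Bool.not_not]
  have t1 : t 1 = !(t 0) := by have := ht 0; rwa [zero_add] at this
  have t2 : t 2 = t 0 := by
    have := ht 1
    rw [one_add_one_eq_two, t1, Bool.not_not] at this; exact this
  have t3 : t 3 = !(t 0) := by
    have := ht 2
    rw [t2] at this
    rw [← this]; congr 1; norm_num
  have t4 : t 4 = t 0 := by
    have := ht 3
    rw [t3, Bool.not_not] at this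
    rw [← this]; congr 1; norm_num
  have ne : ∀ a b : ℕ, a < 6 → b < 6 → a ≠ b → (a : ZMod m) ≠ (b : ZMod m) := fun a b h1 h2 h3 =>
    natCast_ne (by omega) (by omega) h3
  have n10 : (1 : ZMod m) ≠ 0 := by simpa using ne 1 0 (by norm_num) (by norm_num) (by norm_num)
  have n40 : (4 : ZMod m) ≠ 0 := by simpa using ne 4 0 (by norm_num) (by norm_num) (by norm_num)
  have n41 : (4 : ZMod m) ≠ 1 := by simpa using ne 4 1 (by norm_num) (by norm_num) (by norm_num)
  have n21 : (2 : ZMod m) ≠ 1 := by simpa using ne 2 1 (by norm_num) (by norm_num) (by norm_num)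
  have n24 : (2 : ZMod m) ≠ 4 := by simpa using ne 2 4 (by norm_num) (by norm_num) (by norm_num)
  have n31 : (3 : ZMod m) ≠ 1 := by simpa using ne 3 1 (by norm_num) (by norm_num) (by norm_num)
  have n34 : (3 : ZMod m) ≠ 4 := by simpa using ne 3 4 (by norm_num) (by norm_num) (by norm_num)
  have n30 : (3 : ZMod m) ≠ 0 := by simpa using ne 3 0 (by norm_num) (by norm_num) (by norm_num)
  have n51 : (5 : ZMod m) ≠ 1 := by simpa using ne 5 1 (by norm_num) (by norm_num) (by norm_num)
  have n54 : (5 : ZMod m) ≠ 4 := by simpa using ne 5 4 (by norm_num) (by norm_num) (by norm_num)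
  set x : ZMod m → ℝ := fun i => if i = 1 then 1 else if i = 4 then 5 else
    if t i = t 0 then 0 else 6 with hx
  have x1 : x 1 = 1 := by simp [hx]
  have x4 : x 4 = 5 := by simp only [hx]; rw [if_neg n41]; simp
  have xa : ∀ i, i ≠ 4 → t i = t 0 → x i = 0 := fun i h1 h2 => by
    simp only [hx]
    rw [if_neg, if_neg h1, if_pos h2]
    intro h
    rw [h, t1] at h2
    cases t 0 <;> simp at h2
  have xb : ∀ i, i ≠ 1 → t i ≠ t 0 → x i = 6 := fun i h1 h2 => by
    simp only [hx]
    rw [if_neg h1, if_neg, if_neg h2]
    intro h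
    rw [h] at h2
    exact h2 t4
  have xa' : ∀ i, t i = t 0 → x i ≤ 5 := fun i h => by
    by_cases h1 : i = 4
    · rw [h1, x4]
    · rw [xa i h1 h]; norm_num
  have xb' : ∀ i, t i ≠ t 0 → 1 ≤ x i := fun i h => by
    by_cases h1 : i = 1
    · rw [h1, x1]
    · rw [xb i h1 h]; norm_num
  have x0 : x 0 = 0 := xa 0 (Ne.symm n40) rfl
  have x2 : x 2 = 0 := xa 2 n24 t2
  have t3' : t 3 ≠ t 0 := by rw [t3]; cases t 0 <;> simp
  have x3 : x 3 = 6 := xb 3 n31 t3'
  have hflip : ∀ c : Bool, (!c) ≠ t 0 ↔ c = t 0 := fun c => by cases c <;> cases t 0 <;> simp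
  set R : ℝ := ∑ i, x i * sg (t i) with hR
  have hT : ∑ i, sg (t i) = 0 := by
    have h1 : ∑ i, sg (t (i + 1)) = ∑ i, sg (t i) :=
      Fintype.sum_equiv (Equiv.addRight (1 : ZMod m)) _ _ fun i => by simp
    have h2 : ∑ i, sg (t (i + 1)) = - ∑ i, sg (t i) := by
      rw [← Finset.sum_neg_distrib]
      exact Finset.sum_congr rfl fun i _ => by rw [ht, sg_not]
    linarith
  set τ : ℝ := sg (t 0) with hτ
  set l : ℝ := |R| / 4 with hl
  set u : ℝ := (|R| + τ * R) / 6 with hu
  have hl0 : 0 ≤ l := by positivity
  have hu0 : 0 ≤ u := by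
    have h3 : 0 ≤ |R| + τ * R := by
      rw [hτ]
      cases t 0
      · simp only [sg_false]; linarith [le_abs_self R]
      · simp only [sg_true]; linarith [neg_abs_le R]
    rw [hu]; positivity
  have hττ : τ * τ = 1 := sg_mul_self _
  refine of_thin x (fun i => sg (t i) + (if i = 4 then τ * l else 0) +
    (if i = 1 then -τ * l else 0) + (if i = 0 then τ * u else 0) + (if i = 3 then -τ * u else 0))
    t α b hb ?_ ?_ hb1 ?_
  · simp only [Finset.sum_add_distrib, Finset.sum_ite_eq', Finset.mem_univ, if_true]
    rw [hT]; ring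
  · have e : ∀ i, x i * (sg (t i) + (if i = 4 then τ * l else 0) +
        (if i = 1 then -τ * l else 0) + (if i = 0 then τ * u else 0) +
        (if i = 3 then -τ * u else 0)) =
        x i * sg (t i) + (if i = 4 then x 4 * (τ * l) else 0) +
        (if i = 1 then x 1 * (-τ * l) else 0) + (if i = 0 then x 0 * (τ * u) else 0) +
        (if i = 3 then x 3 * (-τ * u) else 0) := by
      intro i
      have e0 : ∀ (k : ZMod m) (c : ℝ), x i * (if i = k then c else 0) =
          if i = k then x k * c else 0 := by
        intro k c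
        split_ifs with h
        · rw [h]
        · ring
      rw [mul_add, mul_add, mul_add, mul_add, e0, e0, e0, e0]
    rw [Finset.sum_congr rfl fun i _ => e i]
    simp only [Finset.sum_add_distrib, Finset.sum_ite_eq', Finset.mem_univ, if_true]
    rw [← hR, x0, x1, x3, x4, hl, hu]
    linear_combination (-R) * hττ
  · intro i
    left
    constructor
    · by_cases hti : t i = t 0
      · have hn1 : t (i + 1) ≠ t 0 := by rw [ht, hti]; cases t 0 <;> simp
        have hn2 : t (i - 1) ≠ t 0 := by rw [htm, hti]; cases t 0 <;> simp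
        by_cases h4 : i = 4
        · subst h4
          have e1 : (4 : ZMod m) + 1 = 5 := by norm_num
          have e2 : (4 : ZMod m) - 1 = 3 := by norm_num
          rw [xb (4 + 1) (by rw [e1]; exact n51) hn1, e2, x3, x4]
          norm_num
        · rw [xa i h4 hti]
          have h1 := xb' _ hn1
          have h2 := xb' _ hn2
          nlinarith
      · have hn1 : t (i + 1) = t 0 := by
          rw [ht]; revert hti; cases t i <;> cases t 0 <;> simp
        have hn2 : t (i - 1) = t 0 := by
          rw [htm]; revert hti; cases t i <;> cases t 0 <;> simp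
        by_cases h1 : i = 1
        · subst h1
          rw [sub_self, one_add_one_eq_two, x0, x1, x2]
          norm_num
        · rw [xb i h1 hti]
          have h1 := xa' _ hn1
          have h2 := xa' _ hn2
          nlinarith
    · have hmain : ∃ e : ℝ, 0 ≤ e ∧ sg (t i) + (if i = 4 then τ * l else 0) +
          (if i = 1 then -τ * l else 0) + (if i = 0 then τ * u else 0) +
          (if i = 3 then -τ * u else 0) = sg (t i) * (1 + e) := by
        by_cases h4 : i = 4
        · subst h4
          refine ⟨l, hl0, ?_⟩
          rw [if_pos rfl, if_neg n41, if_neg n40, if_neg (Ne.symm n34), t4, ← hτ]; ring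
        · by_cases h1 : i = 1
          · subst h1
            refine ⟨l, hl0, ?_⟩
            rw [if_neg h4, if_pos rfl, if_neg n10, if_neg (Ne.symm n31), t1, sg_not, ← hτ]; ring
          · by_cases h0 : i = 0
            · subst h0
              refine ⟨u, hu0, ?_⟩
              rw [if_neg h4, if_neg h1, if_pos rfl, if_neg (Ne.symm n30), ← hτ]; ring
            · by_cases h3 : i = 3
              · subst h3
                refine ⟨u, hu0, ?_⟩
                rw [if_neg h4, if_neg h1, if_neg h0, if_pos rfl, t3, sg_not, ← hτ]; ring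
              · refine ⟨0, le_refl _, ?_⟩
                rw [if_neg h4, if_neg h1, if_neg h0, if_neg h3]; ring
      obtain ⟨e, he0, he⟩ := hmain
      simp only [he]
      exact SgnB_sg_mul _ (by linarith)

theorem cyc : StmtCYC := by
  intro m hm t α hα hpar hex
  have : NeZero m := ⟨by omega⟩
  rcases Nat.even_or_odd m with heven | hodd
  · by_cases hB : ∃ i, cr (α i) (α (i + 1)) ≠ 0 ∨ (α i = α (i + 1) ∧ t i = t (i + 1))
    · obtain ⟨i, hi⟩ := hB
      apply shift t α i
      refine cyc_even hm heven _ _ (fun _ => hα _) ?_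
      simpa only [zero_add, add_comm 1 i] using hi
    · push Not at hB
      have hα' : ∀ i, α i = α (i + 1) := fun i => by
        rcases hpar i (i + 1) with h | h
        · exact h
        · exact absurd (hB i).1 h
      have ht : ∀ i, t (i + 1) = !(t i) := fun i => by
        have := (hB i).2 (hα' i)
        revert this
        cases t i <;> cases t (i + 1) <;> simp
      have hall : ∀ i, α i = α 0 := by
        have h1 : ∀ k : ℕ, α (k : ZMod m) = α 0 := by
          intro k
          induction k with
          | zero => simp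
          | succ k ih => rw [← ih, hα' (k : ZMod m)]; push_cast; rfl
        intro i
        have := h1 i.val
        rwa [ZMod.natCast_zmod_val] at this
      have hm4 : m ≠ 4 := fun h => hex ⟨h, ht, fun i j => by rw [hall i, hall j]⟩
      have hm6 : 6 ≤ m := by
        rcases heven with ⟨k, hk⟩
        omega
      exact cyc_alt hm6 t α hα ht
  · have hA : ∃ i, t i = t (i + 1) := by
      by_contra hcon
      push Not at hcon
      have ht : ∀ i, t (i + 1) = !(t i) := fun i => by
        have := hcon i
        revert this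
        cases t i <;> cases t (i + 1) <;> simp
      have h1 : ∀ k : ℕ, t ((2 * k : ℕ) : ZMod m) = t 0 := by
        intro k
        induction k with
        | zero => simp
        | succ k ih =>
          have e : ((2 * (k + 1) : ℕ) : ZMod m) = ((2 * k : ℕ) : ZMod m) + 1 + 1 := by
            push_cast; ring
          rw [e, ht, ht, Bool.not_not, ih]
      obtain ⟨k, hk⟩ := hodd
      have h2 := h1 k
      have h3 : ((2 * k : ℕ) : ZMod m) + 1 = 0 := by
        have : ((2 * k + 1 : ℕ) : ZMod m) = 0 := by rw [← hk]; exact ZMod.natCast_self m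
        exact_mod_cast this
      have h4 := ht ((2 * k : ℕ) : ZMod m)
      rw [h3, h2] at h4
      cases h5 : t 0 <;> simp [h5] at h4
    obtain ⟨i, hi⟩ := hA
    apply shift t α (i - 1)
    refine cyc_odd hm hodd _ _ (fun _ => hα _) ?_
    have e1 : (1 : ZMod m) + (i - 1) = i := by ring
    have e2 : (2 : ZMod m) + (i - 1) = i + 1 := by ring
    simp only [e1, e2]
    exact hi

end Pool.Agent.T6.H37.RO
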