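import Pool.Agent.T6.H37.RO.MIN

set_option autoImplicit false

/-! Module DEC: the decomposition. -/

namespace Pool.Agent.T6.H37.RO
namespace ModDEC

open ModMIN

variable {V : Type}

/-- the alternatives for a vertex which is not alone -/
def Alt (r : Rot V) (κ : V → ℕ) (v : V) : Prop :=
  (∃ (m : ℕ) (z : ZMod m → V), IsCyc r κ m z ∧ ∃ i, z i = v) ∨
  (∃ w : Fin 4 → V, IsDia r κ w ∧ ∃ i, w i = v) ∨
  (∃ w : Fin 5 → V, IsDiaFive r κ w ∧ ∃ i, w i = v) ∨
  (∃ w : Fin 4 → V, IsKFour r κ w ∧ ∃ i, w i = v)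

/-- the state of the construction: `S` is the remaining set -/
def St (r : Rot V) (S : Finset V) (κ : V → ℕ) (N : ℕ) : Prop :=
  (∀ v ∈ S, κ v = N) ∧ (∀ v, v ∉ S → κ v < N) ∧ (∀ v, v ∉ S → Alt r κ v) ∧
  (∀ v, v ∉ S → ∀ i j, r.n i v ∈ S → r.n j v ∈ S → i = j) ∧
  (∀ v ∈ S, ∀ i j, i ≠ j → r.n i v ∉ S → r.n j v ∉ S → κ (r.n i v) = κ (r.n j v) →
    ∃ z : ZMod 4 → V, IsCyc r κ 4 z ∧ r.n i v = z 0 ∧ r.n j v = z 2)

lemma tr_cyc {r : Rot V} {κ κ' : V → ℕ} {m : ℕ} {z : ZMod m → V}
    (h : ∀ v, κ' v = κ' (z 0) ↔ κ v = κ (z 0)) (hz : IsCyc r κ m z) : IsCyc r κ' m z :=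
  ⟨hz.1, hz.2.1, hz.2.2.1, fun v => (h v).trans (hz.2.2.2.1 v), hz.2.2.2.2⟩

lemma tr_dia {r : Rot V} {κ κ' : V → ℕ} {w : Fin 4 → V}
    (h : ∀ v, κ' v = κ' (w 0) ↔ κ v = κ (w 0)) (hz : IsDia r κ w) : IsDia r κ' w :=
  ⟨hz.1, hz.2.1, hz.2.2.1, hz.2.2.2.1, hz.2.2.2.2.1, hz.2.2.2.2.2.1, hz.2.2.2.2.2.2.1,
    fun v => (h v).trans (hz.2.2.2.2.2.2.2 v)⟩

lemma tr_dif {r : Rot V} {κ κ' : V → ℕ} {w : Fin 5 → V}
    (h : ∀ v, κ' v = κ' (w 0) ↔ κ v = κ (w 0)) (hz : IsDiaFive r κ w) : IsDiaFive r κ' w :=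
  ⟨hz.1, hz.2.1, hz.2.2.1, hz.2.2.2.1, hz.2.2.2.2.1, hz.2.2.2.2.2.1, hz.2.2.2.2.2.2.1,
    hz.2.2.2.2.2.2.2.1, fun v => (h v).trans (hz.2.2.2.2.2.2.2.2 v)⟩

lemma tr_kf {r : Rot V} {κ κ' : V → ℕ} {w : Fin 4 → V}
    (h : ∀ v, κ' v = κ' (w 0) ↔ κ v = κ (w 0)) (hz : IsKFour r κ w) : IsKFour r κ' w :=
  ⟨hz.1, hz.2.1, fun v => (h v).trans (hz.2.2 v)⟩

/-- transfer of the alternatives -/
lemma tr_alt {r : Rot V} {κ κ' : V → ℕ} {S : Finset V} {N : ℕ} (hS : ∀ v ∈ S, κ v = N)
    (hR : ∀ v, v ∉ S → κ v < N) (h : ∀ u, u ∉ S → ∀ v, κ' v = κ' u ↔ κ v = κ u)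
    {v : V} (hv : v ∉ S) (ha : Alt r κ v) : Alt r κ' v := by
  have key : ∀ u, κ v = κ u → u ∉ S := by
    intro u hu hS'
    have h1 := hS u hS'
    have h2 := hR v hv
    omega
  rcases ha with ⟨m, z, hz, i, hi⟩ | ⟨w, hw, i, hi⟩ | ⟨w, hw, i, hi⟩ | ⟨w, hw, i, hi⟩
  · left
    have h0 : z 0 ∉ S := key _ ((hz.2.2.2.1 v).mpr ⟨i, hi⟩)
    exact ⟨m, z, tr_cyc (fun v => h _ h0 v) hz, i, hi⟩
  · right; left
    have h0 : w 0 ∉ S := key _ ((hw.2.2.2.2.2.2.2 v).mpr ⟨i, hi⟩)
    exact ⟨w, tr_dia (fun v => h _ h0 v) hw, i, hi⟩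
  · right; right; left
    have h0 : w 0 ∉ S := key _ ((hw.2.2.2.2.2.2.2.2 v).mpr ⟨i, hi⟩)
    exact ⟨w, tr_dif (fun v => h _ h0 v) hw, i, hi⟩
  · right; right; right
    have h0 : w 0 ∉ S := key _ ((hw.2.2 v).mpr ⟨i, hi⟩)
    exact ⟨w, tr_kf (fun v => h _ h0 v) hw, i, hi⟩

/-- an alternative vertex is not alone -/
lemma alt_not_alone {r : Rot V} {κ : V → ℕ} {v : V} (ha : Alt r κ v) :
    ¬ ∀ u, κ u = κ v → u = v := by
  intro hal
  rcases ha with ⟨m, z, hz, i, hi⟩ | ⟨w, hw, i, hi⟩ | ⟨w, hw, i, hi⟩ | ⟨w, hw, i, hi⟩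
  · have hv := (hz.2.2.2.1 v).mpr ⟨i, hi⟩
    have h1 : z (i + 1) = v := hal _ (((hz.2.2.2.1 _).mpr ⟨i + 1, rfl⟩).trans hv.symm)
    have h2 : r.Adj (z i) (z (i + 1)) := hz.2.2.1 i
    exact adj_irr r h2 (hi.trans h1.symm)
  · have hv := (hw.2.2.2.2.2.2.2 v).mpr ⟨i, hi⟩
    have h1 : ∀ j, w j = v := fun j => hal _ (((hw.2.2.2.2.2.2.2 _).mpr ⟨j, rfl⟩).trans hv.symm)
    have := hw.1 ((h1 0).trans (h1 1).symm)
    exact absurd this (by decide)
  · have hv := (hw.2.2.2.2.2.2.2.2 v).mpr ⟨i, hi⟩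
    have h1 : ∀ j, w j = v := fun j => hal _ (((hw.2.2.2.2.2.2.2.2 _).mpr ⟨j, rfl⟩).trans hv.symm)
    have := hw.1 ((h1 0).trans (h1 1).symm)
    exact absurd this (by decide)
  · have hv := (hw.2.2 v).mpr ⟨i, hi⟩
    have h1 : ∀ j, w j = v := fun j => hal _ (((hw.2.2 _).mpr ⟨j, rfl⟩).trans hv.symm)
    have := hw.1 ((h1 0).trans (h1 1).symm)
    exact absurd this (by decide)

/-- every vertex of `T` has two neighbours in `T` -/
def Dense (r : Rot V) (T : Finset V) : Prop := ∀ v ∈ T, ∃ i j, i ≠ j ∧ r.n i v ∈ T ∧ r.n j v ∈ T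

lemma at_most (r : Rot V) (T : Finset V) (v : V) (h : ∃ i j, i ≠ j ∧ r.n i v ∈ T ∧ r.n j v ∈ T) :
    ∀ i j, r.n i v ∉ T → r.n j v ∉ T → i = j := by
  obtain ⟨a, b, hab, ha, hb⟩ := h
  intro i j hi hj
  have h1 : i ≠ a := fun h => hi (h ▸ ha)
  have h2 : i ≠ b := fun h => hi (h ▸ hb)
  have h3 : j ≠ a := fun h => hj (h ▸ ha)
  have h4 : j ≠ b := fun h => hj (h ▸ hb)
  omega

/-- removal of a class -/
lemma step [DecidableEq V] {r : Rot V} {S : Finset V} {κ : V → ℕ} {N : ℕ} (h : St r S κ N)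
    (C : Finset V) (hCS : C ⊆ S) (hC : Dense r C)
    (κ' : V → ℕ) (hκ' : ∀ v, κ' v = if v ∈ C then N else if v ∈ S then N + 1 else κ v)
    (hA : ∀ v ∈ C, Alt r κ' v)
    (hP : ∀ v ∈ S, v ∉ C → ∀ i j, i ≠ j → r.n i v ∈ C → r.n j v ∈ C →
      ∃ z : ZMod 4 → V, IsCyc r κ' 4 z ∧ r.n i v = z 0 ∧ r.n j v = z 2) :
    St r (S \ C) κ' (N + 1) := by
  obtain ⟨h1, h2, h3, h4, h5⟩ := h
  have kC : ∀ v ∈ C, κ' v = N := fun v hv => by rw [hκ']; simp [hv]
  have kS : ∀ v ∈ S, v ∉ C → κ' v = N + 1 := fun v hv hv' => by rw [hκ']; simp [hv, hv']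
  have kR : ∀ v, v ∉ S → κ' v = κ v := fun v hv => by
    rw [hκ']
    have : v ∉ C := fun h => hv (hCS h)
    simp [hv, this]
  have htr : ∀ u, u ∉ S → ∀ v, κ' v = κ' u ↔ κ v = κ u := by
    intro u hu v
    rw [kR u hu]
    have := h2 u hu
    by_cases hv : v ∈ S
    · have := h1 v hv
      by_cases hvC : v ∈ C
      · rw [kC v hvC]; omega
      · rw [kS v hv hvC]; omega
    · rw [kR v hv]
  refine ⟨?_, ?_, ?_, ?_, ?_⟩
  · intro v hv
    rw [Finset.mem_sdiff] at hv
    exact kS v hv.1 hv.2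
  · intro v hv
    rw [Finset.mem_sdiff, not_and_or, not_not] at hv
    by_cases hvC : v ∈ C
    · rw [kC v hvC]; omega
    · have hvS : v ∉ S := by tauto
      rw [kR v hvS]
      have := h2 v hvS
      omega
  · intro v hv
    rw [Finset.mem_sdiff, not_and_or, not_not] at hv
    by_cases hvC : v ∈ C
    · exact hA v hvC
    · have hvS : v ∉ S := by tauto
      exact tr_alt h1 h2 htr hvS (h3 v hvS)
  · intro v hv i j hi hj
    rw [Finset.mem_sdiff] at hi hj
    rw [Finset.mem_sdiff, not_and_or, not_not] at hv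
    by_cases hvC : v ∈ C
    · exact at_most r C v (hC v hvC) i j hi.2 hj.2
    · have hvS : v ∉ S := by tauto
      exact h4 v hvS i j hi.1 hj.1
  · intro v hv i j hij hi hj hk
    rw [Finset.mem_sdiff] at hv
    rw [Finset.mem_sdiff, not_and_or, not_not] at hi hj
    by_cases hiC : r.n i v ∈ C
    · have hjC : r.n j v ∈ C := by
        by_contra hjC
        have hjS : r.n j v ∉ S := by tauto
        rw [kC _ hiC, kR _ hjS] at hk
        have := h2 _ hjS
        omega
      exact hP v hv.1 hv.2 i j hij hiC hjC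
    · have hiS : r.n i v ∉ S := by tauto
      have hjC : r.n j v ∉ C := by
        intro hjC
        rw [kC _ hjC, kR _ hiS] at hk
        have := h2 _ hiS
        omega
      have hjS : r.n j v ∉ S := by tauto
      rw [kR _ hiS, kR _ hjS] at hk
      obtain ⟨z, hz, hz1, hz2⟩ := h5 v hv.1 i j hij hiS hjS hk
      refine ⟨z, ?_, hz1, hz2⟩
      exact tr_cyc (fun v => htr _ (by rw [← hz1]; exact hiS) v) hz

/-- ordering a forest -/
lemma forest [DecidableEq V] (r : Rot V) : ∀ (k : ℕ) (S : Finset V), S.card = k → ∀ N : ℕ,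
    (∀ T ⊆ S, T.Nonempty → ¬ Dense r T) →
    ∃ l : V → ℕ, (∀ v ∈ S, N ≤ l v) ∧ (∀ u ∈ S, ∀ v ∈ S, l u = l v → u = v) ∧
      (∀ v ∈ S, ∀ i j, r.n i v ∈ S → r.n j v ∈ S → l v < l (r.n i v) → l v < l (r.n j v) → i = j) := by
  intro k
  induction k with
  | zero =>
    intro S hS N _
    rw [Finset.card_eq_zero] at hS
    subst hS
    exact ⟨fun _ => 0, by simp, by simp, by simp⟩
  | succ k ih =>
    intro S hS N hno
    have hne : S.Nonempty := by rw [← Finset.card_pos]; omega
    have := hno S (Finset.Subset.refl S) hne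
    unfold Dense at this
    push Not at this
    obtain ⟨v, hv, hv'⟩ := this
    have hcard : (S.erase v).card = k := by rw [Finset.card_erase_of_mem hv]; omega
    obtain ⟨l, l1, l2, l3⟩ := ih (S.erase v) hcard (N + 1)
      (fun T hT hTn => hno T (hT.trans (Finset.erase_subset _ _)) hTn)
    refine ⟨fun u => if u = v then N else l u, ?_, ?_, ?_⟩
    · intro u hu
      by_cases huv : u = v
      · simp [huv]
      · simp only [huv, if_false]
        have := l1 u (Finset.mem_erase.mpr ⟨huv, hu⟩)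
        omega
    · intro u hu w hw huw
      by_cases h1 : u = v <;> by_cases h2 : w = v
      · rw [h1, h2]
      · simp only [h1, h2, if_true, if_false] at huw
        have := l1 w (Finset.mem_erase.mpr ⟨h2, hw⟩)
        omega
      · simp only [h1, h2, if_true, if_false] at huw
        have := l1 u (Finset.mem_erase.mpr ⟨h1, hu⟩)
        omega
      · simp only [h1, h2, if_false] at huw
        exact l2 u (Finset.mem_erase.mpr ⟨h1, hu⟩) w (Finset.mem_erase.mpr ⟨h2, hw⟩) huw
    · intro u hu i j hi hj hli hlj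
      by_cases huv : u = v
      · by_contra hij
        rw [huv] at hi hj
        exact hv' i j hij hi hj
      · have hum := Finset.mem_erase.mpr ⟨huv, hu⟩
        have hNu := l1 u hum
        simp only [huv, if_false] at hli hlj
        have hiv : r.n i u ≠ v := by
          intro h; simp only [h, if_true] at hli; omega
        have hjv : r.n j u ≠ v := by
          intro h; simp only [h, if_true] at hlj; omega
        simp only [hiv, hjv, if_false] at hli hlj
        exact l3 u hum i j (Finset.mem_erase.mpr ⟨hiv, hi⟩) (Finset.mem_erase.mpr ⟨hjv, hj⟩) hli hlj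

/-- the end of the construction -/
lemma finish [DecidableEq V] {r : Rot V} {S : Finset V} {κ : V → ℕ} {N : ℕ} (h : St r S κ N)
    (hno : ∀ T ⊆ S, T.Nonempty → ¬ Dense r T) : ∃ κ' : V → ℕ, Struct r κ' ∧ Ordered r κ' := by
  obtain ⟨h1, h2, h3, h4, h5⟩ := h
  obtain ⟨l, l1, l2, l3⟩ := forest r S.card S rfl N hno
  let κ' : V → ℕ := fun v => if v ∈ S then l v else κ v
  have kS : ∀ v ∈ S, κ' v = l v := fun v hv => by simp [κ', hv]
  have kR : ∀ v, v ∉ S → κ' v = κ v := fun v hv => by simp [κ', hv]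
  have htr : ∀ u, u ∉ S → ∀ v, κ' v = κ' u ↔ κ v = κ u := by
    intro u hu v
    rw [kR u hu]
    have := h2 u hu
    by_cases hv : v ∈ S
    · have := h1 v hv
      have := l1 v hv
      rw [kS v hv]; omega
    · rw [kR v hv]
  have hal : ∀ v ∈ S, ∀ u, κ' u = κ' v → u = v := by
    intro v hv u huv
    rw [kS v hv] at huv
    by_cases hu : u ∈ S
    · rw [kS u hu] at huv
      exact l2 u hu v hv huv
    · rw [kR u hu] at huv
      have := h2 u hu
      have := l1 v hv
      omega
  have hR : ∀ v, v ∉ S → Alt r κ' v := fun v hv => tr_alt h1 h2 htr hv (h3 v hv)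
  refine ⟨κ', ?_, ?_⟩
  · intro v
    by_cases hv : v ∈ S
    · left
      refine ⟨hal v hv, ?_⟩
      intro i j hij hk
      have hiS : r.n i v ∉ S := by
        intro hi
        exact hij (r.inj v i j (hal _ hi _ hk.symm).symm)
      have hjS : r.n j v ∉ S := by
        intro hj
        exact hij (r.inj v i j (hal _ hj _ hk))
      rw [kR _ hiS, kR _ hjS] at hk
      obtain ⟨z, hz, hz1, hz2⟩ := h5 v hv i j hij hiS hjS hk
      exact ⟨z, tr_cyc (fun v => htr _ (by rw [← hz1]; exact hiS) v) hz, hz1, hz2⟩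
    · right; exact hR v hv
  · intro v hv i j hi hj
    have hvS : v ∈ S := by
      by_contra hvS
      exact alt_not_alone (hR v hvS) hv
    have key : ∀ i, κ' v < κ' (r.n i v) → r.n i v ∈ S := by
      intro i hi
      by_contra h
      rw [kS v hvS, kR _ h] at hi
      have := h2 _ h
      have := l1 v hvS
      omega
    have hiS := key i hi
    have hjS := key j hj
    rw [kS v hvS, kS _ hiS] at hi
    rw [kS v hvS, kS _ hjS] at hj
    exact l3 v hvS i j hiS hjS hi hj

/-- the new labelling -/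
def lab [DecidableEq V] (S C : Finset V) (κ : V → ℕ) (N : ℕ) (v : V) : ℕ :=
  if v ∈ C then N else if v ∈ S then N + 1 else κ v

lemma lab_iff [DecidableEq V] {r : Rot V} {S : Finset V} {κ : V → ℕ} {N : ℕ} (h : St r S κ N)
    (C : Finset V) {u : V} (hu : u ∈ C) (v : V) :
    lab S C κ N v = lab S C κ N u ↔ v ∈ C := by
  have e : lab S C κ N u = N := by unfold lab; simp [hu]
  rw [e]
  unfold lab
  by_cases hv : v ∈ C
  · simp [hv]
  · by_cases hS : v ∈ S
    · simp [hv, hS]
    · have := h.2.1 v hS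
      simp only [hv, hS, if_false]
      constructor
      · intro h'; omega
      · intro h'; exact h'.elim

/-- three different neighbours are all neighbours -/
lemma sat (r : Rot V) {x p q s : V} (hp : r.Adj x p) (hq : r.Adj x q) (hs : r.Adj x s)
    (h1 : p ≠ q) (h2 : p ≠ s) (h3 : q ≠ s) {v : V} (hv : r.Adj x v) : v = p ∨ v = q ∨ v = s := by
  obtain ⟨i, rfl⟩ := hp
  obtain ⟨j, rfl⟩ := hq
  obtain ⟨k, rfl⟩ := hs
  obtain ⟨l, rfl⟩ := hv
  have a1 : i ≠ j := fun h => h1 (by rw [h])
  have a2 : i ≠ k := fun h => h2 (by rw [h])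
  have a3 : j ≠ k := fun h => h3 (by rw [h])
  have : l = i ∨ l = j ∨ l = k := by omega
  rcases this with h | h | h
  · left; rw [h]
  · right; left; rw [h]
  · right; right; rw [h]

lemma two_nb (r : Rot V) {C : Finset V} {x p q : V} (hp : r.Adj x p) (hq : r.Adj x q)
    (h : p ≠ q) (pC : p ∈ C) (qC : q ∈ C) : ∃ i j, i ≠ j ∧ r.n i x ∈ C ∧ r.n j x ∈ C := by
  obtain ⟨i, rfl⟩ := hp
  obtain ⟨j, rfl⟩ := hq
  exact ⟨i, j, fun hij => h (by rw [hij]), pC, qC⟩

/-- the result of one step -/
def Prog (r : Rot V) (S : Finset V) : Prop :=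
  ∃ (S' : Finset V) (κ' : V → ℕ) (N' : ℕ), S'.card < S.card ∧ St r S' κ' N'

lemma prog_of [DecidableEq V] {r : Rot V} {S C : Finset V} {κ' : V → ℕ} {N' : ℕ} (hCS : C ⊆ S)
    (hne : C.Nonempty) (h : St r (S \ C) κ' N') : Prog r S := by
  refine ⟨S \ C, κ', N', ?_, h⟩
  rw [Finset.card_sdiff_of_subset hCS]
  have h1 := Finset.card_pos.mpr hne
  have h2 := Finset.card_le_card hCS
  omega

/-- a cycle -/
lemma cyc_case [DecidableEq V] {r : Rot V} {S : Finset V} {κ : V → ℕ} {N : ℕ} (h : St r S κ N)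
    {m : ℕ} {z : ZMod m → V} (hm : 3 ≤ m) (zI : Function.Injective z) (zS : ∀ i, z i ∈ S)
    (zA : ∀ i, r.Adj (z i) (z (i + 1))) (zN : ∀ i j, r.Adj (z i) (z j) → j = i + 1 ∨ i = j + 1)
    (hP : ∀ v ∈ S, (∀ i, z i ≠ v) → ∀ i j, i ≠ j → r.Adj v (z i) → r.Adj v (z j) →
      m = 4 ∧ j = i + 2) : Prog r S := by
  have hm0 : NeZero m := ⟨by omega⟩
  let C : Finset V := Finset.univ.image z
  have memC : ∀ v, v ∈ C ↔ ∃ i, z i = v := by intro v; simp [C]
  have hCS : C ⊆ S := by
    intro v hv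
    obtain ⟨i, rfl⟩ := (memC v).mp hv
    exact zS i
  have hne : C.Nonempty := ⟨z 0, (memC _).mpr ⟨0, rfl⟩⟩
  have hcyc : IsCyc r (lab S C κ N) m z := by
    refine ⟨hm, zI, zA, ?_, zN⟩
    intro v
    rw [lab_iff h C ((memC _).mpr ⟨0, rfl⟩) v, memC]
  refine prog_of hCS hne (step h C hCS ?_ (lab S C κ N) (fun v => rfl) ?_ ?_)
  · intro v hv
    obtain ⟨i, rfl⟩ := (memC v).mp hv
    have h1 := zA i
    have h2 := zA (i - 1)
    rw [sub_add_cancel] at h2
    refine two_nb r h1 (adj_symm r h2) ?_ ((memC _).mpr ⟨_, rfl⟩) ((memC _).mpr ⟨_, rfl⟩)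
    intro he
    have h3 := zI he
    have h4 : (2 : ZMod m) = 0 := by
      linear_combination h3
    have h5 : ((2 : ℕ) : ZMod m) = 0 := by exact_mod_cast h4
    rw [ZMod.natCast_eq_zero_iff] at h5
    have := Nat.le_of_dvd (by norm_num) h5
    omega
  · intro v hv
    obtain ⟨i, hi⟩ := (memC v).mp hv
    left
    exact ⟨m, z, hcyc, i, hi⟩
  · intro v hv hvC i j hij hi hj
    obtain ⟨a, ha⟩ := (memC _).mp hi
    obtain ⟨b, hb⟩ := (memC _).mp hj
    have hab : a ≠ b := by
      intro h'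
      apply hij
      apply r.inj v
      rw [← ha, ← hb, h']
    have hvz : ∀ i, z i ≠ v := fun i hi => hvC ((memC v).mpr ⟨i, hi⟩)
    obtain ⟨hm4, hba⟩ := hP v hv hvz a b hab ⟨i, ha.symm⟩ ⟨j, hb.symm⟩
    subst hm4
    refine ⟨fun k => z (k + a), ⟨hm, ?_, ?_, ?_, ?_⟩, ?_, ?_⟩
    · intro x y hxy
      exact add_right_cancel (zI hxy)
    · intro k
      have := zA (k + a)
      rw [add_right_comm] at this
      exact this
    · intro v
      show lab S C κ N v = lab S C κ N (z (0 + a)) ↔ _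
      rw [lab_iff h C ((memC _).mpr ⟨0 + a, rfl⟩) v, memC]
      constructor
      · rintro ⟨k, hk⟩; exact ⟨k - a, by simp [hk]⟩
      · rintro ⟨k, hk⟩; exact ⟨k + a, hk⟩
    · intro x y hxy
      rcases zN _ _ hxy with h1 | h1
      · left
        rw [add_right_comm] at h1
        exact add_right_cancel h1
      · right
        rw [add_right_comm] at h1
        exact add_right_cancel h1
    · show _ = z (0 + a); rw [zero_add]; exact ha.symm
    · show _ = z (2 + a); rw [← hb, hba, add_comm]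

/-- two triangles with a common edge -/
lemma tri_case [DecidableEq V] {r : Rot V} {S : Finset V} {κ : V → ℕ} {N : ℕ} (h : St r S κ N)
    {a b c d : V} (aS : a ∈ S) (bS : b ∈ S) (cS : c ∈ S) (dS : d ∈ S)
    (ab : r.Adj a b) (ac : r.Adj a c) (bc : r.Adj b c) (ad : r.Adj a d) (bd : r.Adj b d)
    (hcd : c ≠ d) : Prog r S := by
  have ba := adj_symm r ab
  have ca := adj_symm r ac
  have cb := adj_symm r bc
  have da := adj_symm r ad
  have db := adj_symm r bd
  have nab := adj_irr r ab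
  have nac := adj_irr r ac
  have nbc := adj_irr r bc
  have nad := adj_irr r ad
  have nbd := adj_irr r bd
  by_cases cd : r.Adj c d
  · -- complete graph
    have dc := adj_symm r cd
    let C : Finset V := {a, b, c, d}
    have memC : ∀ v, v ∈ C ↔ (v = a ∨ v = b ∨ v = c ∨ v = d) := by intro v; simp [C]
    have aC : a ∈ C := (memC a).mpr (by simp)
    have bC : b ∈ C := (memC b).mpr (by simp)
    have cC : c ∈ C := (memC c).mpr (by simp)
    have dC : d ∈ C := (memC d).mpr (by simp)
    have hCS : C ⊆ S := by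
      intro v hv
      rcases (memC v).mp hv with rfl | rfl | rfl | rfl <;> assumption
    have hkf : IsKFour r (lab S C κ N) ![a, b, c, d] := by
      refine ⟨?_, ?_, ?_⟩
      · intro i j hij
        fin_cases i <;> fin_cases j <;> simp_all
      · intro i j hij
        fin_cases i <;> fin_cases j <;> simp_all
      · intro v
        show lab S C κ N v = lab S C κ N a ↔ _
        rw [lab_iff h C aC v, memC]
        constructor
        · rintro (rfl | rfl | rfl | rfl)
          · exact ⟨0, rfl⟩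
          · exact ⟨1, rfl⟩
          · exact ⟨2, rfl⟩
          · exact ⟨3, rfl⟩
        · rintro ⟨i, rfl⟩
          fin_cases i <;> simp
    refine prog_of hCS ⟨a, aC⟩ (step h C hCS ?_ (lab S C κ N) (fun v => rfl) ?_ ?_)
    · intro v hv
      rcases (memC v).mp hv with rfl | rfl | rfl | rfl
      · exact two_nb r ab ac nbc bC cC
      · exact two_nb r ba bc nac aC cC
      · exact two_nb r ca cb nab aC bC
      · exact two_nb r da db nab aC bC
    · intro v hv
      right; right; right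
      refine ⟨_, hkf, ?_⟩
      rcases (memC v).mp hv with rfl | rfl | rfl | rfl
      · exact ⟨0, rfl⟩
      · exact ⟨1, rfl⟩
      · exact ⟨2, rfl⟩
      · exact ⟨3, rfl⟩
    · intro v hv hvC i j hij hi hj
      exfalso
      have hadj : r.Adj (r.n i v) v := adj_symm r ⟨i, rfl⟩
      apply hvC
      rcases (memC _).mp hi with h1 | h1 | h1 | h1 <;> rw [h1] at hadj
      · rcases sat r ab ac ad nbc nbd hcd hadj with rfl | rfl | rfl <;> assumption
      · rcases sat r ba bc bd nac nad hcd hadj with rfl | rfl | rfl <;> assumption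
      · rcases sat r ca cb cd nab nad nbd hadj with rfl | rfl | rfl <;> assumption
      · rcases sat r da db dc nab nac nbc hadj with rfl | rfl | rfl <;> assumption
  · by_cases hx : ∃ x, x ≠ a ∧ x ≠ b ∧ r.Adj c x ∧ r.Adj d x
    · obtain ⟨x, xa, xb, cx, dx⟩ := hx
      have xc := adj_symm r cx
      have xd := adj_symm r dx
      have ncx := adj_irr r cx
      have ndx := adj_irr r dx
      have xS : x ∈ S := by
        by_contra hxS
        obtain ⟨i, hi⟩ := xc
        obtain ⟨j, hj⟩ := xd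
        have := h.2.2.2.1 x hxS i j (by rw [hi]; exact cS) (by rw [hj]; exact dS)
        rw [this, hj] at hi
        exact hcd hi.symm
      let C : Finset V := {a, b, c, d, x}
      have memC : ∀ v, v ∈ C ↔ (v = a ∨ v = b ∨ v = c ∨ v = d ∨ v = x) := by intro v; simp [C]
      have aC : a ∈ C := (memC a).mpr (by simp)
      have bC : b ∈ C := (memC b).mpr (by simp)
      have cC : c ∈ C := (memC c).mpr (by simp)
      have dC : d ∈ C := (memC d).mpr (by simp)
      have xC : x ∈ C := (memC x).mpr (by simp)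
      have hCS : C ⊆ S := by
        intro v hv
        rcases (memC v).mp hv with rfl | rfl | rfl | rfl | rfl <;> assumption
      have hdf : IsDiaFive r (lab S C κ N) ![a, b, c, d, x] := by
        refine ⟨?_, ab, ac, ad, bc, bd, cx, dx, ?_⟩
        · intro i j hij
          fin_cases i <;> fin_cases j <;> simp_all
        · intro v
          show lab S C κ N v = lab S C κ N a ↔ _
          rw [lab_iff h C aC v, memC]
          constructor
          · rintro (rfl | rfl | rfl | rfl | rfl)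
            · exact ⟨0, rfl⟩
            · exact ⟨1, rfl⟩
            · exact ⟨2, rfl⟩
            · exact ⟨3, rfl⟩
            · exact ⟨4, rfl⟩
          · rintro ⟨i, rfl⟩
            fin_cases i <;> simp
      refine prog_of hCS ⟨a, aC⟩ (step h C hCS ?_ (lab S C κ N) (fun v => rfl) ?_ ?_)
      · intro v hv
        rcases (memC v).mp hv with rfl | rfl | rfl | rfl | rfl
        · exact two_nb r ab ac nbc bC cC
        · exact two_nb r ba bc nac aC cC
        · exact two_nb r ca cb nab aC bC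
        · exact two_nb r da db nab aC bC
        · exact two_nb r xc xd hcd cC dC
      · intro v hv
        right; right; left
        refine ⟨_, hdf, ?_⟩
        rcases (memC v).mp hv with rfl | rfl | rfl | rfl | rfl
        · exact ⟨0, rfl⟩
        · exact ⟨1, rfl⟩
        · exact ⟨2, rfl⟩
        · exact ⟨3, rfl⟩
        · exact ⟨4, rfl⟩
      · intro v hv hvC i j hij hi hj
        exfalso
        have key : ∀ i, r.n i v ∈ C → r.n i v = x := by
          intro i hi
          have hadj : r.Adj (r.n i v) v := adj_symm r ⟨i, rfl⟩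
          rcases (memC _).mp hi with h1 | h1 | h1 | h1 | h1
          · exfalso
            rw [h1] at hadj
            apply hvC
            rcases sat r ab ac ad nbc nbd hcd hadj with rfl | rfl | rfl <;> assumption
          · exfalso
            rw [h1] at hadj
            apply hvC
            rcases sat r ba bc bd nac nad hcd hadj with rfl | rfl | rfl <;> assumption
          · exfalso
            rw [h1] at hadj
            apply hvC
            rcases sat r ca cb cx nab (Ne.symm xa) (Ne.symm xb) hadj with rfl | rfl | rfl <;> assumption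
          · exfalso
            rw [h1] at hadj
            apply hvC
            rcases sat r da db dx nab (Ne.symm xa) (Ne.symm xb) hadj with rfl | rfl | rfl <;> assumption
          · exact h1
        exact hij (r.inj v i j ((key i hi).trans (key j hj).symm))
    · let C : Finset V := {a, b, c, d}
      have memC : ∀ v, v ∈ C ↔ (v = a ∨ v = b ∨ v = c ∨ v = d) := by intro v; simp [C]
      have aC : a ∈ C := (memC a).mpr (by simp)
      have bC : b ∈ C := (memC b).mpr (by simp)
      have cC : c ∈ C := (memC c).mpr (by simp)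
      have dC : d ∈ C := (memC d).mpr (by simp)
      have hCS : C ⊆ S := by
        intro v hv
        rcases (memC v).mp hv with rfl | rfl | rfl | rfl <;> assumption
      have hdi : IsDia r (lab S C κ N) ![a, b, c, d] := by
        refine ⟨?_, ab, ac, ad, bc, bd, cd, ?_⟩
        · intro i j hij
          fin_cases i <;> fin_cases j <;> simp_all
        · intro v
          show lab S C κ N v = lab S C κ N a ↔ _
          rw [lab_iff h C aC v, memC]
          constructor
          · rintro (rfl | rfl | rfl | rfl)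
            · exact ⟨0, rfl⟩
            · exact ⟨1, rfl⟩
            · exact ⟨2, rfl⟩
            · exact ⟨3, rfl⟩
          · rintro ⟨i, rfl⟩
            fin_cases i <;> simp
      refine prog_of hCS ⟨a, aC⟩ (step h C hCS ?_ (lab S C κ N) (fun v => rfl) ?_ ?_)
      · intro v hv
        rcases (memC v).mp hv with rfl | rfl | rfl | rfl
        · exact two_nb r ab ac nbc bC cC
        · exact two_nb r ba bc nac aC cC
        · exact two_nb r ca cb nab aC bC
        · exact two_nb r da db nab aC bC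
      · intro v hv
        right; left
        refine ⟨_, hdi, ?_⟩
        rcases (memC v).mp hv with rfl | rfl | rfl | rfl
        · exact ⟨0, rfl⟩
        · exact ⟨1, rfl⟩
        · exact ⟨2, rfl⟩
        · exact ⟨3, rfl⟩
      · intro v hv hvC i j hij hi hj
        exfalso
        have key : ∀ i, r.n i v ∈ C → r.n i v = c ∨ r.n i v = d := by
          intro i hi
          have hadj : r.Adj (r.n i v) v := adj_symm r ⟨i, rfl⟩
          rcases (memC _).mp hi with h1 | h1 | h1 | h1
          · exfalso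
            rw [h1] at hadj
            apply hvC
            rcases sat r ab ac ad nbc nbd hcd hadj with rfl | rfl | rfl <;> assumption
          · exfalso
            rw [h1] at hadj
            apply hvC
            rcases sat r ba bc bd nac nad hcd hadj with rfl | rfl | rfl <;> assumption
          · left; exact h1
          · right; exact h1
        have hne : r.n i v ≠ r.n j v := fun he => hij (r.inj v i j he)
        have hva : v ≠ a := fun he => hvC (he ▸ aC)
        have hvb : v ≠ b := fun he => hvC (he ▸ bC)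
        have hai : r.Adj (r.n i v) v := adj_symm r ⟨i, rfl⟩
        have haj : r.Adj (r.n j v) v := adj_symm r ⟨j, rfl⟩
        apply hx
        rcases key i hi with h1 | h1 <;> rcases key j hj with h2 | h2
        · exact absurd (h1.trans h2.symm) hne
        · exact ⟨v, hva, hvb, h1 ▸ hai, h2 ▸ haj⟩
        · exact ⟨v, hva, hvb, h2 ▸ haj, h1 ▸ hai⟩
        · exact absurd (h1.trans h2.symm) hne

lemma zmod3 : ∀ i j : ZMod 3, i ≠ j → (i + 1 = j ∧ j + 1 = -(i + j) ∧ -(i + j) + 1 = i) ∨
    (j + 1 = i ∧ i + 1 = -(i + j) ∧ -(i + j) + 1 = j) := by decide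

/-- one step -/
lemma prog [Fintype V] [DecidableEq V] (hmin : StmtMIN) {r : Rot V} {S : Finset V} {κ : V → ℕ}
    {N : ℕ} (h : St r S κ N) (T0 : Finset V) (hT0 : T0 ⊆ S) (hne : T0.Nonempty)
    (hd : Dense r T0) : Prog r S := by
  classical
  obtain ⟨T, hT, hmax⟩ := Finset.exists_max_image
    (S.powerset.filter (fun T => T.Nonempty ∧ Dense r T)) Finset.card
    ⟨T0, by rw [Finset.mem_filter, Finset.mem_powerset]; exact ⟨hT0, hne, hd⟩⟩
  rw [Finset.mem_filter, Finset.mem_powerset] at hT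
  obtain ⟨hTS, hTne, hTd⟩ := hT
  have hM : ∀ f ∈ S, (∃ i j, i ≠ j ∧ r.n i f ∈ T ∧ r.n j f ∈ T) → f ∈ T := by
    intro f hf hex
    by_contra hfT
    have := hmax (insert f T) (by
      rw [Finset.mem_filter, Finset.mem_powerset]
      refine ⟨Finset.insert_subset hf hTS, Finset.insert_nonempty _ _, ?_⟩
      intro v hv
      rw [Finset.mem_insert] at hv
      rcases hv with rfl | hv
      · obtain ⟨i, j, hij, h1, h2⟩ := hex
        exact ⟨i, j, hij, Finset.mem_insert_of_mem h1, Finset.mem_insert_of_mem h2⟩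
      · obtain ⟨i, j, hij, h1, h2⟩ := hTd v hv
        exact ⟨i, j, hij, Finset.mem_insert_of_mem h1, Finset.mem_insert_of_mem h2⟩)
    rw [Finset.card_insert_of_notMem hfT] at this
    omega
  obtain ⟨m, z, hm, zI, zT, zA, zN, zO⟩ := hmin V r T hTne hTd
  by_cases hP : ∀ v ∈ S, (∀ i, z i ≠ v) → ∀ i j, i ≠ j → r.Adj v (z i) → r.Adj v (z j) →
      m = 4 ∧ j = i + 2
  · exact cyc_case h hm zI (fun i => hTS (zT i)) zA zN hP
  · have hm3 : m = 3 := by
      rcases zO with h3 | h3
      · exact h3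
      · exfalso
        apply hP
        intro v hv hvz i j hij hi hj
        refine h3 v ?_ hvz i j hij hi hj
        apply hM v hv
        exact two_nb r hi hj (fun he => hij (zI he)) (zT i) (zT j)
    subst hm3
    push Not at hP
    obtain ⟨d, dS, dz, i, j, hij, di, dj, -⟩ := hP
    have hadj : ∀ x y : ZMod 3, x + 1 = y → r.Adj (z x) (z y) := fun x y hxy => hxy ▸ zA x
    rcases zmod3 i j hij with ⟨h1, h2, h3⟩ | ⟨h1, h2, h3⟩
    · exact tri_case h (hTS (zT i)) (hTS (zT j)) (hTS (zT (-(i + j)))) dS (hadj _ _ h1)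
        (adj_symm r (hadj _ _ h3)) (hadj _ _ h2) (adj_symm r di) (adj_symm r dj) (dz _)
    · exact tri_case h (hTS (zT i)) (hTS (zT j)) (hTS (zT (-(i + j)))) dS
        (adj_symm r (hadj _ _ h1)) (hadj _ _ h2) (adj_symm r (hadj _ _ h3)) (adj_symm r di)
        (adj_symm r dj) (dz _)

end ModDEC

open ModDEC in
theorem dec (h : StmtMIN) : StmtDEC := by
  classical
  intro V _ r
  have main : ∀ (k : ℕ) (S : Finset V) (κ : V → ℕ) (N : ℕ), S.card ≤ k → St r S κ N →
      ∃ κ' : V → ℕ, Struct r κ' ∧ Ordered r κ' := by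
    intro k
    induction k with
    | zero =>
      intro S κ N hS hSt
      apply finish hSt
      intro T hT hTne
      have : S = ∅ := Finset.card_eq_zero.mp (by omega)
      rw [this] at hT
      rw [Finset.subset_empty.mp hT] at hTne
      exact absurd hTne (by simp)
    | succ k ih =>
      intro S κ N hS hSt
      by_cases hex : ∃ T ⊆ S, T.Nonempty ∧ Dense r T
      · obtain ⟨T, hT, hTne, hTd⟩ := hex
        obtain ⟨S', κ', N', hlt, hSt'⟩ := prog h hSt T hT hTne hTd
        exact ih S' κ' N' (by omega) hSt'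
      · apply finish hSt
        intro T hT hTne hTd
        exact hex ⟨T, hT, hTne, hTd⟩
  refine main _ Finset.univ (fun _ => 0) 0 le_rfl ⟨fun _ _ => rfl, ?_, ?_, ?_, ?_⟩
  · intro v hv; exact absurd (Finset.mem_univ v) hv
  · intro v hv; exact absurd (Finset.mem_univ v) hv
  · intro v hv; exact absurd (Finset.mem_univ v) hv
  · intro v _ i j _ hi; exact absurd (Finset.mem_univ _) hi

end Pool.Agent.T6.H37.RO
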