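import Mathlib

/-!
Project RO (MP_8b4fe7_lc): tables of shapes. Each row: the signs and the integer points.
-/

namespace Pool.Agent.T6.H37.RO

/-- diamonds, external directions (1,0) at `q 2` and (0,1) at `q 3` -/
def diaTab : List (List Bool × List (ℤ × ℤ)) := [
  ([false, false, false, false], [(-4, -2), (-3, 1), (-2, 3), (-1, 4)]),
  ([false, false, false, true], [(-4, 2), (3, 1), (2, -3), (-1, -1)]),
  ([false, false, true, false], [(4, 2), (2, -3), (0, 0), (4, 3)]),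
  ([false, false, true, true], [(4, 2), (0, 4), (0, -4), (-1, -2)]),
  ([false, true, false, false], [(3, 2), (-2, -4), (-4, 3), (1, -1)]),
  ([false, true, false, true], [(-2, 3), (-2, -2), (-4, -4), (-1, -1)]),
  ([false, true, true, false], [(4, 3), (-3, 4), (-1, -4), (2, 2)]),
  ([false, true, true, true], [(-2, -2), (2, -3), (-2, 2), (1, -2)]),
  ([true, false, false, false], [(1, -2), (-4, 3), (4, 0), (1, 0)]),
  ([true, false, false, true], [(-4, -3), (4, 2), (-4, -1), (1, 0)]),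
  ([true, false, true, false], [(0, 1), (4, -4), (3, -1), (-4, -2)]),
  ([true, false, true, true], [(-4, -1), (2, 0), (-2, 2), (-2, -3)]),
  ([true, true, false, false], [(-4, 0), (-4, 1), (2, -4), (4, 2)]),
  ([true, true, false, true], [(2, -4), (-1, 4), (-2, 2), (-2, -1)]),
  ([true, true, true, false], [(1, 2), (-4, 3), (-4, -2), (-1, -3)]),
  ([true, true, true, true], [(-3, 1), (0, -4), (2, -3), (-1, 1)])]

/-- diamonds, external directions (1,0) at `q 2` and (1,0) at `q 3` -/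
def diaTabEq : List (List Bool × List (ℤ × ℤ)) := [
  ([false, false, false, false], [(4, -3), (-1, -4), (1, 3), (3, 4)]),
  ([false, false, false, true], [(3, 4), (4, 0), (0, -2), (0, 3)]),
  ([false, false, true, false], [(3, -2), (1, 1), (2, -3), (1, 0)]),
  ([false, false, true, true], [(-2, 0), (-2, -4), (4, -2), (2, -3)]),
  ([false, true, false, false], [(-1, -2), (-2, 4), (-1, 2), (-3, 2)]),
  ([false, true, false, true], [(0, 1), (-4, 0), (-2, 4), (2, 0)]),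
  ([false, true, true, false], [(-1, -1), (0, 3), (-2, 4), (-1, 2)]),
  ([false, true, true, true], [(3, 1), (-4, -1), (4, -4), (3, -3)]),
  ([true, false, false, false], [(3, -4), (-1, -1), (-3, -2), (3, 3)]),
  ([true, false, false, true], [(0, 4), (2, -3), (-3, -4), (1, 0)]),
  ([true, false, true, false], [(-2, 3), (-3, 0), (0, 1), (-4, 4)]),
  ([true, false, true, true], [(0, 2), (0, -3), (1, 0), (-3, -1)]),
  ([true, true, false, false], [(3, 2), (-3, -2), (-1, 3), (-3, 3)]),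
  ([true, true, false, true], [(4, -3), (1, 4), (-2, -1), (-1, -4)]),
  ([true, true, true, false], [(4, 3), (2, -1), (2, 2), (-3, -2)]),
  ([true, true, true, true], [(1, 4), (-3, -2), (0, -4), (3, 0)])]

/-- diamond with common neighbour, external direction (1,0) at `q 4` -/
def difTab : List (List Bool × List (ℤ × ℤ)) := [
  ([false, false, false, false, false], [(5, -3), (5, -4), (-3, -4), (-4, -3), (-2, 3)]),
  ([false, false, false, false, true], [(-1, 0), (-4, 4), (-2, 3), (4, -2), (1, -1)]),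
  ([false, false, false, true, false], [(3, -5), (-3, -3), (-4, -1), (4, 2), (2, -3)]),
  ([false, false, false, true, true], [(0, 2), (-1, 1), (3, 3), (1, -4), (-5, 0)]),
  ([false, false, true, false, false], [(-3, -1), (-4, 3), (-3, -5), (-4, 0), (-2, 4)]),
  ([false, false, true, false, true], [(-2, -4), (-3, 3), (0, 1), (2, -5), (-4, -4)]),
  ([false, false, true, true, false], [(-5, -2), (-3, -2), (-1, 2), (4, 1), (4, -5)]),
  ([false, false, true, true, true], [(-4, -4), (4, -4), (-4, -3), (4, 2), (-1, 3)]),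
  ([false, true, false, false, false], [(-4, 0), (1, 2), (4, -3), (2, 3), (-4, -2)]),
  ([false, true, false, false, true], [(2, 5), (2, 1), (0, 2), (-5, -3), (-3, -3)]),
  ([false, true, false, true, false], [(1, 3), (3, -2), (-1, 0), (4, -2), (1, -5)]),
  ([false, true, false, true, true], [(4, 5), (0, 0), (-3, -1), (2, -5), (0, -3)]),
  ([false, true, true, false, false], [(2, 3), (1, -1), (-5, 1), (5, 4), (-1, 0)]),
  ([false, true, true, false, true], [(1, 1), (-3, -1), (5, 5), (-1, -1), (0, 1)]),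
  ([false, true, true, true, false], [(-3, 3), (1, -2), (-2, -1), (-4, -4), (-1, 1)]),
  ([false, true, true, true, true], [(-3, 2), (4, -4), (-4, -3), (5, -4), (4, 4)]),
  ([true, false, false, false, false], [(-2, 3), (5, 1), (-2, 4), (3, 1), (5, -4)]),
  ([true, false, false, false, true], [(0, 0), (-5, -2), (1, -4), (5, 4), (-2, 5)]),
  ([true, false, false, true, false], [(5, -5), (-1, 4), (-5, 3), (-1, 5), (1, 0)]),
  ([true, false, false, true, true], [(-4, -4), (3, 2), (-3, 4), (1, 0), (-2, 1)]),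
  ([true, false, true, false, false], [(0, 2), (0, 3), (-4, -2), (2, 3), (4, -3)]),
  ([true, false, true, false, true], [(5, -4), (-4, -3), (-5, 5), (1, -3), (0, -1)]),
  ([true, false, true, true, false], [(-4, 5), (0, 1), (0, 3), (5, 2), (1, -5)]),
  ([true, false, true, true, true], [(4, 0), (0, 5), (3, 4), (2, 3), (3, -1)]),
  ([true, true, false, false, false], [(3, 5), (-5, -5), (4, -5), (5, 5), (-3, -2)]),
  ([true, true, false, false, true], [(-1, -3), (2, 2), (-2, 3), (-4, 1), (5, -5)]),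
  ([true, true, false, true, false], [(1, 3), (-4, -3), (4, -5), (2, 4), (-2, 2)]),
  ([true, true, false, true, true], [(4, -4), (2, -5), (0, 2), (-1, -2), (1, -3)]),
  ([true, true, true, false, false], [(3, -3), (0, 1), (3, -2), (-1, 3), (-3, 0)]),
  ([true, true, true, false, true], [(1, -3), (-2, 1), (5, 3), (-1, 4), (-5, -4)]),
  ([true, true, true, true, false], [(2, -4), (4, -4), (4, 1), (-3, -1), (2, 4)]),
  ([true, true, true, true, true], [(-3, 0), (0, 4), (-1, 0), (0, 3), (-2, 5)])]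

/-- complete graphs on four vertices -/
def kfTab : List (List Bool × List (ℤ × ℤ)) := [
  ([false, false, false, false], [(-2, 0), (-1, 2), (3, 0), (-1, -2)]),
  ([false, false, true, true], [(3, -2), (3, 2), (1, -3), (-3, -1)]),
  ([false, true, false, true], [(-3, 2), (3, 2), (1, 0), (1, -1)]),
  ([false, true, true, false], [(3, -2), (-2, -3), (1, 3), (1, -3)]),
  ([true, false, false, true], [(1, 0), (-2, -3), (1, -2), (-2, -1)]),
  ([true, false, true, false], [(-2, -1), (-3, -1), (0, -2), (1, 1)]),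
  ([true, true, false, false], [(-1, -3), (-1, -2), (2, -1), (2, 0)]),
  ([true, true, true, true], [(2, 0), (3, 2), (-2, 3), (-1, -3)])]

/-- two 4-cycles: `((g 0, g 1, g 2, g 3), t 0, t' 0)` and the points `q 0, ..., q 3, q' 0, ..., q' 3`;
the signs are `t i = (t 0 xor (i odd))`, the same for `t'` -/
def paiTab0 : List ((List ℕ × Bool × Bool) × List (ℤ × ℤ)) := [
  (([0, 1, 2, 3], false, false), [(2, 2), (-1, -1), (1, -3), (0, -1), (0, -2), (0, -1), (2, 1), (-1, 0)]),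
  (([0, 1, 2, 3], false, true), [(-2, -1), (-1, 0), (-2, -3), (1, -1), (3, 0), (-1, -2), (-2, -2), (-3, -2)]),
  (([0, 1, 2, 3], true, false), [(3, 2), (3, 1), (0, 3), (0, -1), (-1, 1), (2, 2), (3, -1), (3, 1)]),
  (([0, 1, 2, 3], true, true), [(-1, -1), (0, -3), (2, 2), (-3, 2), (2, 1), (-3, -2), (-1, -1), (0, -3)]),
  (([0, 1, 3, 2], false, false), [(0, 3), (0, -2), (-2, -2), (1, 0), (-3, -1), (2, -3), (-2, 1), (2, 0)]),
  (([0, 1, 3, 2], false, true), [(2, -1), (1, 2), (-3, 0), (-2, 2), (1, -3), (0, -3), (0, 3), (1, 3)]),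
  (([0, 1, 3, 2], true, false), [(-3, 3), (-2, 3), (-1, 1), (3, 2), (3, -1), (-1, 0), (0, 0), (-1, 3)]),
  (([0, 1, 3, 2], true, true), [(-2, 2), (1, 0), (0, -3), (-2, 1), (3, 0), (-3, -2), (-1, 3), (-2, -1)]),
  (([0, 2, 1, 3], false, false), [(-1, 0), (1, -2), (3, 3), (1, 0), (0, 2), (-1, -2), (0, 3), (3, -1)]),
  (([0, 2, 1, 3], false, true), [(-3, -1), (2, 1), (0, 3), (-1, 1), (-1, -3), (1, 3), (0, 1), (2, 0)]),
  (([0, 2, 1, 3], true, false), [(-2, 2), (3, -2), (0, -2), (-1, 1), (-2, 1), (-3, -2), (-3, 1), (1, 3)]),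
  (([0, 2, 1, 3], true, true), [(-2, 0), (2, -1), (3, 2), (-3, 3), (1, 1), (0, 1), (2, -2), (3, 3)]),
  (([0, 2, 3, 1], false, false), [(0, 0), (2, 3), (2, -1), (0, -1), (1, -1), (-2, 0), (0, 1), (0, 3)]),
  (([0, 2, 3, 1], false, true), [(3, 3), (-3, 2), (-1, -3), (0, 2), (2, -3), (-2, -1), (-2, 1), (2, 0)]),
  (([0, 2, 3, 1], true, false), [(1, 2), (1, 3), (0, 1), (0, 2), (-2, 3), (3, -3), (3, 3), (2, 0)]),
  (([0, 2, 3, 1], true, true), [(3, 1), (1, 3), (1, 2), (-2, -2), (-2, 0), (2, -3), (-3, -3), (1, 1)]),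
  (([0, 3, 1, 2], false, false), [(-3, -2), (3, -1), (0, 2), (-3, -1), (-2, -2), (3, 3), (2, 3), (0, 1)]),
  (([0, 3, 1, 2], false, true), [(-3, 1), (-3, -2), (2, -3), (0, 0), (0, 1), (0, 2), (-3, -1), (1, -1)]),
  (([0, 3, 1, 2], true, false), [(3, 3), (0, -1), (1, 0), (1, 1), (0, 3), (-1, -1), (3, -3), (0, 1)]),
  (([0, 3, 1, 2], true, true), [(1, 0), (0, 1), (-1, -3), (-1, -2), (-3, 3), (1, -1), (1, -3), (-1, 2)]),
  (([0, 3, 2, 1], false, false), [(-1, -3), (-2, 3), (-3, -1), (3, 1), (2, 2), (0, -3), (-1, -2), (-3, -3)]),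
  (([0, 3, 2, 1], false, true), [(3, 2), (-1, 2), (-2, 3), (1, -3), (-3, 3), (2, 0), (3, 0), (0, -2)]),
  (([0, 3, 2, 1], true, false), [(3, 1), (2, -2), (-2, -1), (1, -1), (0, -1), (-3, -2), (-3, 3), (2, -1)]),
  (([0, 3, 2, 1], true, true), [(0, 0), (1, -2), (2, 1), (-1, -3), (-3, 2), (3, 3), (0, -2), (-1, 1)])]

def paiTab1 : List ((List ℕ × Bool × Bool) × List (ℤ × ℤ)) := [
  (([1, 0, 2, 3], false, false), [(3, 0), (-3, 1), (-3, -3), (-1, 0), (2, 0), (-3, -1), (0, 0), (-1, 3)]),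
  (([1, 0, 2, 3], false, true), [(-3, 1), (-3, -3), (3, 2), (-2, 0), (1, 3), (0, 2), (-3, 0), (1, 1)]),
  (([1, 0, 2, 3], true, false), [(1, -1), (-1, -2), (-2, 2), (0, -1), (-1, 2), (-2, 3), (2, 2), (-3, -1)]),
  (([1, 0, 2, 3], true, true), [(-2, -1), (0, -1), (0, 1), (1, -3), (3, -1), (-2, -3), (-3, -1), (0, -2)]),
  (([1, 0, 3, 2], false, false), [(1, -3), (-3, -2), (-1, 1), (-1, 2), (-2, 2), (0, -1), (-3, 3), (1, 2)]),
  (([1, 0, 3, 2], false, true), [(1, -2), (-3, -3), (-2, -2), (-1, 3), (0, -3), (-1, -1), (-2, 0), (0, 0)]),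
  (([1, 0, 3, 2], true, false), [(3, 1), (0, 0), (-2, -3), (0, 3), (-3, -1), (-2, -2), (2, -2), (1, 0)]),
  (([1, 0, 3, 2], true, true), [(1, 0), (0, 3), (-1, -1), (-3, -3), (-2, -2), (-1, -1), (-3, 1), (2, 1)]),
  (([1, 2, 0, 3], false, false), [(-2, -1), (2, -3), (1, 1), (2, 1), (3, -3), (-1, 1), (1, 0), (3, -1)]),
  (([1, 2, 0, 3], false, true), [(-1, -1), (0, 1), (3, -3), (-3, -3), (-1, 2), (1, -1), (3, 0), (-1, 3)]),
  (([1, 2, 0, 3], true, false), [(-1, -2), (-1, 3), (-3, -3), (3, -2), (3, 2), (-1, -3), (1, 0), (-2, 0)]),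
  (([1, 2, 0, 3], true, true), [(2, -3), (0, 3), (-2, 2), (1, 1), (0, 2), (-3, 3), (3, 0), (0, 1)]),
  (([1, 2, 3, 0], false, false), [(-3, -2), (1, -3), (2, 3), (-1, -2), (-2, -3), (-3, 3), (0, 2), (2, -1)]),
  (([1, 2, 3, 0], false, true), [(-2, 3), (2, 2), (0, 1), (-1, -3), (2, 2), (0, 1), (-1, -3), (-2, 2)]),
  (([1, 2, 3, 0], true, false), [(3, -2), (3, 3), (2, -1), (-3, -3), (3, 1), (1, -2), (-2, -3), (3, -2)]),
  (([1, 2, 3, 0], true, true), [(-1, 3), (0, -3), (3, -3), (2, 1), (1, 2), (2, -3), (-1, -1), (-2, 3)]),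
  (([1, 3, 0, 2], false, false), [(0, 1), (-2, -1), (1, -1), (2, 2), (3, 2), (-1, 2), (-2, -3), (1, 1)]),
  (([1, 3, 0, 2], false, true), [(1, 2), (-2, 2), (3, -3), (-2, -2), (1, -2), (0, -3), (2, -3), (3, 1)]),
  (([1, 3, 0, 2], true, false), [(3, 2), (3, -2), (-1, 3), (2, 0), (-2, 1), (-2, 0), (-3, 1), (1, 3)]),
  (([1, 3, 0, 2], true, true), [(3, -2), (2, 3), (1, 1), (-3, 3), (-2, -2), (-1, 2), (3, 1), (0, 1)]),
  (([1, 3, 2, 0], false, false), [(1, -3), (3, -1), (-3, -3), (1, -2), (-1, 0), (-2, 0), (-1, -2), (-2, -3)]),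
  (([1, 3, 2, 0], false, true), [(-1, 3), (3, 1), (-1, 2), (-2, -1), (0, 3), (3, 0), (-2, 0), (1, 1)]),
  (([1, 3, 2, 0], true, false), [(1, 2), (-2, 0), (0, 3), (0, 2), (-3, 1), (2, -3), (2, 0), (-1, 1)]),
  (([1, 3, 2, 0], true, true), [(0, 0), (0, -3), (3, 3), (3, -1), (1, 2), (3, -3), (-2, -3), (2, -2)])]

def paiTab2 : List ((List ℕ × Bool × Bool) × List (ℤ × ℤ)) := [
  (([2, 0, 1, 3], false, false), [(3, 3), (-2, 3), (-2, -2), (-3, -1), (-1, -3), (-3, 3), (0, 0), (2, 3)]),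
  (([2, 0, 1, 3], false, true), [(3, -3), (0, -1), (-3, 2), (-2, -2), (1, -3), (0, 3), (0, 0), (-1, 0)]),
  (([2, 0, 1, 3], true, false), [(1, 2), (0, 0), (1, 1), (3, -1), (2, -1), (-3, 1), (2, 0), (-1, 2)]),
  (([2, 0, 1, 3], true, true), [(3, 2), (-3, 2), (-2, 1), (3, 0), (-3, 1), (-2, 3), (0, -2), (1, -1)]),
  (([2, 0, 3, 1], false, false), [(-1, -1), (-3, -3), (0, 1), (1, -3), (3, -3), (2, 1), (-3, -1), (0, 0)]),
  (([2, 0, 3, 1], false, true), [(2, -2), (1, 0), (-2, -2), (-3, 2), (0, -1), (0, 1), (-3, 1), (3, 3)]),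
  (([2, 0, 3, 1], true, false), [(2, -2), (-2, 3), (-1, 0), (-2, 0), (-2, -2), (-1, -3), (0, 0), (-1, 3)]),
  (([2, 0, 3, 1], true, true), [(3, -1), (-1, -1), (-1, -3), (-3, 1), (0, 2), (-1, 0), (-3, -2), (3, -3)]),
  (([2, 1, 0, 3], false, false), [(-1, 3), (2, -1), (-1, -2), (-3, -3), (3, 3), (2, 1), (0, 0), (-2, 3)]),
  (([2, 1, 0, 3], false, true), [(0, 1), (-2, -3), (0, 2), (1, 1), (-1, -1), (1, 1), (2, 2), (1, -3)]),
  (([2, 1, 0, 3], true, false), [(-2, 2), (-2, -2), (-1, 1), (3, 0), (-2, 2), (0, 1), (-1, 0), (-3, -3)]),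
  (([2, 1, 0, 3], true, true), [(2, -2), (0, 2), (-2, 1), (-2, 0), (1, -3), (3, -3), (-1, 3), (-2, -2)]),
  (([2, 1, 3, 0], false, false), [(3, -1), (-1, 3), (-3, 2), (0, 0), (-1, 2), (1, 0), (2, 3), (-1, -3)]),
  (([2, 1, 3, 0], false, true), [(0, 0), (-3, 2), (3, 1), (-1, -1), (0, 3), (-3, -3), (-1, -3), (2, 1)]),
  (([2, 1, 3, 0], true, false), [(-1, 0), (-3, 2), (-3, -2), (1, -2), (1, -1), (2, -1), (-3, -3), (0, 3)]),
  (([2, 1, 3, 0], true, true), [(-2, -3), (-2, 2), (-3, -1), (0, 2), (-2, -1), (3, 1), (0, 0), (-1, 3)]),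
  (([2, 3, 0, 1], false, false), [(-3, -2), (-1, -1), (2, -1), (0, 3), (-3, -3), (0, 0), (2, -1), (2, 3)]),
  (([2, 3, 0, 1], false, true), [(-1, -3), (1, 2), (-2, 3), (-2, 1), (-3, 1), (1, 2), (2, -1), (-3, -2)]),
  (([2, 3, 0, 1], true, false), [(1, -2), (-3, -3), (2, -3), (2, 1), (-3, 2), (0, -3), (2, 0), (0, -2)]),
  (([2, 3, 0, 1], true, true), [(1, 3), (3, -2), (1, 0), (1, 1), (-3, -3), (3, -3), (0, -1), (1, 1)]),
  (([2, 3, 1, 0], false, false), [(1, -2), (-3, 3), (-1, 2), (1, -1), (3, -1), (-3, -2), (0, 1), (2, 2)]),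
  (([2, 3, 1, 0], false, true), [(0, 2), (2, 1), (0, -3), (-1, 2), (-2, 3), (0, 0), (2, -2), (2, 0)]),
  (([2, 3, 1, 0], true, false), [(1, 1), (0, 3), (-1, -3), (-1, 0), (0, -1), (3, -3), (-3, 0), (3, 3)]),
  (([2, 3, 1, 0], true, true), [(-3, -1), (0, 0), (1, 3), (-1, 3), (-3, 1), (-1, 0), (-1, 2), (3, -3)])]

def paiTab3 : List ((List ℕ × Bool × Bool) × List (ℤ × ℤ)) := [
  (([3, 0, 1, 2], false, false), [(2, 2), (1, 2), (-2, -2), (-1, -3), (1, 0), (-3, -2), (0, 2), (3, -1)]),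
  (([3, 0, 1, 2], false, true), [(-1, 1), (-2, 1), (-2, 3), (3, -3), (1, -3), (0, -1), (-3, 0), (0, 3)]),
  (([3, 0, 1, 2], true, false), [(-1, -2), (1, -2), (1, 1), (3, -3), (-3, -3), (3, 2), (-3, 0), (-1, 0)]),
  (([3, 0, 1, 2], true, true), [(-3, 0), (0, 2), (-1, -2), (0, -2), (-2, -2), (2, -1), (3, 3), (-3, -2)]),
  (([3, 0, 2, 1], false, false), [(-1, 0), (-1, -1), (3, 0), (0, 0), (1, 3), (-1, -2), (1, 1), (-2, 2)]),
  (([3, 0, 2, 1], false, true), [(0, -3), (1, -1), (0, 2), (0, -2), (-2, 1), (1, -3), (-2, -3), (-1, -2)]),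
  (([3, 0, 2, 1], true, false), [(-3, -1), (-1, 2), (-2, -1), (3, 1), (-2, 0), (-3, 2), (2, 1), (2, -1)]),
  (([3, 0, 2, 1], true, true), [(3, -2), (3, 2), (0, -1), (2, -3), (3, 3), (-1, -3), (1, -1), (-3, 2)]),
  (([3, 1, 0, 2], false, false), [(3, -3), (-3, -1), (1, 0), (2, 1), (-3, -2), (0, 0), (-3, 1), (-1, 0)]),
  (([3, 1, 0, 2], false, true), [(0, 1), (1, 1), (-1, -1), (-2, -2), (-2, 1), (2, 3), (1, -1), (0, -1)]),
  (([3, 1, 0, 2], true, false), [(1, -3), (-1, -1), (-3, -1), (0, 0), (-1, 1), (2, 1), (-3, -2), (0, 3)]),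
  (([3, 1, 0, 2], true, true), [(-3, 1), (2, -3), (1, -2), (-2, -1), (-3, -2), (-1, -3), (-2, 0), (-3, 0)]),
  (([3, 1, 2, 0], false, false), [(1, 3), (-3, 0), (-1, -1), (0, 2), (-2, -3), (-2, 0), (0, 0), (0, -2)]),
  (([3, 1, 2, 0], false, true), [(-3, 3), (3, -3), (2, 0), (0, 1), (-2, -2), (-1, 2), (3, -1), (-1, 0)]),
  (([3, 1, 2, 0], true, false), [(3, 2), (0, 1), (-2, 2), (3, 0), (1, -2), (2, 3), (-2, 0), (-2, -1)]),
  (([3, 1, 2, 0], true, true), [(-3, 3), (1, -1), (3, -2), (-3, -1), (-1, 0), (-2, 1), (2, 2), (2, -1)]),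
  (([3, 2, 0, 1], false, false), [(2, 2), (0, 1), (-1, -1), (2, 1), (-1, 2), (1, 1), (2, -3), (-2, 3)]),
  (([3, 2, 0, 1], false, true), [(1, -1), (3, 1), (-2, 1), (-3, 2), (-2, 3), (0, 3), (-1, -1), (0, -2)]),
  (([3, 2, 0, 1], true, false), [(3, -3), (2, -3), (1, 3), (-2, 2), (-3, -2), (0, 3), (3, 1), (2, 3)]),
  (([3, 2, 0, 1], true, true), [(-3, 0), (-2, -2), (-1, 1), (-1, 3), (-3, -2), (3, -3), (-1, -2), (-2, 1)]),
  (([3, 2, 1, 0], false, false), [(-1, 0), (0, 0), (2, 1), (-3, 1), (0, 0), (-2, -2), (0, 3), (3, -2)]),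
  (([3, 2, 1, 0], false, true), [(-3, 3), (0, 3), (2, -1), (-3, -1), (-3, -3), (0, 1), (2, 0), (-1, -2)]),
  (([3, 2, 1, 0], true, false), [(3, 2), (1, 3), (1, -3), (-2, 1), (3, -1), (3, -2), (-3, -2), (-2, 3)]),
  (([3, 2, 1, 0], true, true), [(-3, -1), (3, 0), (-1, 0), (-3, 1), (2, 0), (-2, -2), (-2, 2), (1, 0)])]

end Pool.Agent.T6.H37.RO
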