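import Mathlib

/-!
Project RO (MP_8b4fe7_lc): straight-line realisability of rotation systems of cubic graphs.
Definitions and statements of the modules.
-/

set_option autoImplicit false

namespace Pool.Agent.T6.H37.RO

/-- the plane -/
abbrev Pt := ℝ × ℝ

/-- cross product -/
def cr (x y : Pt) : ℝ := x.1 * y.2 - x.2 * y.1

/-- the three vectors `x, y, z` are in counterclockwise order: at least two of the three cross
products of consecutive ones are positive -/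
def Ccw (x y z : Pt) : Prop :=
  (0 < cr x y ∧ 0 < cr y z) ∨ (0 < cr y z ∧ 0 < cr z x) ∨ (0 < cr z x ∧ 0 < cr x y)

/-- `x, y, z` in counterclockwise order (`b = true`) or `y, x, z` in counterclockwise order -/
def CcwB (b : Bool) (x y z : Pt) : Prop := (b = true → Ccw x y z) ∧ (b = false → Ccw y x z)

/-- positive (`b = true`) or negative -/
def SgnB (b : Bool) (t : ℝ) : Prop := (b = true → 0 < t) ∧ (b = false → t < 0)

/-- a cubic graph on `V` with a rotation system: `n 0 v, n 1 v, n 2 v` are the three neighbours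
of `v` in their prescribed counterclockwise cyclic order -/
structure Rot (V : Type) where
  n : Fin 3 → V → V
  inj : ∀ v i j, n i v = n j v → i = j
  irr : ∀ v i, n i v ≠ v
  symm : ∀ v i, ∃ j, n j (n i v) = v

variable {V : Type}

def Rot.Adj (r : Rot V) (u v : V) : Prop := ∃ i, r.n i u = v

/-- the prescribed cyclic order at `v` is `a, b, c` -/
def Rot.Cyc (r : Rot V) (v a b c : V) : Prop :=
  ∃ i : Fin 3, r.n i v = a ∧ r.n (i + 1) v = b ∧ r.n (i + 2) v = c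

/-- the prescribed cyclic order at `v` holds in the placement `p` -/
def Good (r : Rot V) (p : V → Pt) (v : V) : Prop :=
  Ccw (p (r.n 0 v) - p v) (p (r.n 1 v) - p v) (p (r.n 2 v) - p v)

/-- the class (for the labelling `κ`) of `z 0` is an induced cycle `z` of length `m` -/
def IsCyc (r : Rot V) (κ : V → ℕ) (m : ℕ) (z : ZMod m → V) : Prop :=
  3 ≤ m ∧ Function.Injective z ∧ (∀ i, r.Adj (z i) (z (i + 1))) ∧
  (∀ v, κ v = κ (z 0) ↔ ∃ i, z i = v) ∧
  (∀ i j, r.Adj (z i) (z j) → j = i + 1 ∨ i = j + 1)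

/-- the class of `w 0` is a diamond: middle edge `w 0, w 1`, ends `w 2, w 3` -/
def IsDia (r : Rot V) (κ : V → ℕ) (w : Fin 4 → V) : Prop :=
  Function.Injective w ∧ r.Adj (w 0) (w 1) ∧ r.Adj (w 0) (w 2) ∧ r.Adj (w 0) (w 3) ∧
  r.Adj (w 1) (w 2) ∧ r.Adj (w 1) (w 3) ∧ ¬ r.Adj (w 2) (w 3) ∧
  (∀ v, κ v = κ (w 0) ↔ ∃ i, w i = v)

/-- the class of `w 0` is a diamond together with a common neighbour `w 4` of its two ends -/
def IsDiaFive (r : Rot V) (κ : V → ℕ) (w : Fin 5 → V) : Prop :=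
  Function.Injective w ∧ r.Adj (w 0) (w 1) ∧ r.Adj (w 0) (w 2) ∧ r.Adj (w 0) (w 3) ∧
  r.Adj (w 1) (w 2) ∧ r.Adj (w 1) (w 3) ∧ r.Adj (w 2) (w 4) ∧ r.Adj (w 3) (w 4) ∧
  (∀ v, κ v = κ (w 0) ↔ ∃ i, w i = v)

/-- the class of `w 0` is a complete graph on four vertices -/
def IsKFour (r : Rot V) (κ : V → ℕ) (w : Fin 4 → V) : Prop :=
  Function.Injective w ∧ (∀ i j, i ≠ j → r.Adj (w i) (w j)) ∧
  (∀ v, κ v = κ (w 0) ↔ ∃ i, w i = v)

/-- structure of the classes of a labelling -/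
def Struct (r : Rot V) (κ : V → ℕ) : Prop := ∀ v,
  ((∀ u, κ u = κ v → u = v) ∧ (∀ i j, i ≠ j → κ (r.n i v) = κ (r.n j v) →
      ∃ z : ZMod 4 → V, IsCyc r κ 4 z ∧ r.n i v = z 0 ∧ r.n j v = z 2)) ∨
  (∃ (m : ℕ) (z : ZMod m → V), IsCyc r κ m z ∧ ∃ i, z i = v) ∨
  (∃ w : Fin 4 → V, IsDia r κ w ∧ ∃ i, w i = v) ∨
  (∃ w : Fin 5 → V, IsDiaFive r κ w ∧ ∃ i, w i = v) ∨
  (∃ w : Fin 4 → V, IsKFour r κ w ∧ ∃ i, w i = v)

/-- every vertex which is alone in its class has at most one neighbour with a larger label -/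
def Ordered (r : Rot V) (κ : V → ℕ) : Prop := ∀ v, (∀ u, κ u = κ v → u = v) →
  ∀ i j, κ v < κ (r.n i v) → κ v < κ (r.n j v) → i = j

/-- `v` and its three neighbours have four different labels -/
def Rainbow (r : Rot V) (κ : V → ℕ) (v : V) : Prop :=
  (∀ i, κ (r.n i v) ≠ κ v) ∧ (∀ i j, κ (r.n i v) = κ (r.n j v) → i = j)

/-- the vertices of a class are at the same point, and rainbow vertices are good -/
def PreState (r : Rot V) (κ : V → ℕ) (p : V → Pt) : Prop :=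
  (∀ u v, κ u = κ v → p u = p v) ∧ (∀ v, Rainbow r κ v → Good r p v)

/-- no three points of different classes are collinear, different classes are at different points -/
def GenPos (κ : V → ℕ) (p : V → Pt) : Prop :=
  (∀ u v, κ u ≠ κ v → p u ≠ p v) ∧
  (∀ u v w, κ u ≠ κ v → κ v ≠ κ w → κ u ≠ κ w → cr (p v - p u) (p w - p u) ≠ 0)

def State (r : Rot V) (κ : V → ℕ) (p : V → Pt) : Prop := PreState r κ p ∧ GenPos κ p

/-- `κ'` is the labelling `κ` with the set `K` split into single vertices -/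
def Splits (κ κ' : V → ℕ) (K : Set V) : Prop :=
  ∀ u v, κ' u = κ' v ↔ (u = v ∨ (u ∉ K ∧ v ∉ K ∧ κ u = κ v))

/-- infinitesimal direction from `v` to `u` when the vertices `x` of `K` are moved by `ε q x` -/
def DirIs (K : Set V) (p q : V → Pt) (v u : V) (d : Pt) : Prop :=
  (u ∈ K → d = q u - q v) ∧ (u ∉ K → d = p u - p v)

/-- `v` becomes good when the vertices `x` of `K` are moved by `ε q x`, `ε > 0` small -/
def LimGood (r : Rot V) (K : Set V) (p q : V → Pt) (v : V) : Prop :=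
  (v ∈ K ∧ ∃ d : Fin 3 → Pt, (∀ i, DirIs K p q v (r.n i v) (d i)) ∧ Ccw (d 0) (d 1) (d 2)) ∨
  (v ∉ K ∧ ∃ a b c, r.Cyc v a b c ∧ a ∈ K ∧ b ∈ K ∧ c ∉ K ∧
    0 < cr (p a - p v) (q b - q a) ∧ cr (p a - p v) (p c - p v) ≠ 0)

/-- sign of the rotation at `v` relative to the order `a, b, c` of its neighbours -/
def SignIs (r : Rot V) (v a b c : V) (s : Bool) : Prop :=
  (s = true → r.Cyc v a b c) ∧ (s = false → r.Cyc v b a c)

/-- every complete graph on four vertices in `r` has an even number of positive signs -/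
def EvenKFour (r : Rot V) : Prop := ∀ (w : Fin 4 → V) (s : Fin 4 → Bool),
  Function.Injective w → (∀ i j, i ≠ j → r.Adj (w i) (w j)) →
  SignIs r (w 0) (w 1) (w 2) (w 3) (s 0) → SignIs r (w 1) (w 0) (w 2) (w 3) (s 1) →
  SignIs r (w 2) (w 0) (w 1) (w 3) (s 2) → SignIs r (w 3) (w 0) (w 1) (w 2) (s 3) →
  xor (xor (s 0) (s 1)) (xor (s 2) (s 3)) = false

/-! ### Statements of the modules -/

/-- MAC: points such that the orientation of `i < j < k` is given by `e k` -/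
def StmtMAC : Prop := ∀ e : ℕ → Bool, ∃ P : ℕ → Pt,
  ∀ i j k : ℕ, i < j → j < k → SgnB (e k) (cr (P j - P i) (P k - P i))

/-- INI: the initial placement (uses MAC) -/
def StmtINI : Prop := ∀ (V : Type) [Fintype V] (r : Rot V) (κ : V → ℕ),
  Struct r κ → Ordered r κ → ∃ p : V → Pt, State r κ p

/-- PER: perturbation into general position -/
def StmtPER : Prop := ∀ (V : Type) [Fintype V] (r : Rot V) (κ : V → ℕ) (p : V → Pt),
  PreState r κ p → ∃ p' : V → Pt, State r κ p'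

/-- BLO: blowing up one class -/
def StmtBLO : Prop := ∀ (V : Type) [Fintype V] (r : Rot V) (κ κ' : V → ℕ) (p q : V → Pt)
  (K : Set V), PreState r κ p → (∀ u v, u ∈ K → (v ∈ K ↔ κ u = κ v)) → Splits κ κ' K →
  (∀ v, Rainbow r κ' v → ¬ Rainbow r κ v → LimGood r K p q v) →
  ∃ p' : V → Pt, PreState r κ' p'

/-- CYC: the shape of a cycle -/
def StmtCYC : Prop := ∀ (m : ℕ), 3 ≤ m → ∀ (t : ZMod m → Bool) (α : ZMod m → Pt),
  (∀ i, α i ≠ 0) → (∀ i j, α i = α j ∨ cr (α i) (α j) ≠ 0) →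
  ¬ (m = 4 ∧ (∀ i, t (i + 1) = !(t i)) ∧ ∀ i j, α i = α j) →
  ∃ q : ZMod m → Pt, ∀ i, CcwB (t i) (q (i - 1) - q i) (q (i + 1) - q i) (α i)

/-- FOU: the shape of a 4-cycle with a common neighbour of two opposite vertices -/
def StmtFOU : Prop := ∀ (t : ZMod 4 → Bool) (α : ZMod 4 → Pt), (∀ i, α i ≠ 0) → α 0 = α 2 →
  cr (α 0) (α 1) ≠ 0 → cr (α 0) (α 3) ≠ 0 → ∀ o o' : Bool,
  ∃ q : ZMod 4 → Pt, (∀ i, CcwB (t i) (q (i - 1) - q i) (q (i + 1) - q i) (α i)) ∧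
    SgnB o (cr (q 2 - q 0) (α 0)) ∧ (α 1 = α 3 → SgnB o' (cr (q 3 - q 1) (α 1)))

/-- DIA: the shape of a diamond -/
def StmtDIA : Prop := ∀ (s : Fin 4 → Bool) (α β : Pt), α ≠ 0 → β ≠ 0 → (α = β ∨ cr α β ≠ 0) →
  ∃ q : Fin 4 → Pt, CcwB (s 0) (q 1 - q 0) (q 2 - q 0) (q 3 - q 0) ∧
    CcwB (s 1) (q 0 - q 1) (q 2 - q 1) (q 3 - q 1) ∧
    CcwB (s 2) (q 0 - q 2) (q 1 - q 2) α ∧ CcwB (s 3) (q 0 - q 3) (q 1 - q 3) β

/-- DIF: the shape of a diamond with a common neighbour of its ends -/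
def StmtDIF : Prop := ∀ (s : Fin 5 → Bool) (α : Pt), α ≠ 0 →
  ∃ q : Fin 5 → Pt, CcwB (s 0) (q 1 - q 0) (q 2 - q 0) (q 3 - q 0) ∧
    CcwB (s 1) (q 0 - q 1) (q 2 - q 1) (q 3 - q 1) ∧
    CcwB (s 2) (q 0 - q 2) (q 1 - q 2) (q 4 - q 2) ∧
    CcwB (s 3) (q 0 - q 3) (q 1 - q 3) (q 4 - q 3) ∧
    CcwB (s 4) (q 2 - q 4) (q 3 - q 4) α

/-- KFS: the shape of a complete graph on four vertices -/
def StmtKFS : Prop := ∀ s : Fin 4 → Bool, xor (xor (s 0) (s 1)) (xor (s 2) (s 3)) = false →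
  ∃ q : Fin 4 → Pt, CcwB (s 0) (q 1 - q 0) (q 2 - q 0) (q 3 - q 0) ∧
    CcwB (s 1) (q 0 - q 1) (q 2 - q 1) (q 3 - q 1) ∧
    CcwB (s 2) (q 0 - q 2) (q 1 - q 2) (q 3 - q 2) ∧
    CcwB (s 3) (q 0 - q 3) (q 1 - q 3) (q 2 - q 3)

/-- KFN: parity in every drawing of a complete graph on four vertices -/
def StmtKFN : Prop := ∀ (s : Fin 4 → Bool) (q : Fin 4 → Pt),
  cr (q 1 - q 0) (q 2 - q 0) ≠ 0 → cr (q 1 - q 0) (q 3 - q 0) ≠ 0 →
  cr (q 2 - q 0) (q 3 - q 0) ≠ 0 → cr (q 2 - q 1) (q 3 - q 1) ≠ 0 →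
  CcwB (s 0) (q 1 - q 0) (q 2 - q 0) (q 3 - q 0) →
  CcwB (s 1) (q 0 - q 1) (q 2 - q 1) (q 3 - q 1) →
  CcwB (s 2) (q 0 - q 2) (q 1 - q 2) (q 3 - q 2) →
  CcwB (s 3) (q 0 - q 3) (q 1 - q 3) (q 2 - q 3) →
  xor (xor (s 0) (s 1)) (xor (s 2) (s 3)) = false

/-- PAI: the shape of two alternating 4-cycles joined by four edges -/
def StmtPAI : Prop := ∀ (g : Equiv.Perm (ZMod 4)) (t t' : ZMod 4 → Bool),
  (∀ i, t (i + 1) = !(t i)) → (∀ i, t' (i + 1) = !(t' i)) →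
  ∃ q q' : ZMod 4 → Pt,
    (∀ i, CcwB (t i) (q (i - 1) - q i) (q (i + 1) - q i) (q' (g i) - q i)) ∧
    (∀ i, CcwB (t' (g i)) (q' (g i - 1) - q' (g i)) (q' (g i + 1) - q' (g i)) (q i - q' (g i)))

/-- MIN: if every vertex of `S` has at least two neighbours in `S`, there is a shortest cycle in
`S`; it is induced, and a vertex of `S` outside with two neighbours on it exists only for
triangles and for opposite vertices of 4-cycles -/
def StmtMIN : Prop := ∀ (V : Type) [Fintype V] [DecidableEq V] (r : Rot V) (S : Finset V),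
  S.Nonempty → (∀ v ∈ S, ∃ i j, i ≠ j ∧ r.n i v ∈ S ∧ r.n j v ∈ S) →
  ∃ (m : ℕ) (z : ZMod m → V), 3 ≤ m ∧ Function.Injective z ∧ (∀ i, z i ∈ S) ∧
    (∀ i, r.Adj (z i) (z (i + 1))) ∧ (∀ i j, r.Adj (z i) (z j) → j = i + 1 ∨ i = j + 1) ∧
    (m = 3 ∨ ∀ v ∈ S, (∀ i, z i ≠ v) → ∀ i j, i ≠ j → r.Adj v (z i) → r.Adj v (z j) →
      m = 4 ∧ j = i + 2)

/-- DEC: the decomposition -/
def StmtDEC : Prop := ∀ (V : Type) [Fintype V] (r : Rot V),
  ∃ κ : V → ℕ, Struct r κ ∧ Ordered r κ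

/-- SPL: splitting a class keeps the structure -/
def StmtSPL : Prop := ∀ (V : Type) [Fintype V] (r : Rot V) (κ κ' : V → ℕ) (K : Set V),
  Struct r κ → (∀ u v, u ∈ K → κ u = κ v → v ∈ K) → Splits κ κ' K → Struct r κ'

/-- CORE: the main theorem for `Rot` -/
def StmtCORE : Prop := ∀ (V : Type) [Fintype V] (r : Rot V), EvenKFour r →
  ∃ p : V → Pt, (∀ v, Good r p v) ∧ Function.Injective p ∧
    (∀ u v w, u ≠ v → v ≠ w → u ≠ w → cr (p v - p u) (p w - p u) ≠ 0)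

end Pool.Agent.T6.H37.RO
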