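import Mathlib
import Pool.Agent.T6.H37.RO.Defs
import Pool.Agent.T6.H37.RO.Data

/-! Integer version of the shapes, and linear maps (tools for the modules DIA, DIF, PAI). -/

set_option autoImplicit false

namespace Pool.Agent.T6.H37.RO.Tab8

/-- cross product of integer vectors -/
def cZ (x y : ℤ × ℤ) : ℤ := x.1 * y.2 - x.2 * y.1

/-- counterclockwise order of integer vectors -/
def ccwZ (x y z : ℤ × ℤ) : Bool :=
  (decide (0 < cZ x y) && decide (0 < cZ y z)) || (decide (0 < cZ y z) && decide (0 < cZ z x)) ||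
    (decide (0 < cZ z x) && decide (0 < cZ x y))

def ccwBZ (b : Bool) (x y z : ℤ × ℤ) : Bool := cond b (ccwZ x y z) (ccwZ y x z)

/-- the linear map with the values `A`, `B` at the unit vectors -/
noncomputable def L (A B : Pt) (x : ℤ × ℤ) : Pt :=
  ((x.1 : ℝ) * A.1 + (x.2 : ℝ) * B.1, (x.1 : ℝ) * A.2 + (x.2 : ℝ) * B.2)

theorem L_sub (A B : Pt) (x y : ℤ × ℤ) : L A B x - L A B y = L A B (x - y) := by
  unfold L
  ext <;> simp <;> ring

theorem L_e1 (A B : Pt) : L A B (1, 0) = A := by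
  unfold L; ext <;> simp

theorem L_e2 (A B : Pt) : L A B (0, 1) = B := by
  unfold L; ext <;> simp

theorem cr_L (A B : Pt) (x y : ℤ × ℤ) : cr (L A B x) (L A B y) = cr A B * (cZ x y : ℝ) := by
  unfold L cr cZ
  push_cast
  ring

theorem ccwZ_spec (x y z : ℤ × ℤ) (h : ccwZ x y z = true) :
    (0 < (cZ x y : ℝ) ∧ 0 < (cZ y z : ℝ)) ∨ (0 < (cZ y z : ℝ) ∧ 0 < (cZ z x : ℝ)) ∨
      (0 < (cZ z x : ℝ) ∧ 0 < (cZ x y : ℝ)) := by
  unfold ccwZ at h
  simp only [Bool.or_eq_true, Bool.and_eq_true, decide_eq_true_eq] at h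
  rcases h with (⟨h1, h2⟩ | ⟨h1, h2⟩) | ⟨h1, h2⟩
  · left; exact ⟨by exact_mod_cast h1, by exact_mod_cast h2⟩
  · right; left; exact ⟨by exact_mod_cast h1, by exact_mod_cast h2⟩
  · right; right; exact ⟨by exact_mod_cast h1, by exact_mod_cast h2⟩

theorem cZ_neg (x y : ℤ × ℤ) : (cZ y x : ℝ) = -(cZ x y : ℝ) := by
  unfold cZ; push_cast; ring

/-- positive determinant -/
theorem ccw_pos {A B : Pt} (hD : 0 < cr A B) {x y z : ℤ × ℤ} (h : ccwZ x y z = true) :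
    Ccw (L A B x) (L A B y) (L A B z) := by
  unfold Ccw
  simp only [cr_L]
  rcases ccwZ_spec x y z h with ⟨h1, h2⟩ | ⟨h1, h2⟩ | ⟨h1, h2⟩
  · left; exact ⟨mul_pos hD h1, mul_pos hD h2⟩
  · right; left; exact ⟨mul_pos hD h1, mul_pos hD h2⟩
  · right; right; exact ⟨mul_pos hD h1, mul_pos hD h2⟩

/-- negative determinant -/
theorem ccw_neg {A B : Pt} (hD : cr A B < 0) {x y z : ℤ × ℤ} (h : ccwZ x y z = true) :
    Ccw (L A B y) (L A B x) (L A B z) := by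
  unfold Ccw
  simp only [cr_L, cZ_neg x y, cZ_neg z x, cZ_neg y z]
  rcases ccwZ_spec x y z h with ⟨h1, h2⟩ | ⟨h1, h2⟩ | ⟨h1, h2⟩
  · right; right; exact ⟨by nlinarith, by nlinarith⟩
  · right; left; exact ⟨by nlinarith, by nlinarith⟩
  · left; exact ⟨by nlinarith, by nlinarith⟩

theorem ccwB_pos {A B : Pt} (hD : 0 < cr A B) {b : Bool} {x y z : ℤ × ℤ}
    (h : ccwBZ b x y z = true) : CcwB b (L A B x) (L A B y) (L A B z) := by
  cases b
  · exact ⟨by simp, fun _ => ccw_pos hD h⟩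
  · exact ⟨fun _ => ccw_pos hD h, by simp⟩

theorem ccwB_neg {A B : Pt} (hD : cr A B < 0) {b : Bool} {x y z : ℤ × ℤ}
    (h : ccwBZ (!b) x y z = true) : CcwB b (L A B x) (L A B y) (L A B z) := by
  cases b
  · exact ⟨by simp, fun _ => ccw_neg hD h⟩
  · exact ⟨fun _ => ccw_neg hD h, by simp⟩

/-- the check for a diamond with the external directions `a` at `q 2` and `b` at `q 3` -/
def chkDia (a b : ℤ × ℤ) (s0 s1 s2 s3 : Bool) : List (ℤ × ℤ) → Bool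
  | [q0, q1, q2, q3] =>
    ccwBZ s0 (q1 - q0) (q2 - q0) (q3 - q0) && ccwBZ s1 (q0 - q1) (q2 - q1) (q3 - q1) &&
    ccwBZ s2 (q0 - q2) (q1 - q2) a && ccwBZ s3 (q0 - q3) (q1 - q3) b
  | _ => false

theorem chkDia_spec {a b : ℤ × ℤ} {s0 s1 s2 s3 : Bool} {l : List (ℤ × ℤ)}
    (h : chkDia a b s0 s1 s2 s3 l = true) : ∃ q0 q1 q2 q3 : ℤ × ℤ,
      ccwBZ s0 (q1 - q0) (q2 - q0) (q3 - q0) = true ∧
      ccwBZ s1 (q0 - q1) (q2 - q1) (q3 - q1) = true ∧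
      ccwBZ s2 (q0 - q2) (q1 - q2) a = true ∧ ccwBZ s3 (q0 - q3) (q1 - q3) b = true := by
  match l, h with
  | [q0, q1, q2, q3], h =>
    simp only [chkDia, Bool.and_eq_true] at h
    exact ⟨q0, q1, q2, q3, h.1.1.1, h.1.1.2, h.1.2, h.2⟩

theorem tab_dia : ∀ s0 s1 s2 s3 : Bool,
    (diaTab.any fun r => chkDia (1, 0) (0, 1) s0 s1 s2 s3 r.2) = true := by
  decide

theorem tab_diaEq : ∀ s0 s1 s2 s3 : Bool,
    (diaTabEq.any fun r => chkDia (1, 0) (1, 0) s0 s1 s2 s3 r.2) = true := by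
  decide

theorem ex_dia (s0 s1 s2 s3 : Bool) : ∃ q0 q1 q2 q3 : ℤ × ℤ,
      ccwBZ s0 (q1 - q0) (q2 - q0) (q3 - q0) = true ∧
      ccwBZ s1 (q0 - q1) (q2 - q1) (q3 - q1) = true ∧
      ccwBZ s2 (q0 - q2) (q1 - q2) (1, 0) = true ∧
      ccwBZ s3 (q0 - q3) (q1 - q3) (0, 1) = true := by
  obtain ⟨r, _, hr⟩ := List.any_eq_true.1 (tab_dia s0 s1 s2 s3)
  exact chkDia_spec hr

theorem ex_diaEq (s0 s1 s2 s3 : Bool) : ∃ q0 q1 q2 q3 : ℤ × ℤ,
      ccwBZ s0 (q1 - q0) (q2 - q0) (q3 - q0) = true ∧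
      ccwBZ s1 (q0 - q1) (q2 - q1) (q3 - q1) = true ∧
      ccwBZ s2 (q0 - q2) (q1 - q2) (1, 0) = true ∧
      ccwBZ s3 (q0 - q3) (q1 - q3) (1, 0) = true := by
  obtain ⟨r, _, hr⟩ := List.any_eq_true.1 (tab_diaEq s0 s1 s2 s3)
  exact chkDia_spec hr

/-- the rotated vector -/
theorem rot_pos {α : Pt} (h : α ≠ 0) : 0 < cr α (-α.2, α.1) := by
  unfold cr
  have : α.1 ≠ 0 ∨ α.2 ≠ 0 := by
    by_contra hc
    push Not at hc
    exact h (Prod.ext hc.1 hc.2)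
  rcases this with h1 | h1
  · have := mul_self_pos.2 h1
    nlinarith [mul_self_nonneg α.2]
  · have := mul_self_pos.2 h1
    nlinarith [mul_self_nonneg α.1]

end Pool.Agent.T6.H37.RO.Tab8
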