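import Mathlib
import Pool.Agent.T6.H37.RO.Tab8

/-! Module DIA of project RO: the shape of a diamond. -/

set_option autoImplicit false

namespace Pool.Agent.T6.H37.RO

open Tab8

theorem dia : StmtDIA := by
  intro s α β hα hβ hor
  rcases hor with rfl | hc
  · obtain ⟨q0, q1, q2, q3, h0, h1, h2, h3⟩ := ex_diaEq (s 0) (s 1) (s 2) (s 3)
    have hD := rot_pos hα
    have k2 := ccwB_pos hD h2
    have k3 := ccwB_pos hD h3
    rw [L_e1] at k2 k3
    refine ⟨![L α (-α.2, α.1) q0, L α (-α.2, α.1) q1, L α (-α.2, α.1) q2, L α (-α.2, α.1) q3],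
      ?_, ?_, ?_, ?_⟩
    · simpa only [Matrix.cons_val, L_sub] using ccwB_pos hD h0
    · simpa only [Matrix.cons_val, L_sub] using ccwB_pos hD h1
    · simpa only [Matrix.cons_val, L_sub] using k2
    · simpa only [Matrix.cons_val, L_sub] using k3
  · rcases lt_or_gt_of_ne hc with hD | hD
    · obtain ⟨q0, q1, q2, q3, h0, h1, h2, h3⟩ := ex_dia (!(s 0)) (!(s 1)) (!(s 2)) (!(s 3))
      have k2 := ccwB_neg hD h2
      have k3 := ccwB_neg hD h3
      rw [L_e1] at k2
      rw [L_e2] at k3
      refine ⟨![L α β q0, L α β q1, L α β q2, L α β q3], ?_, ?_, ?_, ?_⟩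
      · simpa only [Matrix.cons_val, L_sub] using ccwB_neg hD h0
      · simpa only [Matrix.cons_val, L_sub] using ccwB_neg hD h1
      · simpa only [Matrix.cons_val, L_sub] using k2
      · simpa only [Matrix.cons_val, L_sub] using k3
    · obtain ⟨q0, q1, q2, q3, h0, h1, h2, h3⟩ := ex_dia (s 0) (s 1) (s 2) (s 3)
      have k2 := ccwB_pos hD h2
      have k3 := ccwB_pos hD h3
      rw [L_e1] at k2
      rw [L_e2] at k3
      refine ⟨![L α β q0, L α β q1, L α β q2, L α β q3], ?_, ?_, ?_, ?_⟩
      · simpa only [Matrix.cons_val, L_sub] using ccwB_pos hD h0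
      · simpa only [Matrix.cons_val, L_sub] using ccwB_pos hD h1
      · simpa only [Matrix.cons_val, L_sub] using k2
      · simpa only [Matrix.cons_val, L_sub] using k3

end Pool.Agent.T6.H37.RO
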