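import Mathlib
import Pool.Agent.T6.H37.RO.Tab8

/-! Module DIF of project RO: the shape of a diamond with a common neighbour of its ends. -/

set_option autoImplicit false

namespace Pool.Agent.T6.H37.RO

open Tab8

namespace ModDIF

def chk (s0 s1 s2 s3 s4 : Bool) : List (ℤ × ℤ) → Bool
  | [q0, q1, q2, q3, q4] =>
    ccwBZ s0 (q1 - q0) (q2 - q0) (q3 - q0) && ccwBZ s1 (q0 - q1) (q2 - q1) (q3 - q1) &&
    ccwBZ s2 (q0 - q2) (q1 - q2) (q4 - q2) && ccwBZ s3 (q0 - q3) (q1 - q3) (q4 - q3) &&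
    ccwBZ s4 (q2 - q4) (q3 - q4) (1, 0)
  | _ => false

theorem chk_spec {s0 s1 s2 s3 s4 : Bool} {l : List (ℤ × ℤ)}
    (h : chk s0 s1 s2 s3 s4 l = true) : ∃ q0 q1 q2 q3 q4 : ℤ × ℤ,
      ccwBZ s0 (q1 - q0) (q2 - q0) (q3 - q0) = true ∧
      ccwBZ s1 (q0 - q1) (q2 - q1) (q3 - q1) = true ∧
      ccwBZ s2 (q0 - q2) (q1 - q2) (q4 - q2) = true ∧
      ccwBZ s3 (q0 - q3) (q1 - q3) (q4 - q3) = true ∧
      ccwBZ s4 (q2 - q4) (q3 - q4) (1, 0) = true := by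
  match l, h with
  | [q0, q1, q2, q3, q4], h =>
    simp only [chk, Bool.and_eq_true] at h
    exact ⟨q0, q1, q2, q3, q4, h.1.1.1.1, h.1.1.1.2, h.1.1.2, h.1.2, h.2⟩

theorem tab : ∀ s0 s1 s2 s3 s4 : Bool,
    (difTab.any fun r => chk s0 s1 s2 s3 s4 r.2) = true := by
  decide

end ModDIF

theorem dif : StmtDIF := by
  intro s α hα
  obtain ⟨r, _, hr⟩ := List.any_eq_true.1 (ModDIF.tab (s 0) (s 1) (s 2) (s 3) (s 4))
  obtain ⟨q0, q1, q2, q3, q4, h0, h1, h2, h3, h4⟩ := ModDIF.chk_spec hr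
  have hD := rot_pos hα
  have k4 := ccwB_pos hD h4
  rw [L_e1] at k4
  refine ⟨![L α (-α.2, α.1) q0, L α (-α.2, α.1) q1, L α (-α.2, α.1) q2, L α (-α.2, α.1) q3,
    L α (-α.2, α.1) q4], ?_, ?_, ?_, ?_, ?_⟩
  · simpa only [Matrix.cons_val, L_sub] using ccwB_pos hD h0
  · simpa only [Matrix.cons_val, L_sub] using ccwB_pos hD h1
  · simpa only [Matrix.cons_val, L_sub] using ccwB_pos hD h2
  · simpa only [Matrix.cons_val, L_sub] using ccwB_pos hD h3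
  · simpa only [Matrix.cons_val, L_sub] using k4

end Pool.Agent.T6.H37.RO
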