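import Pool.Agent.T6.H37.RO.CYN

/-!
Module FOU of the project RO (MP_8b4fe7_lc): the shape of a 4-cycle with a common neighbour of
two opposite vertices.
-/

set_option autoImplicit false

namespace Pool.Agent.T6.H37.RO

open Filter Topology

namespace FOUx

/-- `1` or `-1` -/
def sg (b : Bool) : ℝ := if b then 1 else -1

theorem sg_sgn (b : Bool) : SgnB b (sg b) := by
  cases b
  · exact ⟨fun h => absurd h (by decide), fun _ => by norm_num [sg]⟩
  · exact ⟨fun _ => by norm_num [sg], fun h => absurd h (by decide)⟩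

theorem sg_ne (b : Bool) : sg b ≠ 0 := by
  cases b <;> norm_num [sg]

theorem SgnB_mul {b : Bool} {c x : ℝ} (hc : 0 < c) (h : SgnB b x) : SgnB b (c * x) :=
  ⟨fun hb => mul_pos hc (h.1 hb), fun hb => mul_neg_of_pos_of_neg hc (h.2 hb)⟩

theorem SgnB_neg {b : Bool} {c x : ℝ} (hc : c < 0) (h : SgnB b x) : SgnB (!b) (c * x) := by
  cases b
  · exact ⟨fun _ => mul_pos_of_neg_of_neg hc (h.2 rfl), fun hb => absurd hb (by decide)⟩
  · exact ⟨fun hb => absurd hb (by decide), fun _ => mul_neg_of_neg_of_pos hc (h.1 rfl)⟩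

theorem SgnB_ne {b : Bool} {t : ℝ} (h : SgnB b t) : t ≠ 0 := by
  cases b
  · exact ne_of_lt (h.2 rfl)
  · exact ne_of_gt (h.1 rfl)

/-- direction with prescribed signs -/
theorem beta (γ a c : Pt) (h1 : cr γ a ≠ 0) (h2 : cr γ c ≠ 0) (s1 s2 : Bool) :
    ∃ b : Pt, SgnB s1 (cr b γ) ∧ SgnB s2 (cr b a) ∧ cr b c ≠ 0 := by
  have key : ∀ v : ℝ, ∃ b : Pt, cr b γ = sg s1 ∧ cr b a = v ∧
      cr b c = (v * cr γ c - sg s1 * cr a c) / cr γ a := by
    intro v
    refine ⟨((v / cr γ a) • γ - (sg s1 / cr γ a) • a), ?_, ?_, ?_⟩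
    · have : cr ((v / cr γ a) • γ - (sg s1 / cr γ a) • a) γ = (sg s1 / cr γ a) * cr γ a := by
        generalize v / cr γ a = p
        generalize sg s1 / cr γ a = q
        simp only [cr, Prod.fst_sub, Prod.snd_sub, Prod.smul_fst, Prod.smul_snd, smul_eq_mul]
        ring
      rw [this, div_mul_cancel₀ _ h1]
    · have : cr ((v / cr γ a) • γ - (sg s1 / cr γ a) • a) a = (v / cr γ a) * cr γ a := by
        generalize v / cr γ a = p
        generalize sg s1 / cr γ a = q
        simp only [cr, Prod.fst_sub, Prod.snd_sub, Prod.smul_fst, Prod.smul_snd, smul_eq_mul]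
        ring
      rw [this, div_mul_cancel₀ _ h1]
    · have : cr ((v / cr γ a) • γ - (sg s1 / cr γ a) • a) c =
          (v / cr γ a) * cr γ c - (sg s1 / cr γ a) * cr a c := by
        generalize v / cr γ a = p
        generalize sg s1 / cr γ a = q
        simp only [cr, Prod.fst_sub, Prod.snd_sub, Prod.smul_fst, Prod.smul_snd, smul_eq_mul]
        ring
      rw [this]
      ring
  obtain ⟨b, e1, e2, e3⟩ := key (sg s2)
  obtain ⟨b', e1', e2', e3'⟩ := key (2 * sg s2)
  by_cases h : cr b c = 0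
  · refine ⟨b', by rw [e1']; exact sg_sgn _, by rw [e2']; exact SgnB_mul (by norm_num) (sg_sgn _),
      fun h' => ?_⟩
    rw [e3, div_eq_zero_iff] at h
    rw [e3', div_eq_zero_iff] at h'
    have h3 := h.resolve_right h1
    have h4 := h'.resolve_right h1
    have h5 : sg s2 * cr γ c = 0 := by linear_combination h4 - h3
    rcases mul_eq_zero.1 h5 with h6 | h6
    · exact sg_ne _ h6
    · exact h2 h6
  · exact ⟨b, by rw [e1]; exact sg_sgn _, by rw [e2]; exact sg_sgn _, h⟩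

/-- spike or flat -/
def Cond (t : Bool) (p n D c : ℝ) : Prop :=
  (0 < n * p ∧ SgnB t D) ∨ (n * p < 0 ∧ SgnB t (n * c))

theorem all4 {P : ZMod 4 → Prop} (h0 : P 0) (h1 : P 1) (h2 : P 2) (h3 : P 3) : ∀ i, P i := by
  have h : ∀ i : ZMod 4, i = 0 ∨ i = 1 ∨ i = 2 ∨ i = 3 := by decide
  intro i
  rcases h i with h | h | h | h
  · rw [h]; exact h0
  · rw [h]; exact h1
  · rw [h]; exact h2
  · rw [h]; exact h3

theorem core (t : ZMod 4 → Bool) (α : ZMod 4 → Pt) (x0 x1 x2 x3 D0 D1 D2 D3 : ℝ) (b : Pt)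
    (hD : D0 + D1 + D2 + D3 = 0) (hxD : x0 * D0 + x1 * D1 + x2 * D2 + x3 * D3 = 0)
    (hα0 : cr b (α 0) ≠ 0) (hα1 : cr b (α 1) ≠ 0) (hα2 : cr b (α 2) ≠ 0) (hα3 : cr b (α 3) ≠ 0)
    (h0 : Cond (t 0) (x3 - x0) (x1 - x0) D0 (cr b (α 0)))
    (h1 : Cond (t 1) (x0 - x1) (x2 - x1) D1 (cr b (α 1)))
    (h2 : Cond (t 2) (x1 - x2) (x3 - x2) D2 (cr b (α 2)))
    (h3 : Cond (t 3) (x2 - x3) (x0 - x3) D3 (cr b (α 3)))
    (o o' : Bool) (ho : SgnB o ((x2 - x0) * cr b (α 0)))
    (ho' : α 1 = α 3 → SgnB o' ((x3 - x1) * cr b (α 1))) :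
    ∃ q : ZMod 4 → Pt, (∀ i, CcwB (t i) (q (i - 1) - q i) (q (i + 1) - q i) (α i)) ∧
      SgnB o (cr (q 2 - q 0) (α 0)) ∧ (α 1 = α 3 → SgnB o' (cr (q 3 - q 1) (α 1))) := by
  obtain ⟨x, hx0, hx1, hx2, hx3⟩ : ∃ x : ZMod 4 → ℝ, x 0 = x0 ∧ x 1 = x1 ∧ x 2 = x2 ∧ x 3 = x3 :=
    ⟨(![x0, x1, x2, x3] : Fin 4 → ℝ), rfl, rfl, rfl, rfl⟩
  obtain ⟨D, hD0, hD1, hD2, hD3⟩ : ∃ D : ZMod 4 → ℝ, D 0 = D0 ∧ D 1 = D1 ∧ D 2 = D2 ∧ D 3 = D3 :=
    ⟨(![D0, D1, D2, D3] : Fin 4 → ℝ), rfl, rfl, rfl, rfl⟩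
  have hb : b ≠ 0 := by
    intro hb
    apply hα0
    rw [hb]
    simp [cr]
  have s4 : ∀ f : ZMod 4 → ℝ, ∑ i, f i = f 0 + f 1 + f 2 + f 3 := fun f => Fin.sum_univ_four f
  have m0 : (0 : ZMod 4) - 1 = 3 := by decide
  have m1 : (1 : ZMod 4) - 1 = 0 := by decide
  have m2 : (2 : ZMod 4) - 1 = 1 := by decide
  have m3 : (3 : ZMod 4) - 1 = 2 := by decide
  have p0 : (0 : ZMod 4) + 1 = 1 := by decide
  have p1 : (1 : ZMod 4) + 1 = 2 := by decide
  have p2 : (2 : ZMod 4) + 1 = 3 := by decide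
  have p3 : (3 : ZMod 4) + 1 = 0 := by decide
  obtain ⟨y, hy⟩ := thin x D t α b hb (by rw [s4, hD0, hD1, hD2, hD3, hD])
    (by rw [s4, hD0, hD1, hD2, hD3, hx0, hx1, hx2, hx3, hxD])
    (all4 hα0 hα1 hα2 hα3)
    (all4
      (by rw [m0, p0, hx0, hx1, hx3, hD0]; exact h0)
      (by rw [m1, p1, hx0, hx1, hx2, hD1]; exact h1)
      (by rw [m2, p2, hx1, hx2, hx3, hD2]; exact h2)
      (by rw [m3, p3, hx0, hx2, hx3, hD3]; exact h3))
  have e : ∀ (i j : ZMod 4) (d : ℝ) (v : Pt), cr (thinPt x y b d i - thinPt x y b d j) v =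
      (x i - x j) * cr b v + d * ((y i - y j) * cr (J b) v) := by
    intro i j d v
    simp only [cr, thinPt, J, Prod.fst_sub, Prod.snd_sub, Prod.fst_add, Prod.snd_add,
      Prod.smul_fst, Prod.smul_snd, smul_eq_mul]
    ring
  have lim : ∀ (s : Bool) (A B : ℝ), SgnB s A → ∀ᶠ d in 𝓝[>] (0 : ℝ), SgnB s (A + d * B) := by
    intro s A B hs
    have hc : Continuous fun d : ℝ => A + d * B := by fun_prop
    have hl := (hc.tendsto 0).mono_left (nhdsWithin_le_nhds (s := Set.Ioi (0 : ℝ)))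
    rw [zero_mul, add_zero] at hl
    cases s
    · filter_upwards [hl.eventually_lt_const (hs.2 rfl)] with d hd
      exact ⟨fun h => absurd h (by decide), fun _ => hd⟩
    · filter_upwards [hl.eventually_const_lt (hs.1 rfl)] with d hd
      exact ⟨fun _ => hd, fun h => absurd h (by decide)⟩
  have hq2 : ∀ᶠ d in 𝓝[>] (0 : ℝ),
      SgnB o (cr (thinPt x y b d 2 - thinPt x y b d 0) (α 0)) := by
    filter_upwards [lim o _ ((y 2 - y 0) * cr (J b) (α 0)) ho] with d hd
    rw [e, hx2, hx0]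
    exact hd
  have hq3 : ∀ᶠ d in 𝓝[>] (0 : ℝ),
      (α 1 = α 3 → SgnB o' (cr (thinPt x y b d 3 - thinPt x y b d 1) (α 1))) := by
    by_cases h13 : α 1 = α 3
    · filter_upwards [lim o' _ ((y 3 - y 1) * cr (J b) (α 1)) (ho' h13)] with d hd _
      rw [e, hx3, hx1]
      exact hd
    · exact Eventually.of_forall fun d h => absurd h h13
  obtain ⟨d, h4, h5, h6⟩ := (hy.and (hq2.and hq3)).exists
  exact ⟨thinPt x y b d, h4, h5, h6⟩

end FOUx

open FOUx

theorem fou : StmtFOU := by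
  intro t α _ h02 h01 h03 o o'
  by_cases h13 : α 1 = α 3
  · -- both pairs of opposite directions are equal
    by_cases ht02 : t 0 = t 2
    · by_cases ht13 : t 1 = t 3
      · obtain ⟨b, hb1, hb2, -⟩ := beta (α 0) (α 1) (α 1) h01 h01 (t 0) (t 1)
        have n0 := SgnB_ne hb1
        have n1 := SgnB_ne hb2
        by_cases ho : o = t 0
        · by_cases ho' : o' = t 1
          · -- flats {1, 2}: x = -1, 0, 1, 2
            refine core t α (-1) 0 1 2 (sg (t 0)) (-2 * sg (t 0) + sg (t 3))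
              (sg (t 0) - 2 * sg (t 3)) (sg (t 3)) b (by ring) (by ring) n0 n1
              (by rw [← h02]; exact n0) (by rw [← h13]; exact n1)
              (Or.inl ⟨by norm_num, sg_sgn _⟩)
              (Or.inr ⟨by norm_num, SgnB_mul (by norm_num) hb2⟩)
              (Or.inr ⟨by norm_num, by rw [← h02, ← ht02]; exact SgnB_mul (by norm_num) hb1⟩)
              (Or.inl ⟨by norm_num, sg_sgn _⟩) o o' ?_ fun _ => ?_
            · rw [ho]; exact SgnB_mul (by norm_num) hb1
            · rw [ho']; exact SgnB_mul (by norm_num) hb2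
          · have ho'' : o' = !(t 1) := by revert ho'; cases o' <;> cases t 1 <;> simp
            -- flats {0, 1}: x = 0, 1, 2, -1
            refine core t α 0 1 2 (-1) (sg (t 2) - 2 * sg (t 3)) (sg (t 3) - 2 * sg (t 2))
              (sg (t 2)) (sg (t 3)) b (by ring) (by ring) n0 n1
              (by rw [← h02]; exact n0) (by rw [← h13]; exact n1)
              (Or.inr ⟨by norm_num, SgnB_mul (by norm_num) hb1⟩)
              (Or.inr ⟨by norm_num, SgnB_mul (by norm_num) hb2⟩)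
              (Or.inl ⟨by norm_num, sg_sgn _⟩)
              (Or.inl ⟨by norm_num, sg_sgn _⟩) o o' ?_ fun _ => ?_
            · rw [ho]; exact SgnB_mul (by norm_num) hb1
            · rw [ho'']; exact SgnB_neg (by norm_num) hb2
        · have ho1 : o = !(t 0) := by revert ho; cases o <;> cases t 0 <;> simp
          by_cases ho' : o' = t 1
          · -- flats {2, 3}: x = 2, -1, 0, 1
            refine core t α 2 (-1) 0 1 (sg (t 0)) (sg (t 1)) (sg (t 0) - 2 * sg (t 1))
              (sg (t 1) - 2 * sg (t 0)) b (by ring) (by ring) n0 n1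
              (by rw [← h02]; exact n0) (by rw [← h13]; exact n1)
              (Or.inl ⟨by norm_num, sg_sgn _⟩)
              (Or.inl ⟨by norm_num, sg_sgn _⟩)
              (Or.inr ⟨by norm_num, by rw [← h02, ← ht02]; exact SgnB_mul (by norm_num) hb1⟩)
              (Or.inr ⟨by norm_num, by rw [← h13, ← ht13]; exact SgnB_mul (by norm_num) hb2⟩)
              o o' ?_ fun _ => ?_
            · rw [ho1]; exact SgnB_neg (by norm_num) hb1
            · rw [ho']; exact SgnB_mul (by norm_num) hb2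
          · have ho'' : o' = !(t 1) := by revert ho'; cases o' <;> cases t 1 <;> simp
            -- flats {3, 0}: x = 1, 2, -1, 0
            refine core t α 1 2 (-1) 0 (sg (t 2) - 2 * sg (t 1)) (sg (t 1)) (sg (t 2))
              (sg (t 1) - 2 * sg (t 2)) b (by ring) (by ring) n0 n1
              (by rw [← h02]; exact n0) (by rw [← h13]; exact n1)
              (Or.inr ⟨by norm_num, SgnB_mul (by norm_num) hb1⟩)
              (Or.inl ⟨by norm_num, sg_sgn _⟩)
              (Or.inl ⟨by norm_num, sg_sgn _⟩)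
              (Or.inr ⟨by norm_num, by rw [← h13, ← ht13]; exact SgnB_mul (by norm_num) hb2⟩)
              o o' ?_ fun _ => ?_
            · rw [ho1]; exact SgnB_neg (by norm_num) hb1
            · rw [ho'']; exact SgnB_neg (by norm_num) hb2
      · -- `t 1 ≠ t 3`: flats {1, 3}
        have ht : t 3 = !(t 1) := by revert ht13; cases t 1 <;> cases t 3 <;> simp
        obtain ⟨b, hb1, hb2, -⟩ := beta (α 0) (α 1) (α 1) h01 h01 o (t 1)
        have n0 := SgnB_ne hb1
        have n1 := SgnB_ne hb2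
        by_cases ho' : o' = t 1
        · -- x = -1, 0, 3, 1
          refine core t α (-1) 0 3 1 (sg (t 0)) (-2 * sg (t 0) + 2 * sg (t 2)) (sg (t 2))
            (sg (t 0) - 3 * sg (t 2)) b (by ring) (by ring) n0 n1
            (by rw [← h02]; exact n0) (by rw [← h13]; exact n1)
            (Or.inl ⟨by norm_num, sg_sgn _⟩)
            (Or.inr ⟨by norm_num, SgnB_mul (by norm_num) hb2⟩)
            (Or.inl ⟨by norm_num, sg_sgn _⟩)
            (Or.inr ⟨by norm_num, by rw [← h13, ht]; exact SgnB_neg (by norm_num) hb2⟩)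
            o o' ?_ fun _ => ?_
          · exact SgnB_mul (by norm_num) hb1
          · rw [ho']; exact SgnB_mul (by norm_num) hb2
        · have ho'' : o' = !(t 1) := by revert ho'; cases o' <;> cases t 1 <;> simp
          -- x = -1, 1, 3, 0
          refine core t α (-1) 1 3 0 (sg (t 0)) (sg (t 0) - 3 * sg (t 2)) (sg (t 2))
            (2 * sg (t 2) - 2 * sg (t 0)) b (by ring) (by ring) n0 n1
            (by rw [← h02]; exact n0) (by rw [← h13]; exact n1)
            (Or.inl ⟨by norm_num, sg_sgn _⟩)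
            (Or.inr ⟨by norm_num, SgnB_mul (by norm_num) hb2⟩)
            (Or.inl ⟨by norm_num, sg_sgn _⟩)
            (Or.inr ⟨by norm_num, by rw [← h13, ht]; exact SgnB_neg (by norm_num) hb2⟩)
            o o' ?_ fun _ => ?_
          · exact SgnB_mul (by norm_num) hb1
          · rw [ho'']; exact SgnB_neg (by norm_num) hb2
    · -- `t 0 ≠ t 2`: flats {0, 2}
      have ht : t 2 = !(t 0) := by revert ht02; cases t 0 <;> cases t 2 <;> simp
      obtain ⟨b, hb1, hb2, -⟩ := beta (α 0) (α 1) (α 1) h01 h01 (t 0) (!o')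
      have n0 := SgnB_ne hb1
      have n1 := SgnB_ne hb2
      by_cases ho : o = t 0
      · -- x = 0, 3, 1, -1
        refine core t α 0 3 1 (-1) (2 * sg (t 1) - 2 * sg (t 3)) (sg (t 1))
          (sg (t 3) - 3 * sg (t 1)) (sg (t 3)) b (by ring) (by ring) n0 n1
          (by rw [← h02]; exact n0) (by rw [← h13]; exact n1)
          (Or.inr ⟨by norm_num, SgnB_mul (by norm_num) hb1⟩)
          (Or.inl ⟨by norm_num, sg_sgn _⟩)
          (Or.inr ⟨by norm_num, by rw [← h02, ht]; exact SgnB_neg (by norm_num) hb1⟩)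
          (Or.inl ⟨by norm_num, sg_sgn _⟩) o o' ?_ fun _ => ?_
        · rw [ho]; exact SgnB_mul (by norm_num) hb1
        · have := SgnB_neg (c := -1 - 3) (by norm_num) hb2
          rwa [Bool.not_not] at this
      · have ho1 : o = !(t 0) := by revert ho; cases o <;> cases t 0 <;> simp
        -- x = 1, 3, 0, -1
        refine core t α 1 3 0 (-1) (sg (t 3) - 3 * sg (t 1)) (sg (t 1))
          (2 * sg (t 1) - 2 * sg (t 3)) (sg (t 3)) b (by ring) (by ring) n0 n1
          (by rw [← h02]; exact n0) (by rw [← h13]; exact n1)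
          (Or.inr ⟨by norm_num, SgnB_mul (by norm_num) hb1⟩)
          (Or.inl ⟨by norm_num, sg_sgn _⟩)
          (Or.inr ⟨by norm_num, by rw [← h02, ht]; exact SgnB_neg (by norm_num) hb1⟩)
          (Or.inl ⟨by norm_num, sg_sgn _⟩) o o' ?_ fun _ => ?_
        · rw [ho1]; exact SgnB_neg (by norm_num) hb1
        · have := SgnB_neg (c := -1 - 3) (by norm_num) hb2
          rwa [Bool.not_not] at this
  · by_cases ho : o = t 0
    · obtain ⟨b, hb1, hb2, hb3⟩ := beta (α 0) (α 1) (α 3) h01 h03 (t 0) (t 1)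
      have n0 := SgnB_ne hb1
      have n1 := SgnB_ne hb2
      refine core t α 0 1 2 (-1) (sg (t 2) - 2 * sg (t 3)) (sg (t 3) - 2 * sg (t 2))
        (sg (t 2)) (sg (t 3)) b (by ring) (by ring) n0 n1
        (by rw [← h02]; exact n0) hb3
        (Or.inr ⟨by norm_num, SgnB_mul (by norm_num) hb1⟩)
        (Or.inr ⟨by norm_num, SgnB_mul (by norm_num) hb2⟩)
        (Or.inl ⟨by norm_num, sg_sgn _⟩)
        (Or.inl ⟨by norm_num, sg_sgn _⟩) o o' ?_ fun h => absurd h h13
      rw [ho]; exact SgnB_mul (by norm_num) hb1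
    · have ho1 : o = !(t 0) := by revert ho; cases o <;> cases t 0 <;> simp
      obtain ⟨b, hb1, hb2, hb3⟩ := beta (α 0) (α 3) (α 1) h03 h01 (t 0) (t 3)
      have n0 := SgnB_ne hb1
      have n3 := SgnB_ne hb2
      refine core t α 1 2 (-1) 0 (sg (t 2) - 2 * sg (t 1)) (sg (t 1)) (sg (t 2))
        (sg (t 1) - 2 * sg (t 2)) b (by ring) (by ring) n0 hb3
        (by rw [← h02]; exact n0) n3
        (Or.inr ⟨by norm_num, SgnB_mul (by norm_num) hb1⟩)
        (Or.inl ⟨by norm_num, sg_sgn _⟩)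
        (Or.inl ⟨by norm_num, sg_sgn _⟩)
        (Or.inr ⟨by norm_num, SgnB_mul (by norm_num) hb2⟩) o o' ?_ fun h => absurd h h13
      rw [ho1]; exact SgnB_neg (by norm_num) hb1

end Pool.Agent.T6.H37.RO
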