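import Pool.Agent.T6.H37.RO.PER

/-!
Module INI of the project RO (MP_8b4fe7_lc): the initial placement.
-/

set_option autoImplicit false

namespace Pool.Agent.T6.H37.RO

open PERx

namespace INIx

variable {V : Type}

theorem adj_symm {r : Rot V} {u v : V} (h : r.Adj u v) : r.Adj v u := by
  obtain ⟨i, hi⟩ := h
  obtain ⟨j, hj⟩ := r.symm u i
  exact ⟨j, by rw [← hi]; exact hj⟩

theorem not_rainbow {r : Rot V} {κ : V → ℕ} {u v : V} (h : r.Adj v u) (hκ : κ u = κ v) :
    ¬ Rainbow r κ v := by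
  intro hr
  obtain ⟨i, hi⟩ := h
  exact hr.1 i (by rw [hi]; exact hκ)

/-- rainbow vertices are alone -/
theorem alone {r : Rot V} {κ : V → ℕ} (hs : Struct r κ) {v : V} (hr : Rainbow r κ v) :
    ∀ u, κ u = κ v → u = v := by
  rcases hs v with ⟨h, -⟩ | ⟨m, z, hz, i, hi⟩ | ⟨w, hw, i, hi⟩ | ⟨w, hw, i, hi⟩ | ⟨w, hw, i, hi⟩
  · exact h
  · exfalso
    obtain ⟨-, -, h1, h2, -⟩ := hz
    have e1 : κ (z (i + 1)) = κ v := by
      rw [(h2 _).2 ⟨i + 1, rfl⟩, ← hi, (h2 _).2 ⟨i, rfl⟩]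
    have e2 := h1 i
    rw [hi] at e2
    exact not_rainbow e2 e1 hr
  · exfalso
    obtain ⟨-, h01, h02, h03, h12, h13, -, h2⟩ := hw
    have key : ∀ i j : Fin 4, r.Adj (w i) (w j) → w i = v → False := by
      intro i j h hi
      have e1 : κ (w j) = κ v := by
        rw [(h2 _).2 ⟨j, rfl⟩, ← hi, (h2 _).2 ⟨i, rfl⟩]
      rw [hi] at h
      exact not_rainbow h e1 hr
    fin_cases i
    · exact key 0 1 h01 hi
    · exact key 1 2 h12 hi
    · exact key 2 0 (adj_symm h02) hi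
    · exact key 3 0 (adj_symm h03) hi
  · exfalso
    obtain ⟨-, h01, h02, h03, h12, h13, h24, h34, h2⟩ := hw
    have key : ∀ i j : Fin 5, r.Adj (w i) (w j) → w i = v → False := by
      intro i j h hi
      have e1 : κ (w j) = κ v := by
        rw [(h2 _).2 ⟨j, rfl⟩, ← hi, (h2 _).2 ⟨i, rfl⟩]
      rw [hi] at h
      exact not_rainbow h e1 hr
    fin_cases i
    · exact key 0 1 h01 hi
    · exact key 1 2 h12 hi
    · exact key 2 0 (adj_symm h02) hi
    · exact key 3 0 (adj_symm h03) hi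
    · exact key 4 2 (adj_symm h24) hi
  · exfalso
    obtain ⟨-, h1, h2⟩ := hw
    have key : ∀ i j : Fin 4, r.Adj (w i) (w j) → w i = v → False := by
      intro i j h hi
      have e1 : κ (w j) = κ v := by
        rw [(h2 _).2 ⟨j, rfl⟩, ← hi, (h2 _).2 ⟨i, rfl⟩]
      rw [hi] at h
      exact not_rainbow h e1 hr
    fin_cases i
    · exact key 0 1 (h1 0 1 (by decide)) hi
    · exact key 1 2 (h1 1 2 (by decide)) hi
    · exact key 2 0 (h1 2 0 (by decide)) hi
    · exact key 3 0 (h1 3 0 (by decide)) hi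

/-- orientation of three points -/
def D (P : ℕ → Pt) (i j k : ℕ) : ℝ := cr (P j - P i) (P k - P i)

theorem D_rot (P : ℕ → Pt) (i j k : ℕ) : D P j k i = D P i j k := by
  unfold D cr
  simp only [Prod.fst_sub, Prod.snd_sub]
  ring

theorem D_swap (P : ℕ → Pt) (i j k : ℕ) : D P i k j = -D P i j k := by
  unfold D cr
  simp only [Prod.fst_sub, Prod.snd_sub]
  ring

theorem SgnB_ne {b : Bool} {t : ℝ} (h : SgnB b t) : t ≠ 0 := by
  cases b
  · exact ne_of_lt (h.2 rfl)
  · exact ne_of_gt (h.1 rfl)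

section

variable {P : ℕ → Pt} {e : ℕ → Bool}
  (hP : ∀ i j k : ℕ, i < j → j < k → SgnB (e k) (D P i j k))

include hP

theorem D_ne {a b c : ℕ} (h1 : a ≠ b) (h2 : b ≠ c) (h3 : a ≠ c) : D P a b c ≠ 0 := by
  have key : ∀ i j k : ℕ, i < j → j < k → D P i j k ≠ 0 := fun i j k h h' => SgnB_ne (hP i j k h h')
  rcases lt_or_gt_of_ne h1 with h1 | h1 <;> rcases lt_or_gt_of_ne h2 with h2 | h2 <;>
    rcases lt_or_gt_of_ne h3 with h3 | h3
  · exact key a b c h1 h2
  · omega
  · -- a < b, c < b, a < c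
    have := key a c b h3 h2
    rw [D_swap] at this
    exact fun h => this (by rw [h, neg_zero])
  · -- c < a < b
    have := key c a b h3 h1
    rw [D_rot P b c a, D_rot P a b c] at this
    exact this
  · -- b < a, b < c, a < c
    have := key b a c h1 h3
    rw [D_swap P b c a, D_rot P a b c] at this
    exact fun h => this (by rw [h, neg_zero])
  · -- b < c < a
    have := key b c a h2 h3
    rw [D_rot P a b c] at this
    exact this
  · omega
  · -- c < b < a
    have := key c b a h2 h1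
    rw [D_swap P c a b, D_rot P b c a, D_rot P a b c] at this
    exact fun h => this (by rw [h, neg_zero])

theorem P_ne {a b : ℕ} (h : a ≠ b) : P a ≠ P b := by
  intro heq
  have h1 := D_ne hP h (show b ≠ a + b + 1 by omega) (show a ≠ a + b + 1 by omega)
  apply h1
  unfold D cr
  rw [heq, sub_self]
  simp

theorem srt {a b c k : ℕ} (hab : a < b) (hbc : b < c) (hbk : b < k) (hck : c ≠ k) :
    (e k = true → Ccw (P a - P k) (P b - P k) (P c - P k)) ∧
    (e k = false → Ccw (P b - P k) (P a - P k) (P c - P k)) := by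
  have f : ∀ i j : ℕ, cr (P i - P k) (P j - P k) = D P k i j := fun _ _ => rfl
  have h1 := hP a b k hab hbk
  rw [← D_rot P a b k, ← D_rot P b k a] at h1
  -- `h1 : SgnB (e k) (D P k a b)`
  rcases lt_or_gt_of_ne hck with hlt | hgt
  · have h2 := hP b c k hbc hlt
    rw [← D_rot P b c k, ← D_rot P c k b] at h2
    constructor
    · intro hk
      refine Or.inl ⟨?_, ?_⟩
      · rw [f]
        exact h1.1 hk
      · rw [f]
        exact h2.1 hk
    · intro hk
      refine Or.inr (Or.inr ⟨?_, ?_⟩)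
      · rw [f, D_swap]
        have := h2.2 hk
        linarith
      · rw [f, D_swap]
        have := h1.2 hk
        linarith
  · have h2 := hP a k c (by omega) hgt
    have h3 := hP b k c hbk hgt
    rw [← D_rot P a k c] at h2
    rw [← D_rot P b k c] at h3
    -- h2 : SgnB (e c) (D P k c a), h3 : SgnB (e c) (D P k c b)
    constructor
    · intro hk
      cases hc : e c
      · refine Or.inl ⟨?_, ?_⟩
        · rw [f]
          exact h1.1 hk
        · rw [f, D_swap]
          have := h3.2 hc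
          linarith
      · refine Or.inr (Or.inr ⟨?_, ?_⟩)
        · rw [f]
          exact h2.1 hc
        · rw [f]
          exact h1.1 hk
    · intro hk
      cases hc : e c
      · refine Or.inl ⟨?_, ?_⟩
        · rw [f, D_swap]
          have := h1.2 hk
          linarith
        · rw [f, D_swap]
          have := h2.2 hc
          linarith
      · refine Or.inr (Or.inr ⟨?_, ?_⟩)
        · rw [f]
          exact h3.1 hc
        · rw [f, D_swap]
          have := h1.2 hk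
          linarith

end

/-- sorted up to rotation -/
def Srt (l : Fin 3 → ℕ) : Prop :=
  (l 0 < l 1 ∧ l 1 < l 2) ∨ (l 1 < l 2 ∧ l 2 < l 0) ∨ (l 2 < l 0 ∧ l 0 < l 1)

open Classical in
/-- the signs -/
noncomputable def ee (r : Rot V) (κ : V → ℕ) (k : ℕ) : Bool :=
  if ∃ v, (∀ u, κ u = κ v → u = v) ∧ κ v = k ∧ ¬ Srt (fun i => κ (r.n i v)) then false else true

theorem ee_true {r : Rot V} {κ : V → ℕ} {v : V} (ha : ∀ u, κ u = κ v → u = v)
    (h : Srt (fun i => κ (r.n i v))) : ee r κ (κ v) = true := by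
  unfold ee
  rw [if_neg]
  rintro ⟨v', h1, h2, h3⟩
  rw [ha v' h2] at h3
  exact h3 h

theorem ee_false {r : Rot V} {κ : V → ℕ} {v : V} (ha : ∀ u, κ u = κ v → u = v)
    (h : ¬ Srt (fun i => κ (r.n i v))) : ee r κ (κ v) = false := by
  unfold ee
  rw [if_pos]
  exact ⟨v, ha, rfl, h⟩

end INIx

open INIx

theorem ini (hmac : StmtMAC) : StmtINI := by
  intro V _ r κ hs ho
  obtain ⟨P, hP⟩ := hmac (ee r κ)
  have hP' : ∀ i j k : ℕ, i < j → j < k → SgnB (ee r κ k) (D P i j k) := hP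
  refine ⟨fun v => P (κ v), ⟨fun u v h => ?_, fun v hr => ?_⟩, fun u v h => P_ne hP' h,
    fun u v w h1 h2 h3 => D_ne hP' h1 h2 h3⟩
  · show P (κ u) = P (κ v)
    rw [h]
  · have ha := alone hs hr
    obtain ⟨hk, hl⟩ := hr
    have hne : ∀ i j : Fin 3, i ≠ j → κ (r.n i v) ≠ κ (r.n j v) := fun i j h h' => h (hl i j h')
    have hord : ∀ i j : Fin 3, κ (r.n i v) < κ (r.n j v) → κ (r.n i v) < κ v := by
      intro i j hij
      by_contra hcon
      have h1 : κ v < κ (r.n i v) := lt_of_le_of_ne (not_lt.1 hcon) (Ne.symm (hk i))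
      have h2 := ho v ha i j h1 (lt_trans h1 hij)
      rw [h2] at hij
      exact lt_irrefl _ hij
    show Ccw (P (κ (r.n 0 v)) - P (κ v)) (P (κ (r.n 1 v)) - P (κ v)) (P (κ (r.n 2 v)) - P (κ v))
    have T : ∀ i j k : Fin 3, κ (r.n i v) < κ (r.n j v) → κ (r.n j v) < κ (r.n k v) →
        (ee r κ (κ v) = true → Ccw (P (κ (r.n i v)) - P (κ v)) (P (κ (r.n j v)) - P (κ v))
          (P (κ (r.n k v)) - P (κ v))) ∧
        (ee r κ (κ v) = false → Ccw (P (κ (r.n j v)) - P (κ v)) (P (κ (r.n i v)) - P (κ v))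
          (P (κ (r.n k v)) - P (κ v))) := fun i j k h1 h2 =>
      srt hP' h1 h2 (hord j k h2) (hk k)
    by_cases hsr : Srt (fun i => κ (r.n i v))
    · have he := ee_true ha hsr
      rcases hsr with ⟨h1, h2⟩ | ⟨h1, h2⟩ | ⟨h1, h2⟩
      · exact (T 0 1 2 h1 h2).1 he
      · exact Ccw_rot (Ccw_rot ((T 1 2 0 h1 h2).1 he))
      · exact Ccw_rot ((T 2 0 1 h1 h2).1 he)
    · have he := ee_false ha hsr
      have h01 := hne 0 1 (by decide)
      have h12 := hne 1 2 (by decide)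
      have h02 := hne 0 2 (by decide)
      have hcases : (κ (r.n 1 v) < κ (r.n 0 v) ∧ κ (r.n 0 v) < κ (r.n 2 v)) ∨
          (κ (r.n 0 v) < κ (r.n 2 v) ∧ κ (r.n 2 v) < κ (r.n 1 v)) ∨
          (κ (r.n 2 v) < κ (r.n 1 v) ∧ κ (r.n 1 v) < κ (r.n 0 v)) := by
        have hsr' : ¬ ((κ (r.n 0 v) < κ (r.n 1 v) ∧ κ (r.n 1 v) < κ (r.n 2 v)) ∨
          (κ (r.n 1 v) < κ (r.n 2 v) ∧ κ (r.n 2 v) < κ (r.n 0 v)) ∨
          (κ (r.n 2 v) < κ (r.n 0 v) ∧ κ (r.n 0 v) < κ (r.n 1 v))) := hsr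
        omega
      rcases hcases with ⟨h1, h2⟩ | ⟨h1, h2⟩ | ⟨h1, h2⟩
      · exact (T 1 0 2 h1 h2).2 he
      · exact Ccw_rot ((T 0 2 1 h1 h2).2 he)
      · exact Ccw_rot (Ccw_rot ((T 2 1 0 h1 h2).2 he))

end Pool.Agent.T6.H37.RO
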