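import Pool.Agent.T6.H37.RO.Defs

/-! Module MAC: points such that the orientation of `i < j < k` is given by `e k`. -/

set_option autoImplicit false

namespace Pool.Agent.T6.H37.RO

namespace ModMAC

/-- a fast sequence -/
noncomputable def Y (k : ℕ) : ℝ := 4 ^ k * (k.factorial : ℝ)

theorem Y_pos (k : ℕ) : 0 < Y k := by
  unfold Y
  have : (0 : ℝ) < k.factorial := by exact_mod_cast k.factorial_pos
  positivity

theorem Y_succ (k : ℕ) : Y (k + 1) = 4 * ((k : ℝ) + 1) * Y k := by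
  unfold Y
  rw [pow_succ, Nat.factorial_succ]
  push_cast
  ring

theorem Y_mono : Monotone Y := by
  refine monotone_nat_of_le_succ fun k => ?_
  rw [Y_succ]
  have h1 := Y_pos k
  have h2 : (0 : ℝ) ≤ k := Nat.cast_nonneg k
  nlinarith

/-- sign -/
noncomputable def sg (b : Bool) : ℝ := if b then 1 else -1

theorem abs_sg (b : Bool) (x : ℝ) (hx : 0 ≤ x) : |sg b * x| = x := by
  cases b <;> simp [sg, abs_of_nonneg hx]

end ModMAC

open ModMAC in
theorem mac : StmtMAC := by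
  intro e
  refine ⟨fun k => ((k : ℝ), sg (e k) * Y k), ?_⟩
  intro i j k hij hjk
  obtain ⟨l, rfl⟩ : ∃ l, k = l + 1 := ⟨k - 1, by omega⟩
  have hjl : j ≤ l := by omega
  have hil : i ≤ l := by omega
  have hM := Y_pos l
  have ha : |sg (e i) * Y i| ≤ Y l := by
    rw [abs_sg _ _ (Y_pos i).le]
    exact Y_mono hil
  have hb : |sg (e j) * Y j| ≤ Y l := by
    rw [abs_sg _ _ (Y_pos j).le]
    exact Y_mono hjl
  obtain ⟨a, haa⟩ : ∃ a, a = sg (e i) * Y i := ⟨_, rfl⟩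
  obtain ⟨b, hbb⟩ : ∃ b, b = sg (e j) * Y j := ⟨_, rfl⟩
  obtain ⟨M, hMM⟩ : ∃ M, M = Y l := ⟨_, rfl⟩
  have hJ : (1 : ℝ) ≤ (j : ℝ) - i := by
    have : ((i + 1 : ℕ) : ℝ) ≤ (j : ℝ) := by exact_mod_cast hij
    push_cast at this
    linarith
  have hL : ((l : ℝ) + 1) - i ≤ (l : ℝ) + 1 := by
    have : (0 : ℝ) ≤ i := Nat.cast_nonneg i
    linarith
  have hL0 : 0 ≤ ((l : ℝ) + 1) - i := by
    have : (i : ℝ) ≤ l := by exact_mod_cast hil
    linarith
  have hl : (0 : ℝ) ≤ l := Nat.cast_nonneg l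
  have e0 : cr (((j : ℝ), sg (e j) * Y j) - ((i : ℝ), sg (e i) * Y i))
      ((((l + 1 : ℕ) : ℝ), sg (e (l + 1)) * Y (l + 1)) - ((i : ℝ), sg (e i) * Y i)) =
      ((j : ℝ) - i) * (sg (e (l + 1)) * (4 * ((l : ℝ) + 1) * M) - a) -
        (b - a) * (((l : ℝ) + 1) - i) := by
    unfold cr
    rw [Y_succ, haa, hbb, hMM]
    simp only [Prod.fst_sub, Prod.snd_sub]
    push_cast
    ring
  simp only
  rw [e0]
  rw [← haa] at ha
  rw [← hbb] at hb
  rw [← hMM] at ha hb hM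
  obtain ⟨J, hJJ⟩ : ∃ J : ℝ, J = (j : ℝ) - i := ⟨_, rfl⟩
  obtain ⟨L, hLL⟩ : ∃ L : ℝ, L = ((l : ℝ) + 1) - i := ⟨_, rfl⟩
  rw [← hJJ] at hJ ⊢
  rw [← hLL] at hL hL0 ⊢
  rw [abs_le] at ha hb
  have k1 : (b - a) * L ≤ 2 * M * L := mul_le_mul_of_nonneg_right (by linarith) hL0
  have k2 : -(2 * M * L) ≤ (b - a) * L := by
    have := mul_le_mul_of_nonneg_right (show -(2 * M) ≤ b - a by linarith) hL0
    linarith
  have k3 : 2 * M * L ≤ 2 * M * (l + 1) := mul_le_mul_of_nonneg_left hL (by linarith)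
  have k4 : 2 * M * (l + 1) ≤ J * (2 * M * (l + 1)) := by
    have : 0 ≤ 2 * M * ((l : ℝ) + 1) := by positivity
    nlinarith
  have k5 : J * a ≤ J * M := mul_le_mul_of_nonneg_left ha.2 (by linarith)
  have k6 : -(J * M) ≤ J * a := by
    have := mul_le_mul_of_nonneg_left ha.1 (show 0 ≤ J by linarith)
    linarith
  have k7 : J * M + J * (2 * M * (l + 1)) < J * (4 * (l + 1) * M) := by
    have : M + 2 * M * (l + 1) < 4 * (l + 1) * M := by nlinarith
    have := mul_lt_mul_of_pos_left this (show 0 < J by linarith)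
    linarith
  constructor
  · intro h
    rw [h]
    have : sg true = 1 := by simp [sg]
    rw [this, one_mul, mul_sub]
    linarith
  · intro h
    rw [h]
    have : sg false = -1 := by simp [sg]
    rw [this, neg_one_mul, mul_sub]
    linarith

end Pool.Agent.T6.H37.RO
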