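import Mathlib
import Pool.Agent.T6.H37.RO.Tab8

/-! Module PAI of project RO: the shape of two alternating 4-cycles joined by four edges. -/

set_option autoImplicit false

namespace Pool.Agent.T6.H37.RO

open Tab8

namespace ModPAI

def Pz (l : List (ℤ × ℤ)) (i : ℕ) : ℤ × ℤ := l.getD i (0, 0)

def chkRow (r : (List ℕ × Bool × Bool) × List (ℤ × ℤ)) : Bool :=
  (List.range 4).all fun i =>
    ccwBZ (xor r.1.2.1 (i % 2 == 1)) (Pz r.2 ((i + 3) % 4) - Pz r.2 i)
      (Pz r.2 ((i + 1) % 4) - Pz r.2 i) (Pz r.2 (4 + r.1.1.getD i 0) - Pz r.2 i) &&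
    ccwBZ (xor r.1.2.2 (r.1.1.getD i 0 % 2 == 1))
      (Pz r.2 (4 + (r.1.1.getD i 0 + 3) % 4) - Pz r.2 (4 + r.1.1.getD i 0))
      (Pz r.2 (4 + (r.1.1.getD i 0 + 1) % 4) - Pz r.2 (4 + r.1.1.getD i 0))
      (Pz r.2 i - Pz r.2 (4 + r.1.1.getD i 0))

theorem row0 : paiTab0.all chkRow = true := by decide +kernel
theorem row1 : paiTab1.all chkRow = true := by decide +kernel
theorem row2 : paiTab2.all chkRow = true := by decide +kernel
theorem row3 : paiTab3.all chkRow = true := by decide +kernel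

def keyIn (T : List ((List ℕ × Bool × Bool) × List (ℤ × ℤ))) (g0 g1 g2 g3 : ℕ) (b b' : Bool) :
    Bool := T.any fun r => r.1 == ([g0, g1, g2, g3], b, b')

theorem key0 : ∀ (g1 g2 g3 : Fin 4) (b b' : Bool), g1 ≠ 0 → g2 ≠ 0 → g3 ≠ 0 → g1 ≠ g2 → g1 ≠ g3 →
    g2 ≠ g3 → keyIn paiTab0 0 g1.val g2.val g3.val b b' = true := by decide +kernel
theorem key1 : ∀ (g1 g2 g3 : Fin 4) (b b' : Bool), g1 ≠ 1 → g2 ≠ 1 → g3 ≠ 1 → g1 ≠ g2 → g1 ≠ g3 →
    g2 ≠ g3 → keyIn paiTab1 1 g1.val g2.val g3.val b b' = true := by decide +kernel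
theorem key2 : ∀ (g1 g2 g3 : Fin 4) (b b' : Bool), g1 ≠ 2 → g2 ≠ 2 → g3 ≠ 2 → g1 ≠ g2 → g1 ≠ g3 →
    g2 ≠ g3 → keyIn paiTab2 2 g1.val g2.val g3.val b b' = true := by decide +kernel
theorem key3 : ∀ (g1 g2 g3 : Fin 4) (b b' : Bool), g1 ≠ 3 → g2 ≠ 3 → g3 ≠ 3 → g1 ≠ g2 → g1 ≠ g3 →
    g2 ≠ g3 → keyIn paiTab3 3 g1.val g2.val g3.val b b' = true := by decide +kernel

theorem ofKey {T : List ((List ℕ × Bool × Bool) × List (ℤ × ℤ))} (hT : T.all chkRow = true)
    {g0 g1 g2 g3 : ℕ} {b b' : Bool} (hk : keyIn T g0 g1 g2 g3 b b' = true) :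
    ∃ l : List (ℤ × ℤ), chkRow (([g0, g1, g2, g3], b, b'), l) = true := by
  obtain ⟨r, hr, hb⟩ := List.any_eq_true.1 hk
  have h1 := List.all_eq_true.1 hT r hr
  have h2 : r.1 = ([g0, g1, g2, g3], b, b') := by simpa using hb
  refine ⟨r.2, ?_⟩
  rw [← h2]
  exact h1

theorem main (g0 g1 g2 g3 : Fin 4) (b b' : Bool) (h01 : g0 ≠ g1) (h02 : g0 ≠ g2) (h03 : g0 ≠ g3)
    (h12 : g1 ≠ g2) (h13 : g1 ≠ g3) (h23 : g2 ≠ g3) :
    ∃ l : List (ℤ × ℤ), chkRow (([g0.val, g1.val, g2.val, g3.val], b, b'), l) = true := by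
  fin_cases g0
  · exact ofKey row0 (key0 g1 g2 g3 b b' h01.symm h02.symm h03.symm h12 h13 h23)
  · exact ofKey row1 (key1 g1 g2 g3 b b' h01.symm h02.symm h03.symm h12 h13 h23)
  · exact ofKey row2 (key2 g1 g2 g3 b b' h01.symm h02.symm h03.symm h12 h13 h23)
  · exact ofKey row3 (key3 g1 g2 g3 b b' h01.symm h02.symm h03.symm h12 h13 h23)

theorem val_sub : ∀ i : ZMod 4, (i - 1).val = (i.val + 3) % 4 := by decide
theorem val_add : ∀ i : ZMod 4, (i + 1).val = (i.val + 1) % 4 := by decide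

theorem alt {t : ZMod 4 → Bool} (ht : ∀ i, t (i + 1) = !(t i)) (i : ZMod 4) :
    t i = xor (t 0) (i.val % 2 == 1) := by
  have h1 : t 1 = !(t 0) := by simpa using ht 0
  have h2 : t 2 = t 0 := by
    have := ht 1
    rw [h1] at this
    have e : (1 : ZMod 4) + 1 = 2 := by decide
    rw [e] at this
    simpa using this
  have h3 : t 3 = !(t 0) := by
    have := ht 2
    rw [h2] at this
    have e : (2 : ZMod 4) + 1 = 3 := by decide
    rw [e] at this
    exact this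
  fin_cases i
  · change t 0 = _
    have e : ((0 : ZMod 4).val % 2 == 1) = false := by decide
    change t 0 = xor (t 0) ((0 : ZMod 4).val % 2 == 1)
    rw [e]; simp
  · change t 1 = xor (t 0) ((1 : ZMod 4).val % 2 == 1)
    have e : ((1 : ZMod 4).val % 2 == 1) = true := by decide
    rw [e, h1]; simp
  · change t 2 = xor (t 0) ((2 : ZMod 4).val % 2 == 1)
    have e : ((2 : ZMod 4).val % 2 == 1) = false := by decide
    rw [e, h2]; simp
  · change t 3 = xor (t 0) ((3 : ZMod 4).val % 2 == 1)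
    have e : ((3 : ZMod 4).val % 2 == 1) = true := by decide
    rw [e, h3]; simp

end ModPAI

open ModPAI in
theorem pai : StmtPAI := by
  intro g t t' ht ht'
  have hg : ∀ i j : ZMod 4, i ≠ j → g i ≠ g j := fun i j h e => h (g.injective e)
  obtain ⟨l, hl⟩ := main (g 0) (g 1) (g 2) (g 3) (t 0) (t' 0) (hg 0 1 (by decide))
    (hg 0 2 (by decide)) (hg 0 3 (by decide)) (hg 1 2 (by decide)) (hg 1 3 (by decide))
    (hg 2 3 (by decide))
  have hgv : ∀ i : ZMod 4, [(g 0).val, (g 1).val, (g 2).val, (g 3).val].getD i.val 0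
      = (g i).val := by
    intro i
    fin_cases i <;> rfl
  have hl' : chkRow (([(g 0).val, (g 1).val, (g 2).val, (g 3).val], t 0, t' 0), l) = true := hl
  have hD : (0 : ℝ) < cr ((1, 0) : Pt) ((0, 1) : Pt) := by unfold cr; norm_num
  have key : ∀ i : ZMod 4,
      ccwBZ (t i) (Pz l (i - 1).val - Pz l i.val) (Pz l (i + 1).val - Pz l i.val)
        (Pz l (4 + (g i).val) - Pz l i.val) = true ∧
      ccwBZ (t' (g i)) (Pz l (4 + (g i - 1).val) - Pz l (4 + (g i).val))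
        (Pz l (4 + (g i + 1).val) - Pz l (4 + (g i).val))
        (Pz l i.val - Pz l (4 + (g i).val)) = true := by
    intro i
    have h1 := List.all_eq_true.1 hl' i.val (List.mem_range.2 (ZMod.val_lt i))
    simp only [Bool.and_eq_true] at h1
    rw [hgv i] at h1
    rw [val_sub, val_add, val_sub, val_add, alt ht i, alt ht' (g i)]
    exact h1
  refine ⟨fun i => L (1, 0) (0, 1) (Pz l i.val), fun j => L (1, 0) (0, 1) (Pz l (4 + j.val)),
    fun i => ?_, fun i => ?_⟩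
  · simp only [L_sub]
    exact ccwB_pos hD (key i).1
  · simp only [L_sub]
    exact ccwB_pos hD (key i).2

end Pool.Agent.T6.H37.RO
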