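import Pool.Agent.T6.H37.RO.Defs

set_option autoImplicit false

/-!
# Module SPL: splitting a class keeps the structure
-/

namespace Pool.Agent.T6.H37.RO

namespace ModSPL

variable {V : Type}

theorem adj_symm (r : Rot V) {u v : V} (h : r.Adj u v) : r.Adj v u := by
  obtain ⟨i, rfl⟩ := h
  exact r.symm u i

theorem two_nb (r : Rot V) {K : Set V} {v a b : V} (ha : r.Adj v a) (hb : r.Adj v b) (haK : a ∈ K)
    (hbK : b ∈ K) (hab : a ≠ b) (i j : Fin 3) (hij : i ≠ j) (hi : r.n i v ∉ K)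
    (hj : r.n j v ∉ K) : False := by
  obtain ⟨x, rfl⟩ := ha
  obtain ⟨y, rfl⟩ := hb
  have h1 : x ≠ y := by
    rintro rfl
    exact hab rfl
  have h2 : i ≠ x := by
    rintro rfl
    exact hi haK
  have h3 : i ≠ y := by
    rintro rfl
    exact hi hbK
  have h4 : j ≠ x := by
    rintro rfl
    exact hj haK
  have h5 : j ≠ y := by
    rintro rfl
    exact hj hbK
  have key : ∀ i j x y : Fin 3, ¬ (i ≠ j ∧ x ≠ y ∧ i ≠ x ∧ i ≠ y ∧ j ≠ x ∧ j ≠ y) := by decide
  exact key i j x y ⟨hij, h1, h2, h3, h4, h5⟩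

section

variable {r : Rot V} {κ κ' : V → ℕ} {K : Set V}

theorem class_iff (hK : ∀ u v, u ∈ K → κ u = κ v → v ∈ K) (hs : Splits κ κ' K) {a : V}
    (ha : a ∉ K) (v : V) : κ' v = κ' a ↔ κ v = κ a := by
  rw [hs v a]
  constructor
  · rintro (rfl | ⟨_, _, h⟩)
    · rfl
    · exact h
  · intro h
    exact Or.inr ⟨fun hv => ha (hK v a hv h), ha, h⟩

theorem transfer (hK : ∀ u v, u ∈ K → κ u = κ v → v ∈ K) (hs : Splits κ κ' K) {a : V}
    (ha : a ∉ K) {Q : V → Prop} (hQ : ∀ v, κ v = κ a ↔ Q v) (v : V) : κ' v = κ' a ↔ Q v := by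
  rw [class_iff hK hs ha v, hQ v]

theorem cyc (hK : ∀ u v, u ∈ K → κ u = κ v → v ∈ K) (hs : Splits κ κ' K) {m : ℕ}
    {z : ZMod m → V} (ha : z 0 ∉ K) (h : IsCyc r κ m z) : IsCyc r κ' m z :=
  ⟨h.1, h.2.1, h.2.2.1, fun v => transfer hK hs ha h.2.2.2.1 v, h.2.2.2.2⟩

theorem single (hs : Splits κ κ' K) {v : V} (hv : v ∈ K) (u : V) (h : κ' u = κ' v) : u = v := by
  rcases (hs u v).mp h with h | ⟨_, h, _⟩
  · exact h
  · exact absurd hv h

/-- a vertex of `K` with two neighbours in `K` satisfies the first alternative -/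
theorem alone (hs : Splits κ κ' K) {v a b : V} (hv : v ∈ K) (ha : r.Adj v a) (hb : r.Adj v b)
    (haK : a ∈ K) (hbK : b ∈ K) (hab : a ≠ b) :
    (∀ u, κ' u = κ' v → u = v) ∧ (∀ i j, i ≠ j → κ' (r.n i v) = κ' (r.n j v) →
      ∃ z : ZMod 4 → V, IsCyc r κ' 4 z ∧ r.n i v = z 0 ∧ r.n j v = z 2) := by
  refine ⟨fun u h => single hs hv u h, fun i j hij h => ?_⟩
  exfalso
  rcases (hs _ _).mp h with h | ⟨h1, h2, _⟩
  · exact hij (r.inj v i j h)
  · exact two_nb r ha hb haK hbK hab i j hij h1 h2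

end

end ModSPL

open ModSPL in
theorem spl : StmtSPL := by
  intro V _ r κ κ' K hst hK hs v
  have memK : ∀ {a : V}, κ a = κ v → (a ∈ K ↔ v ∈ K) := fun {a} h =>
    ⟨fun ha => hK a v ha h, fun hv => hK v a hv h.symm⟩
  rcases hst v with ⟨h1, h2⟩ | ⟨m, z, hz, i, hi⟩ | ⟨w, hw, i, hi⟩ | ⟨w, hw, i, hi⟩ | ⟨w, hw, i, hi⟩
  · -- alone
    refine Or.inl ⟨?_, ?_⟩
    · intro u hu
      rcases (hs u v).mp hu with h | ⟨_, _, h⟩
      · exact h
      · exact h1 u h
    · intro i j hij h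
      rcases (hs _ _).mp h with h | ⟨h3, _, h5⟩
      · exact absurd (r.inj v i j h) hij
      · obtain ⟨z, hz, hz0, hz2⟩ := h2 i j hij h5
        exact ⟨z, cyc hK hs (by rw [← hz0]; exact h3) hz, hz0, hz2⟩
  · -- cycle
    have hcl : ∀ j, κ (z j) = κ v := by
      intro j
      have e1 := (hz.2.2.2.1 (z j)).mpr ⟨j, rfl⟩
      have e2 := (hz.2.2.2.1 v).mpr ⟨i, hi⟩
      rw [e1, e2]
    by_cases hv : v ∈ K
    · left
      have ha : r.Adj v (z (i + 1)) := by
        rw [← hi]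
        exact hz.2.2.1 i
      have hb : r.Adj v (z (i - 1)) := by
        have := adj_symm r (hz.2.2.1 (i - 1))
        rw [sub_add_cancel, hi] at this
        exact this
      refine alone hs hv ha hb ((memK (hcl _)).mpr hv) ((memK (hcl _)).mpr hv) ?_
      intro he
      have h3 := hz.1
      have h4 := hz.2.1 he
      have h5 : (2 : ZMod m) = 0 := by
        have : i + 1 - (i - 1) = 0 := by rw [h4, sub_self]
        rw [← this]
        ring
      have h6 : ((2 : ℕ) : ZMod m) = 0 := by exact_mod_cast h5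
      rw [ZMod.natCast_eq_zero_iff] at h6
      exact absurd (Nat.le_of_dvd (by norm_num) h6) (by omega)
    · right
      left
      exact ⟨m, z, cyc hK hs (fun h => hv ((memK (hcl 0)).mp h)) hz, i, hi⟩
  · -- diamond
    obtain ⟨winj, a01, a02, a03, a12, a13, n23, hc⟩ := hw
    have hcl : ∀ j, κ (w j) = κ v := by
      intro j
      rw [(hc (w j)).mpr ⟨j, rfl⟩, (hc v).mpr ⟨i, hi⟩]
    by_cases hv : v ∈ K
    · left
      have hwK : ∀ j, w j ∈ K := fun j => (memK (hcl j)).mpr hv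
      have hne : ∀ a b, a ≠ b → w a ≠ w b := fun a b h h' => h (winj h')
      subst hi
      fin_cases i
      · exact alone hs hv a01 a02 (hwK 1) (hwK 2) (hne 1 2 (by decide))
      · exact alone hs hv (adj_symm r a01) a12 (hwK 0) (hwK 2) (hne 0 2 (by decide))
      · exact alone hs hv (adj_symm r a02) (adj_symm r a12) (hwK 0) (hwK 1) (hne 0 1 (by decide))
      · exact alone hs hv (adj_symm r a03) (adj_symm r a13) (hwK 0) (hwK 1) (hne 0 1 (by decide))
    · right
      right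
      left
      exact ⟨w, ⟨winj, a01, a02, a03, a12, a13, n23,
        fun u => transfer hK hs (fun h => hv ((memK (hcl 0)).mp h)) hc u⟩, i, hi⟩
  · -- diamond with a common neighbour of the ends
    obtain ⟨winj, a01, a02, a03, a12, a13, a24, a34, hc⟩ := hw
    have hcl : ∀ j, κ (w j) = κ v := by
      intro j
      rw [(hc (w j)).mpr ⟨j, rfl⟩, (hc v).mpr ⟨i, hi⟩]
    by_cases hv : v ∈ K
    · left
      have hwK : ∀ j, w j ∈ K := fun j => (memK (hcl j)).mpr hv
      have hne : ∀ a b, a ≠ b → w a ≠ w b := fun a b h h' => h (winj h')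
      subst hi
      fin_cases i
      · exact alone hs hv a01 a02 (hwK 1) (hwK 2) (hne 1 2 (by decide))
      · exact alone hs hv (adj_symm r a01) a12 (hwK 0) (hwK 2) (hne 0 2 (by decide))
      · exact alone hs hv (adj_symm r a02) (adj_symm r a12) (hwK 0) (hwK 1) (hne 0 1 (by decide))
      · exact alone hs hv (adj_symm r a03) (adj_symm r a13) (hwK 0) (hwK 1) (hne 0 1 (by decide))
      · exact alone hs hv (adj_symm r a24) (adj_symm r a34) (hwK 2) (hwK 3) (hne 2 3 (by decide))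
    · right
      right
      right
      left
      exact ⟨w, ⟨winj, a01, a02, a03, a12, a13, a24, a34,
        fun u => transfer hK hs (fun h => hv ((memK (hcl 0)).mp h)) hc u⟩, i, hi⟩
  · -- complete graph
    obtain ⟨winj, adj, hc⟩ := hw
    have hcl : ∀ j, κ (w j) = κ v := by
      intro j
      rw [(hc (w j)).mpr ⟨j, rfl⟩, (hc v).mpr ⟨i, hi⟩]
    by_cases hv : v ∈ K
    · left
      have hwK : ∀ j, w j ∈ K := fun j => (memK (hcl j)).mpr hv
      have hne : ∀ a b, a ≠ b → w a ≠ w b := fun a b h h' => h (winj h')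
      subst hi
      have key : ∀ i : Fin 4, ∃ a b : Fin 4, i ≠ a ∧ i ≠ b ∧ a ≠ b := by decide
      obtain ⟨a, b, h1, h2, h3⟩ := key i
      exact alone hs hv (adj i a h1) (adj i b h2) (hwK a) (hwK b) (hne a b h3)
    · right
      right
      right
      right
      exact ⟨w, ⟨winj, adj,
        fun u => transfer hK hs (fun h => hv ((memK (hcl 0)).mp h)) hc u⟩, i, hi⟩

end Pool.Agent.T6.H37.RO
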