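import Pool.Agent.T6.H37.RO.Core
import Pool.Agent.T6.H37.RO.MAC
import Pool.Agent.T6.H37.RO.INI
import Pool.Agent.T6.H37.RO.BLO
import Pool.Agent.T6.H37.RO.CYC
import Pool.Agent.T6.H37.RO.FOU
import Pool.Agent.T6.H37.RO.DIA
import Pool.Agent.T6.H37.RO.DIF
import Pool.Agent.T6.H37.RO.KFS
import Pool.Agent.T6.H37.RO.PAI
import Pool.Agent.T6.H37.RO.DEC
import Pool.Agent.T6.H37.RO.SPL

/-!
Project RO: the core theorem from the modules.
-/

set_option autoImplicit false

namespace Pool.Agent.T6.H37.RO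

theorem coreTheorem : StmtCORE :=
  core (ini mac) blo per cyc fou dia dif kfs pai (dec RO.min) spl

end Pool.Agent.T6.H37.RO
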