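import Pool.Agent.T6.H37.RO.Defs

/-!
Project RO: basic lemmas.
-/

set_option autoImplicit false

namespace Pool.Agent.T6.H37.RO

variable {V : Type}

theorem Ccw.rot {x y z : Pt} (h : Ccw x y z) : Ccw y z x := by
  unfold Ccw at *; tauto

theorem ccw_rot_iff {x y z : Pt} : Ccw x y z ↔ Ccw y z x := by
  unfold Ccw; tauto

theorem cr_comm (x y : Pt) : cr x y = - cr y x := by unfold cr; ring

theorem Rot.adj_symm (r : Rot V) {u v : V} (h : r.Adj u v) : r.Adj v u := by
  obtain ⟨i, rfl⟩ := h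
  obtain ⟨j, hj⟩ := r.symm u i
  exact ⟨j, hj⟩

theorem Rot.adj_ne (r : Rot V) {u v : V} (h : r.Adj u v) : u ≠ v := by
  obtain ⟨i, rfl⟩ := h
  exact fun h => r.irr u i h.symm

theorem Rot.adj_n (r : Rot V) (v : V) (i : Fin 3) : r.Adj v (r.n i v) := ⟨i, rfl⟩

theorem Rot.Cyc.rot {r : Rot V} {v a b c : V} (h : r.Cyc v a b c) : r.Cyc v b c a := by
  obtain ⟨i, h1, h2, h3⟩ := h
  refine ⟨i + 1, h2, ?_, ?_⟩
  · rw [← h3]; congr 1; fin_cases i <;> rfl
  · rw [← h1]; congr 1; fin_cases i <;> rfl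

theorem Rot.Cyc.all {r : Rot V} {v a b c : V} (h : r.Cyc v a b c) (i : Fin 3) :
    r.n i v = a ∨ r.n i v = b ∨ r.n i v = c := by
  obtain ⟨j, rfl, rfl, rfl⟩ := h
  fin_cases i <;> fin_cases j <;> simp

theorem Rot.Cyc.adj {r : Rot V} {v a b c : V} (h : r.Cyc v a b c) :
    r.Adj v a ∧ r.Adj v b ∧ r.Adj v c := by
  obtain ⟨j, rfl, rfl, rfl⟩ := h
  exact ⟨⟨_, rfl⟩, ⟨_, rfl⟩, ⟨_, rfl⟩⟩

theorem Rot.Cyc.ne {r : Rot V} {v a b c : V} (h : r.Cyc v a b c) :
    a ≠ b ∧ b ≠ c ∧ a ≠ c := by
  obtain ⟨j, rfl, rfl, rfl⟩ := h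
  refine ⟨fun e => ?_, fun e => ?_, fun e => ?_⟩ <;>
  · have := r.inj _ _ _ e
    revert this
    fin_cases j <;> decide

theorem Rot.Cyc.of_adj {r : Rot V} {v a b c d : V} (h : r.Cyc v a b c) (hd : r.Adj v d) :
    d = a ∨ d = b ∨ d = c := by
  obtain ⟨i, rfl⟩ := hd
  exact h.all i

theorem Rot.exists_third (r : Rot V) {v a b : V} (ha : r.Adj v a) (hb : r.Adj v b)
    (hab : a ≠ b) : ∃ c, r.Cyc v a b c ∨ r.Cyc v b a c := by
  obtain ⟨i, rfl⟩ := ha
  obtain ⟨j, rfl⟩ := hb
  have hij : i ≠ j := fun h => hab (by rw [h])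
  have : j = i + 1 ∨ j = i + 2 := by
    revert hij; fin_cases i <;> fin_cases j <;> decide
  rcases this with rfl | rfl
  · exact ⟨r.n (i + 2) v, Or.inl ⟨i, rfl, rfl, rfl⟩⟩
  · refine ⟨r.n (i + 1) v, Or.inr ⟨i + 2, rfl, ?_, ?_⟩⟩
    · congr 1; fin_cases i <;> rfl
    · congr 1; fin_cases i <;> rfl

theorem Rot.cyc_or (r : Rot V) {v a b c : V} (ha : r.Adj v a) (hb : r.Adj v b)
    (hc : r.Adj v c) (hab : a ≠ b) (hac : a ≠ c) (hbc : b ≠ c) :
    r.Cyc v a b c ∨ r.Cyc v b a c := by
  obtain ⟨d, hd⟩ := r.exists_third ha hb hab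
  have hcd : c = d := by
    rcases hd with hd | hd
    · rcases hd.of_adj hc with h | h | h
      · exact absurd h.symm hac
      · exact absurd h.symm hbc
      · exact h
    · rcases hd.of_adj hc with h | h | h
      · exact absurd h.symm hbc
      · exact absurd h.symm hac
      · exact h
  subst hcd
  exact hd

theorem good_iff {r : Rot V} {p : V → Pt} {v a b c : V} (h : r.Cyc v a b c) :
    Good r p v ↔ Ccw (p a - p v) (p b - p v) (p c - p v) := by
  obtain ⟨j, rfl, rfl, rfl⟩ := h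
  unfold Good
  fin_cases j
  · exact Iff.rfl
  · exact ccw_rot_iff
  · exact ccw_rot_iff.trans ccw_rot_iff

/-- the sign as a Bool -/
theorem Rot.exists_sign (r : Rot V) {v a b c : V} (ha : r.Adj v a) (hb : r.Adj v b)
    (hc : r.Adj v c) (hab : a ≠ b) (hac : a ≠ c) (hbc : b ≠ c) :
    ∃ s : Bool, SignIs r v a b c s := by
  rcases r.cyc_or ha hb hc hab hac hbc with h | h
  · exact ⟨true, fun _ => h, fun h => by simp at h⟩
  · exact ⟨false, fun h => by simp at h, fun _ => h⟩

theorem SignIs.good_iff {r : Rot V} {p : V → Pt} {v a b c : V} {s : Bool}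
    (h : SignIs r v a b c s) :
    Good r p v ↔ CcwB s (p a - p v) (p b - p v) (p c - p v) := by
  cases s with
  | true => 
    rw [RO.good_iff (h.1 rfl)]
    constructor
    · intro hh; exact ⟨fun _ => hh, fun h => by simp at h⟩
    · intro hh; exact hh.1 rfl
  | false =>
    rw [RO.good_iff (h.2 rfl)]
    constructor
    · intro hh; exact ⟨fun h => by simp at h, fun _ => hh⟩
    · intro hh; exact hh.2 rfl

/-- LimGood for vertices inside -/
theorem limGood_in {r : Rot V} {K : Set V} {p q : V → Pt} {v a b c : V} {s : Bool}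
    (hv : v ∈ K) (h : SignIs r v a b c s) {x y z : Pt} (hx : DirIs K p q v a x)
    (hy : DirIs K p q v b y) (hz : DirIs K p q v c z) (hc : CcwB s x y z) :
    LimGood r K p q v := by
  left
  refine ⟨hv, ?_⟩
  have key : ∀ {a b c : V} {x y z : Pt}, r.Cyc v a b c → DirIs K p q v a x →
      DirIs K p q v b y → DirIs K p q v c z → Ccw x y z →
      ∃ d : Fin 3 → Pt, (∀ i, DirIs K p q v (r.n i v) (d i)) ∧ Ccw (d 0) (d 1) (d 2) := by
    intro a b c x y z h hx hy hz hc
    obtain ⟨j, rfl, rfl, rfl⟩ := h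
    fin_cases j
    · refine ⟨![x, y, z], ?_, hc⟩
      intro i; fin_cases i
      · exact hx
      · exact hy
      · exact hz
    · refine ⟨![z, x, y], ?_, hc.rot.rot⟩
      intro i; fin_cases i
      · exact hz
      · exact hx
      · exact hy
    · refine ⟨![y, z, x], ?_, hc.rot⟩
      intro i; fin_cases i
      · exact hy
      · exact hz
      · exact hx
  cases s with
  | true => exact key (h.1 rfl) hx hy hz (hc.1 rfl)
  | false => exact key (h.2 rfl) hy hx hz (hc.2 rfl)

/-! ### splitting -/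

theorem exists_splits [Fintype V] (κ : V → ℕ) (K : Set V) : ∃ κ' : V → ℕ, Splits κ κ' K := by
  classical
  let e : V ≃ Fin (Fintype.card V) := Fintype.equivFin V
  let N : ℕ := (Finset.univ.sup κ) + 1
  have hN : ∀ v, κ v < N := fun v => Nat.lt_succ_of_le (Finset.le_sup (Finset.mem_univ v))
  refine ⟨fun v => if v ∈ K then N + (e v : ℕ) else κ v, fun u v => ?_⟩
  by_cases hu : u ∈ K <;> by_cases hv : v ∈ K
  · simp only [hu, hv, if_true]
    constructor
    · intro h
      left
      have : (e u : ℕ) = (e v : ℕ) := by omega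
      exact e.injective (Fin.ext this)
    · rintro (rfl | ⟨h, _⟩)
      · rfl
      · exact absurd trivial (by simpa using h)
  · simp only [hu, hv, if_true, if_false]
    constructor
    · intro h
      have := hN v
      omega
    · rintro (rfl | ⟨h, _⟩)
      · exact absurd hu hv
      · exact absurd trivial (by simpa using h)
  · simp only [hu, hv, if_true, if_false]
    constructor
    · intro h
      have := hN u
      omega
    · rintro (rfl | ⟨_, h, _⟩)
      · exact absurd hv hu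
      · exact absurd trivial (by simpa using h)
  · simp only [hu, hv, if_false]
    constructor
    · intro h
      exact Or.inr ⟨by simp, by simp, h⟩
    · rintro (rfl | ⟨_, _, h⟩)
      · rfl
      · exact h

end Pool.Agent.T6.H37.RO
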