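import Pool.Agent.T6.H37.RO.Defs

/-!
Project RO, module CYN: the thin shape lemma (slope increments version).
-/

set_option autoImplicit false

namespace Pool.Agent.T6.H37.RO

open Filter Topology

/-- rotation by a quarter turn -/
def J (b : Pt) : Pt := (-b.2, b.1)

/-- the thin shape: abscissa `x` along `b`, height `d * y` along `J b` -/
def thinPt {I : Type} (x y : I → ℝ) (b : Pt) (d : ℝ) (i : I) : Pt := x i • b + (d * y i) • J b

theorem closing {m : ℕ} [NeZero m] (f : ZMod m → ℝ) (hf : ∑ i, f i = 0) :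
    ∃ y : ZMod m → ℝ, ∀ i, y (i + 1) - y i = f i := by
  obtain ⟨n, rfl⟩ : ∃ n, m = n + 1 := ⟨m - 1, by have := NeZero.pos m; omega⟩
  refine ⟨fun i => ∑ k ∈ Finset.range i.val, f (k : ZMod (n + 1)), fun i => ?_⟩
  have hsum : ∑ k ∈ Finset.range (n + 1), f (k : ZMod (n + 1)) = 0 := by
    rw [← hf, ← Fin.sum_univ_eq_sum_range (fun k => f (k : ZMod (n + 1)))]
    refine Finset.sum_congr rfl fun i _ => ?_
    congr 1
    exact Fin.cast_val_eq_self i
  have hi : ((i.val : ℕ) : ZMod (n + 1)) = i := ZMod.natCast_zmod_val i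
  have hlt : i.val < n + 1 := ZMod.val_lt i
  by_cases h : i.val = n
  · have h0 : i + 1 = 0 := by
      rw [← hi, h]
      exact_mod_cast (ZMod.natCast_self (n + 1))
    simp only [h0, ZMod.val_zero, Finset.range_zero, Finset.sum_empty]
    rw [Finset.sum_range_succ] at hsum
    have hn : ((n : ℕ) : ZMod (n + 1)) = i := by rw [← hi, h]
    rw [hn] at hsum
    rw [h]
    linarith
  · have h1 : (i + 1).val = i.val + 1 := by
      have hone : (1 : ZMod (n + 1)).val = 1 := ZMod.val_one'' (by omega)
      rw [ZMod.val_add_of_lt (by rw [hone]; omega), hone]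
    simp only [h1]
    rw [Finset.sum_range_succ, hi]
    ring

/-- **Thin shape lemma.** -/
theorem thin {m : ℕ} [NeZero m] (x D : ZMod m → ℝ) (t : ZMod m → Bool) (α : ZMod m → Pt) (b : Pt)
    (hb : b ≠ 0) (hD : ∑ i, D i = 0) (hxD : ∑ i, x i * D i = 0) (hα : ∀ i, cr b (α i) ≠ 0)
    (h : ∀ i, (0 < (x (i + 1) - x i) * (x (i - 1) - x i) ∧ SgnB (t i) (D i)) ∨
      ((x (i + 1) - x i) * (x (i - 1) - x i) < 0 ∧
        SgnB (t i) ((x (i + 1) - x i) * cr b (α i)))) :
    ∃ y : ZMod m → ℝ, ∀ᶠ d in 𝓝[>] (0 : ℝ), ∀ i,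
      CcwB (t i) (thinPt x y b d (i - 1) - thinPt x y b d i)
        (thinPt x y b d (i + 1) - thinPt x y b d i) (α i) := by
  obtain ⟨s', hs'⟩ := closing D hD
  -- `s i` is the slope of the edge from `i` to `i + 1`
  obtain ⟨s, hs⟩ : ∃ s : ZMod m → ℝ, ∀ i, s i - s (i - 1) = D i := by
    refine ⟨fun i => s' (i + 1), fun i => ?_⟩
    have := hs' i
    simp only [sub_add_cancel]
    exact this
  have hclose : ∑ i, (x (i + 1) - x i) * s i = 0 := by
    have h1 : ∑ i, x (i + 1) * s i = ∑ i, x i * s (i - 1) := by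
      refine Fintype.sum_equiv (Equiv.addRight (1 : ZMod m)) _ _ fun i => ?_
      simp
    have h2 : ∑ i, (x (i + 1) - x i) * s i = ∑ i, x (i + 1) * s i - ∑ i, x i * s i := by
      rw [← Finset.sum_sub_distrib]
      exact Finset.sum_congr rfl fun i _ => by ring
    rw [h2, h1, ← Finset.sum_sub_distrib]
    have h3 : ∀ i, x i * s (i - 1) - x i * s i = - (x i * D i) := fun i => by
      rw [← hs i]; ring
    rw [Finset.sum_congr rfl fun i _ => h3 i, Finset.sum_neg_distrib, hxD, neg_zero]
  obtain ⟨y, hy⟩ := closing (fun i => (x (i + 1) - x i) * s i) hclose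
  refine ⟨y, ?_⟩
  rw [Filter.eventually_all]
  intro i
  have hN : 0 < b.1 * b.1 + b.2 * b.2 := by
    by_contra hcon
    apply hb
    have h1 : b.1 = 0 := by nlinarith [mul_self_nonneg b.1, mul_self_nonneg b.2]
    have h2 : b.2 = 0 := by nlinarith [mul_self_nonneg b.1, mul_self_nonneg b.2]
    exact Prod.ext h1 h2
  -- the limits
  have hev : ∀ c : ℝ, ∀ᶠ d in 𝓝[>] (0 : ℝ), 0 < cr b (α i) * (cr b (α i) + d * c * cr (J b) (α i)) := by
    intro c
    have hcont : Continuous fun d : ℝ =>
        cr b (α i) * (cr b (α i) + d * c * cr (J b) (α i)) := by fun_prop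
    have h0 : 0 < cr b (α i) * (cr b (α i) + 0 * c * cr (J b) (α i)) := by
      have := mul_self_pos.2 (hα i)
      simpa using this
    exact (hcont.tendsto 0).eventually_const_lt h0 |>.filter_mono nhdsWithin_le_nhds
  filter_upwards [hev (s i), hev (s (i - 1)), self_mem_nhdsWithin] with d h1 h2 hd
  rw [Set.mem_Ioi] at hd
  have hy1 := hy i
  have hy2 := hy (i - 1)
  simp only [sub_add_cancel] at hy2
  -- cross products
  have hX : cr (thinPt x y b d (i - 1) - thinPt x y b d i) (thinPt x y b d (i + 1) - thinPt x y b d i) =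
      (x (i + 1) - x i) * (x (i - 1) - x i) * (d * D i * (b.1 * b.1 + b.2 * b.2)) := by
    have e1 : y (i - 1) - y i = (x (i - 1) - x i) * s (i - 1) := by linarith
    have e2 : y (i + 1) - y i = (x (i + 1) - x i) * s i := hy1
    have e3 : D i = s i - s (i - 1) := (hs i).symm
    have e4 : cr (thinPt x y b d (i - 1) - thinPt x y b d i)
        (thinPt x y b d (i + 1) - thinPt x y b d i) =
        d * ((x (i - 1) - x i) * (y (i + 1) - y i) - (y (i - 1) - y i) * (x (i + 1) - x i)) *
          (b.1 * b.1 + b.2 * b.2) := by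
      simp only [cr, thinPt, J, Prod.fst_sub, Prod.snd_sub, Prod.fst_add, Prod.snd_add,
        Prod.smul_fst, Prod.smul_snd, smul_eq_mul]
      ring
    rw [e4, e1, e2, e3]; ring
  have hY : cr (thinPt x y b d (i + 1) - thinPt x y b d i) (α i) =
      (x (i + 1) - x i) * (cr b (α i) + d * s i * cr (J b) (α i)) := by
    have e4 : cr (thinPt x y b d (i + 1) - thinPt x y b d i) (α i) =
        (x (i + 1) - x i) * cr b (α i) + d * (y (i + 1) - y i) * cr (J b) (α i) := by
      simp only [cr, thinPt, J, Prod.fst_sub, Prod.snd_sub, Prod.fst_add, Prod.snd_add,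
        Prod.smul_fst, Prod.smul_snd, smul_eq_mul]
      ring
    rw [e4, hy1]; ring
  have hZ : cr (thinPt x y b d (i - 1) - thinPt x y b d i) (α i) =
      (x (i - 1) - x i) * (cr b (α i) + d * s (i - 1) * cr (J b) (α i)) := by
    have e1 : y (i - 1) - y i = (x (i - 1) - x i) * s (i - 1) := by linarith
    have e4 : cr (thinPt x y b d (i - 1) - thinPt x y b d i) (α i) =
        (x (i - 1) - x i) * cr b (α i) + d * (y (i - 1) - y i) * cr (J b) (α i) := by
      simp only [cr, thinPt, J, Prod.fst_sub, Prod.snd_sub, Prod.fst_add, Prod.snd_add,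
        Prod.smul_fst, Prod.smul_snd, smul_eq_mul]
      ring
    rw [e4, e1]; ring
  have anti : ∀ u v : Pt, cr v u = - cr u v := fun u v => by simp only [cr]; ring
  generalize hu : thinPt x y b d (i - 1) - thinPt x y b d i = u at *
  generalize hv : thinPt x y b d (i + 1) - thinPt x y b d i = v at *
  generalize ha : x (i - 1) - x i = a at *
  generalize hbb : x (i + 1) - x i = b' at *
  generalize hP1 : cr b (α i) + d * s i * cr (J b) (α i) = P1 at *
  generalize hP2 : cr b (α i) + d * s (i - 1) * cr (J b) (α i) = P2 at *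
  generalize hP : cr b (α i) = P at *
  have hdN : 0 < d * (b.1 * b.1 + b.2 * b.2) := mul_pos hd hN
  have hPne : P ≠ 0 := by rw [← hP]; exact hα i
  rcases h i with ⟨hsp, hsg⟩ | ⟨hfl, hsg⟩
  · -- spike
    rw [hbb, ha] at hsp
    have key : 0 < - (cr v (α i) * cr (α i) u) := by
      rw [hY, anti u (α i), hZ]
      have : 0 < (b' * a) * ((P * P1) * (P * P2)) := mul_pos hsp (mul_pos h1 h2)
      have e : (b' * a) * ((P * P1) * (P * P2)) = (P * P) * -(b' * P1 * -(a * P2)) := by ring
      rw [e] at this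
      exact (mul_pos_iff_of_pos_left (mul_self_pos.2 hPne)).1 this
    constructor
    · intro ht
      have hDp := hsg.1 ht
      have hpos : 0 < cr u v := by
        rw [hX]
        have : 0 < (b' * a) * (D i * (d * (b.1 * b.1 + b.2 * b.2))) :=
          mul_pos hsp (mul_pos hDp hdN)
        nlinarith
      -- exactly one of `cr v α`, `cr α u` positive
      rcases lt_or_ge 0 (cr v (α i)) with hv1 | hv1
      · exact Or.inl ⟨hpos, hv1⟩
      · right; right
        refine ⟨?_, hpos⟩
        by_contra hcon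
        push Not at hcon
        have := mul_nonneg_of_nonpos_of_nonpos hv1 hcon
        linarith
    · intro ht
      have hDn := hsg.2 ht
      have hpos : 0 < cr v u := by
        rw [anti u v, hX]
        have : 0 < (b' * a) * (-D i * (d * (b.1 * b.1 + b.2 * b.2))) :=
          mul_pos hsp (mul_pos (by linarith) hdN)
        nlinarith
      rcases lt_or_ge 0 (cr u (α i)) with hv1 | hv1
      · exact Or.inl ⟨hpos, hv1⟩
      · right; right
        refine ⟨?_, hpos⟩
        by_contra hcon
        push Not at hcon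
        rw [anti u (α i)] at key
        rw [anti v (α i)] at hcon
        have : 0 ≤ cr v (α i) := by linarith
        nlinarith [mul_nonneg this (neg_nonneg.2 hv1)]
  · -- flat
    rw [hbb, ha] at hfl
    rw [hbb, hP] at hsg
    constructor
    · intro ht
      have hp := hsg.1 ht
      right; left
      constructor
      · rw [hY]
        have : 0 < (b' * P) * (P * P1) := mul_pos hp h1
        have e : (b' * P) * (P * P1) = (P * P) * (b' * P1) := by ring
        rw [e] at this
        exact (mul_pos_iff_of_pos_left (mul_self_pos.2 hPne)).1 this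
      · rw [anti u (α i), hZ]
        have hb0 : b' ≠ 0 := fun h0 => by rw [h0] at hp; simp at hp
        have : 0 < ((b' * P) * (P * P2)) * (-(b' * a)) := mul_pos (mul_pos hp h2) (by linarith)
        have e : ((b' * P) * (P * P2)) * (-(b' * a)) = (b' * P) * (b' * P) * -(a * P2) := by ring
        rw [e] at this
        exact (mul_pos_iff_of_pos_left (mul_self_pos.2 (mul_ne_zero hb0 hPne))).1 this
    · intro ht
      have hp := hsg.2 ht
      right; left
      constructor
      · rw [hZ]
        have hb0 : b' ≠ 0 := fun h0 => by rw [h0] at hp; simp at hp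
        have : 0 < (-(b' * P) * (P * P2)) * (-(b' * a)) :=
          mul_pos (mul_pos (by linarith) h2) (by linarith)
        have e : (-(b' * P) * (P * P2)) * (-(b' * a)) = (b' * P) * (b' * P) * (a * P2) := by ring
        rw [e] at this
        exact (mul_pos_iff_of_pos_left (mul_self_pos.2 (mul_ne_zero hb0 hPne))).1 this
      · rw [anti v (α i), hY]
        have : 0 < (-(b' * P)) * (P * P1) := mul_pos (by linarith) h1
        have e : (-(b' * P)) * (P * P1) = (P * P) * -(b' * P1) := by ring
        rw [e] at this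
        exact (mul_pos_iff_of_pos_left (mul_self_pos.2 hPne)).1 this

/-- the differences of the points of the thin shape keep their side, for small `d` -/
theorem thin_side {m : ℕ} (x y : ZMod m → ℝ) (b g : Pt) (i j : ZMod m) (o : Bool)
    (h : SgnB o ((x j - x i) * cr b g)) :
    ∀ᶠ d in 𝓝[>] (0 : ℝ), SgnB o (cr (thinPt x y b d j - thinPt x y b d i) g) := by
  have hcont : Continuous fun d : ℝ => cr (thinPt x y b d j - thinPt x y b d i) g := by
    simp only [cr, thinPt, J, Prod.fst_sub, Prod.snd_sub, Prod.fst_add, Prod.snd_add,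
        Prod.smul_fst, Prod.smul_snd, smul_eq_mul]
    fun_prop
  have h0 : cr (thinPt x y b 0 j - thinPt x y b 0 i) g = (x j - x i) * cr b g := by
    simp only [cr, thinPt, J, Prod.fst_sub, Prod.snd_sub, Prod.fst_add, Prod.snd_add,
        Prod.smul_fst, Prod.smul_snd, smul_eq_mul]
    ring
  have ht := hcont.tendsto 0
  simp only [h0] at ht
  cases o with
  | true =>
    have := (ht.eventually_const_lt (h.1 rfl)).filter_mono (nhdsWithin_le_nhds (s := Set.Ioi 0))
    filter_upwards [this] with d hd
    exact ⟨fun _ => hd, fun h => by simp at h⟩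
  | false =>
    have := (ht.eventually_lt_const (h.2 rfl)).filter_mono (nhdsWithin_le_nhds (s := Set.Ioi 0))
    filter_upwards [this] with d hd
    exact ⟨fun h => by simp at h, fun _ => hd⟩

/-! ### choice of the direction `b` -/

theorem cr_J_ne {u a : Pt} (hu : u ≠ 0) (ha : a ≠ 0) (h : cr u a = 0) : cr (J u) a ≠ 0 := by
  intro h2
  have h3 : (u.1 * u.1 + u.2 * u.2) * (a.1 * a.1 + a.2 * a.2) = 0 := by
    have e : (u.1 * u.1 + u.2 * u.2) * (a.1 * a.1 + a.2 * a.2) =
        (cr u a) * (cr u a) + (cr (J u) a) * (cr (J u) a) := by simp only [cr, J]; ring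
    rw [e, h, h2]; ring
  rcases mul_eq_zero.1 h3 with h4 | h4
  · apply hu
    have h5 : u.1 = 0 := by nlinarith [mul_self_nonneg u.1, mul_self_nonneg u.2]
    have h6 : u.2 = 0 := by nlinarith [mul_self_nonneg u.1, mul_self_nonneg u.2]
    exact Prod.ext h5 h6
  · apply ha
    have h5 : a.1 = 0 := by nlinarith [mul_self_nonneg a.1, mul_self_nonneg a.2]
    have h6 : a.2 = 0 := by nlinarith [mul_self_nonneg a.1, mul_self_nonneg a.2]
    exact Prod.ext h5 h6

/-- moving `u` a little makes it non-parallel to finitely many given vectors and keeps finitely many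
sign conditions -/
theorem dir_exists {I K : Type} [Finite I] [Finite K] (α : I → Pt) (hα : ∀ i, α i ≠ 0) (u : Pt)
    (hu : u ≠ 0) (β : K → Pt) (t : K → Bool) (h : ∀ k, SgnB (t k) (cr u (β k))) :
    ∃ b : Pt, b ≠ 0 ∧ (∀ i, cr b (α i) ≠ 0) ∧ ∀ k, SgnB (t k) (cr b (β k)) := by
  have hcr : ∀ (d : ℝ) (a : Pt), cr (u + d • J u) a = cr u a + d * cr (J u) a := fun d a => by
    simp only [cr, J, Prod.fst_add, Prod.snd_add, Prod.smul_fst, Prod.smul_snd, smul_eq_mul]
    ring
  have h1 : ∀ i, ∀ᶠ d in 𝓝[>] (0 : ℝ), cr (u + d • J u) (α i) ≠ 0 := by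
    intro i
    by_cases h0 : cr u (α i) = 0
    · have h2 := cr_J_ne hu (hα i) h0
      filter_upwards [self_mem_nhdsWithin] with d hd
      rw [Set.mem_Ioi] at hd
      rw [hcr, h0, zero_add]
      exact mul_ne_zero hd.ne' h2
    · have hcont : Continuous fun d : ℝ => cr u (α i) + d * cr (J u) (α i) := by fun_prop
      have ht := hcont.tendsto 0
      simp only [zero_mul, add_zero] at ht
      have := (ht.eventually_ne h0).filter_mono (nhdsWithin_le_nhds (s := Set.Ioi 0))
      filter_upwards [this] with d hd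
      rw [hcr]; exact hd
  have h2 : ∀ k, ∀ᶠ d in 𝓝[>] (0 : ℝ), SgnB (t k) (cr (u + d • J u) (β k)) := by
    intro k
    have hcont : Continuous fun d : ℝ => cr u (β k) + d * cr (J u) (β k) := by fun_prop
    have ht := hcont.tendsto 0
    simp only [zero_mul, add_zero] at ht
    have hk := h k
    revert hk
    cases t k with
    | true =>
      intro hk
      have := (ht.eventually_const_lt (hk.1 rfl)).filter_mono
        (nhdsWithin_le_nhds (s := Set.Ioi 0))
      filter_upwards [this] with d hd
      refine ⟨fun _ => by rw [hcr]; exact hd, fun h => by simp at h⟩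
    | false =>
      intro hk
      have := (ht.eventually_lt_const (hk.2 rfl)).filter_mono
        (nhdsWithin_le_nhds (s := Set.Ioi 0))
      filter_upwards [this] with d hd
      refine ⟨fun h => by simp at h, fun _ => by rw [hcr]; exact hd⟩
  have h3 : ∀ᶠ d in 𝓝[>] (0 : ℝ), u + d • J u ≠ 0 := by
    filter_upwards with d hcon
    have e : (u + d • J u).1 * (u + d • J u).1 + (u + d • J u).2 * (u + d • J u).2 =
        (1 + d * d) * (u.1 * u.1 + u.2 * u.2) := by
      simp only [J, Prod.fst_add, Prod.snd_add, Prod.smul_fst, Prod.smul_snd, smul_eq_mul]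
      ring
    rw [hcon] at e
    simp only [Prod.fst_zero, Prod.snd_zero, mul_zero, add_zero] at e
    rcases mul_eq_zero.1 e.symm with h4 | h4
    · nlinarith [mul_self_nonneg d]
    · apply hu
      have h5 : u.1 = 0 := by nlinarith [mul_self_nonneg u.1, mul_self_nonneg u.2]
      have h6 : u.2 = 0 := by nlinarith [mul_self_nonneg u.1, mul_self_nonneg u.2]
      exact Prod.ext h5 h6
  obtain ⟨d, hd1, hd2, hd3⟩ :=
    ((Filter.eventually_all.2 h1).and ((Filter.eventually_all.2 h2).and h3)).exists
  exact ⟨u + d • J u, hd3, hd1, hd2⟩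

/-- `+1` or `-1` -/
def sg (b : Bool) : ℝ := if b then 1 else -1

@[simp] theorem sg_true : sg true = 1 := by simp [sg]
@[simp] theorem sg_false : sg false = -1 := by simp [sg]
theorem sg_mul_self (b : Bool) : sg b * sg b = 1 := by cases b <;> simp
theorem sg_ne (b : Bool) : sg b ≠ 0 := by cases b <;> simp
theorem sg_not (b : Bool) : sg (!b) = - sg b := by cases b <;> simp
theorem SgnB_sg_mul (b : Bool) {r : ℝ} (hr : 0 < r) : SgnB b (sg b * r) := by
  cases b
  · exact ⟨fun h => by simp at h, fun _ => by simpa using hr⟩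
  · exact ⟨fun _ => by simpa using hr, fun h => by simp at h⟩

/-- one sign condition -/
theorem dir_one {I : Type} [Finite I] (α : I → Pt) (hα : ∀ i, α i ≠ 0) (v : Pt) (hv : v ≠ 0)
    (o : Bool) : ∃ b : Pt, b ≠ 0 ∧ (∀ i, cr b (α i) ≠ 0) ∧ SgnB o (cr b v) := by
  have hN : 0 < v.1 * v.1 + v.2 * v.2 := by
    by_contra hcon
    apply hv
    have h1 : v.1 = 0 := by nlinarith [mul_self_nonneg v.1, mul_self_nonneg v.2]
    have h2 : v.2 = 0 := by nlinarith [mul_self_nonneg v.1, mul_self_nonneg v.2]
    exact Prod.ext h1 h2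
  have hcr : cr (sg o • ((v.2, -v.1) : Pt)) v = sg o * (v.1 * v.1 + v.2 * v.2) := by
    simp only [cr, Prod.smul_fst, Prod.smul_snd, smul_eq_mul]; ring
  obtain ⟨b, h1, h2, h3⟩ := dir_exists α hα (sg o • ((v.2, -v.1) : Pt)) (by
    intro h0
    rw [h0] at hcr
    simp only [cr, Prod.fst_zero, Prod.snd_zero, zero_mul, sub_zero] at hcr
    rcases mul_eq_zero.1 hcr.symm with h4 | h4
    · exact sg_ne o h4
    · exact hN.ne' h4) (fun _ : Unit => v) (fun _ => o)
    (fun _ => by rw [hcr]; exact SgnB_sg_mul o hN)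
  exact ⟨b, h1, h2, h3 ()⟩

/-- two independent sign conditions -/
theorem dir_two {I : Type} [Finite I] (α : I → Pt) (hα : ∀ i, α i ≠ 0) (v w : Pt)
    (hvw : cr v w ≠ 0) (o o' : Bool) :
    ∃ b : Pt, b ≠ 0 ∧ (∀ i, cr b (α i) ≠ 0) ∧ SgnB o (cr b v) ∧ SgnB o' (cr b w) := by
  set u : Pt := (sg o' / cr v w) • v + (-(sg o) / cr v w) • w with hu
  have h1 : cr u v = sg o * 1 := by
    have : cr u v = (-(sg o) / cr v w) * cr w v := by
      rw [hu]; simp only [cr, Prod.fst_add, Prod.snd_add, Prod.smul_fst, Prod.smul_snd, smul_eq_mul]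
      ring
    rw [this]
    have e : cr w v = - cr v w := by simp only [cr]; ring
    rw [e]; field_simp
  have h2 : cr u w = sg o' * 1 := by
    have : cr u w = (sg o' / cr v w) * cr v w := by
      rw [hu]; simp only [cr, Prod.fst_add, Prod.snd_add, Prod.smul_fst, Prod.smul_snd, smul_eq_mul]
      ring
    rw [this]; field_simp
  have hu0 : u ≠ 0 := by
    intro h0
    rw [h0] at h1
    simp only [cr, Prod.fst_zero, Prod.snd_zero, zero_mul, sub_zero, mul_one] at h1
    exact sg_ne o h1.symm
  obtain ⟨b, hb0, hb1, hb2⟩ := dir_exists α hα u hu0 (fun k : Bool => if k then v else w)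
    (fun k => if k then o else o') (fun k => by
      cases k
      · simpa using h2 ▸ SgnB_sg_mul o' one_pos
      · simpa using h1 ▸ SgnB_sg_mul o one_pos)
  exact ⟨b, hb0, hb1, by simpa using hb2 true, by simpa using hb2 false⟩

end Pool.Agent.T6.H37.RO
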