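import Pool.Agent.T6.H37.RO.StepC

/-!
Project RO: two problematic 4-cycles joined by four edges, and the main induction.
-/

set_option autoImplicit false

namespace Pool.Agent.T6.H37.RO

variable {V : Type}

/-- number of vertices which are not alone in their class -/
noncomputable def nonAlone [Fintype V] (κ : V → ℕ) : ℕ := by
  classical
  exact (Finset.univ.filter fun v => ∃ u, u ≠ v ∧ κ u = κ v).card

theorem nonAlone_lt [Fintype V] {κ κ' : V → ℕ} {K : Set V} (h : Splits κ κ' K) {x y : V}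
    (hx : x ∈ K) (hxy : y ≠ x) (hk : κ y = κ x) : nonAlone κ' < nonAlone κ := by
  classical
  unfold nonAlone
  apply Finset.card_lt_card
  rw [Finset.ssubset_iff_of_subset]
  · refine ⟨x, by simpa using ⟨y, hxy, hk⟩, ?_⟩
    simp only [Finset.mem_filter, Finset.mem_univ, true_and, not_exists, not_and]
    intro u hu hu2
    rcases (h u x).1 hu2 with h1 | ⟨-, h1, -⟩
    · exact hu h1
    · exact h1 hx
  · intro v hv
    simp only [Finset.mem_filter, Finset.mem_univ, true_and] at hv ⊢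
    obtain ⟨u, hu, hu2⟩ := hv
    rcases (h u v).1 hu2 with h1 | ⟨-, -, h1⟩
    · exact absurd h1 hu
    · exact ⟨u, hu, h1⟩

theorem nonAlone_zero [Fintype V] {κ : V → ℕ} (h : nonAlone κ = 0) : Function.Injective κ := by
  classical
  unfold nonAlone at h
  rw [Finset.card_eq_zero, Finset.filter_eq_empty_iff] at h
  intro u v huv
  by_contra hne
  exact h (Finset.mem_univ v) ⟨u, hne, huv⟩

/-- two problematic 4-cycles joined by four edges -/
theorem stepP [Fintype V] (hPER : StmtPER) (hPAI : StmtPAI) (r : Rot V) (κ : V → ℕ)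
    (p : V → Pt) (hp : State r κ p) (z z' : ZMod 4 → V) (hz : IsCyc r κ 4 z)
    (hz' : IsCyc r κ 4 z') (e : ZMod 4 → V) (t : ZMod 4 → Bool) (hd : CycData r κ 4 z e t)
    (ht : ∀ i, t (i + 1) = !(t i)) (e' : ZMod 4 → V) (t' : ZMod 4 → Bool)
    (hd' : CycData r κ 4 z' e' t') (ht' : ∀ i, t' (i + 1) = !(t' i))
    (hno : ∀ v, κ v ≠ κ (z 0) → ∀ i j, i ≠ j → κ (r.n i v) = κ (z 0) →
      κ (r.n j v) = κ (z 0) → False)
    (hne : κ (z' 0) ≠ κ (z 0)) (hez : ∀ i, κ (e i) = κ (z' 0)) :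
    ∃ (κ' : V → ℕ) (p' : V → Pt), Splits κ κ' {v | κ v = κ (z 0) ∨ κ v = κ (z' 0)} ∧
      State r κ' p' := by
  classical
  -- the matching
  have hg : ∀ i, ∃ j, z' j = e i := fun i => (hz'.2.2.2.1 (e i)).1 (hez i)
  choose g hg using hg
  have ginj : Function.Injective g := by
    intro i j hij
    by_contra hne'
    have he : e i = e j := by rw [← hg, ← hg, hij]
    obtain ⟨a, ha⟩ : r.Adj (e i) (z i) := r.adj_symm (hd i).2.1
    obtain ⟨b, hb⟩ : r.Adj (e i) (z j) := by rw [he]; exact r.adj_symm (hd j).2.1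
    have hab : a ≠ b := by
      rintro rfl
      exact hne' (hz.2.1 (ha.symm.trans hb))
    exact hno (e i) (hd i).2.2.1 a b hab (by rw [ha]; exact hz.mem _) (by rw [hb]; exact hz.mem _)
  let G : Equiv.Perm (ZMod 4) := Equiv.ofBijective g (Finite.injective_iff_bijective.1 ginj)
  have hG : ∀ i, z' (G i) = e i := hg
  have he' : ∀ i, e' (G i) = z i := by
    intro i
    have hadj : r.Adj (z i) (z' (G i)) := by rw [hG]; exact (hd i).2.1
    exact (hz'.eq_e hd' (by rw [hz.mem]; exact hne.symm) hadj).symm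
  obtain ⟨q, q', hq, hq'⟩ := hPAI G t t' ht ht'
  -- the new placement
  let K : Set V := {v | κ v = κ (z 0) ∨ κ v = κ (z' 0)}
  let p₁ : V → Pt := fun v => if κ v = κ (z 0) then Function.extend z q (fun _ => 0) v
    else if κ v = κ (z' 0) then Function.extend z' q' (fun _ => 0) v else p v
  have hp1 : ∀ i, p₁ (z i) = q i := by
    intro i
    show (if κ (z i) = κ (z 0) then _ else _) = _
    rw [if_pos (hz.mem i)]
    exact hz.2.1.extend_apply _ _ _
  have hp2 : ∀ i, p₁ (z' i) = q' i := by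
    intro i
    show (if κ (z' i) = κ (z 0) then _ else _) = _
    rw [if_neg (by rw [hz'.mem]; exact hne), if_pos (hz'.mem i)]
    exact hz'.2.1.extend_apply _ _ _
  have hp3 : ∀ v, v ∉ K → p₁ v = p v := by
    intro v hv
    have h1 : ¬ (κ v = κ (z 0) ∨ κ v = κ (z' 0)) := hv
    rw [not_or] at h1
    show (if κ v = κ (z 0) then _ else _) = _
    rw [if_neg h1.1, if_neg h1.2]
  obtain ⟨κ', hκ'⟩ := exists_splits κ K
  have hpre : PreState r κ' p₁ := by
    constructor
    · intro u v huv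
      rcases (hκ' u v).1 huv with rfl | ⟨hu, hv, h⟩
      · rfl
      · rw [hp3 u hu, hp3 v hv, hp.1.1 u v h]
    · intro v hv
      by_cases h1 : κ v = κ (z 0)
      · obtain ⟨i, rfl⟩ := (hz.2.2.2.1 v).1 h1
        rw [(hd i).1.good_iff, ← hG i, hp1, hp1, hp1, hp2]
        exact hq i
      · by_cases h2 : κ v = κ (z' 0)
        · obtain ⟨j, rfl⟩ := (hz'.2.2.2.1 v).1 h2
          obtain ⟨i, rfl⟩ := G.surjective j
          rw [(hd' (G i)).1.good_iff, he' i, hp2, hp2, hp2, hp1]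
          exact hq' i
        · have hvK : v ∉ K := by
            intro h
            rcases h with h | h
            · exact h1 h
            · exact h2 h
          have hnK : ∀ i, r.n i v ∉ K := by
            intro i hi
            rcases hi with hi | hi
            · obtain ⟨j, hj⟩ := (hz.2.2.2.1 _).1 hi
              have hadj : r.Adj v (z j) := by rw [hj]; exact r.adj_n v i
              have := hz.eq_e hd h1 hadj
              exact h2 (by rw [this]; exact hez j)
            · obtain ⟨j, hj⟩ := (hz'.2.2.2.1 _).1 hi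
              obtain ⟨k, rfl⟩ := G.surjective j
              have hadj : r.Adj v (z' (G k)) := by rw [hj]; exact r.adj_n v i
              have := hz'.eq_e hd' h2 hadj
              rw [he' k] at this
              exact h1 (by rw [this]; exact hz.mem _)
          have hr : Rainbow r κ v := by
            constructor
            · intro i hi
              exact hv.1 i ((hκ' _ _).2 (Or.inr ⟨hnK i, hvK, hi⟩))
            · intro i j hij
              exact hv.2 i j ((hκ' _ _).2 (Or.inr ⟨hnK i, hnK j, hij⟩))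
          have := hp.1.2 v hr
          unfold Good at this ⊢
          rw [hp3 _ hvK, hp3 _ (hnK 0), hp3 _ (hnK 1), hp3 _ (hnK 2)]
          exact this
  obtain ⟨p', hp'⟩ := hPER V r κ' p₁ hpre
  exact ⟨κ', p', hκ', hp'⟩

theorem Cluster.of_struct {r : Rot V} {κ : V → ℕ} (hs : Struct r κ) {u v : V} (huv : u ≠ v)
    (hk : κ u = κ v) : Cluster r κ v := by
  rcases hs v with ⟨h1, -⟩ | h
  · exact absurd (h1 u hk) huv
  · exact h

/-- one step: some class splits -/
theorem step [Fintype V] (hBLO : StmtBLO) (hPER : StmtPER) (hCYC : StmtCYC) (hFOU : StmtFOU)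
    (hDIA : StmtDIA) (hDIF : StmtDIF) (hKFS : StmtKFS) (hPAI : StmtPAI) (hSPL : StmtSPL)
    (r : Rot V) (hE : EvenKFour r) (κ : V → ℕ) (p : V → Pt) (hs : Struct r κ)
    (hp : State r κ p) (x y : V) (hxy : y ≠ x) (hk : κ y = κ x) :
    ∃ (κ' : V → ℕ) (p' : V → Pt), Struct r κ' ∧ State r κ' p' ∧ nonAlone κ' < nonAlone κ := by
  classical
  have hone : ∀ v, (∃ (κ' : V → ℕ) (p' : V → Pt), Splits κ κ' {u | κ u = κ v} ∧
      State r κ' p') → (∃ u, u ≠ v ∧ κ u = κ v) →
      ∃ (κ' : V → ℕ) (p' : V → Pt), Struct r κ' ∧ State r κ' p' ∧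
        nonAlone κ' < nonAlone κ := by
    rintro v ⟨κ', p', h1, h2⟩ ⟨u, hu, huk⟩
    refine ⟨κ', p', hSPL V r κ κ' {u | κ u = κ v} hs ?_ h1, h2,
      nonAlone_lt h1 (x := v) (y := u) rfl hu huk⟩
    intro a b ha hab
    show κ b = κ v
    rw [← hab]; exact ha
  -- every cluster splits or is a problematic cycle
  have hcl : ∀ v, Cluster r κ v →
      (∃ (κ' : V → ℕ) (p' : V → Pt), Splits κ κ' {u | κ u = κ v} ∧ State r κ' p') ∨
      ∃ z' : ZMod 4 → V, Problem r κ z' ∧ κ (z' 0) = κ v := by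
    rintro v (⟨m, z, hz, i, rfl⟩ | ⟨w, hw, i, rfl⟩ | ⟨w, hw, i, rfl⟩ | ⟨w, hw, i, rfl⟩)
    · rw [hz.mem i]
      exact stepC hBLO hPER hFOU hCYC r κ p hs hp z hz
    · have hm : κ (w i) = κ (w 0) := (hw.2.2.2.2.2.2.2 _).2 ⟨i, rfl⟩
      rw [hm]
      exact Or.inl (stepD hBLO hPER hDIA r κ p hs hp w hw)
    · have hm : κ (w i) = κ (w 0) := (hw.2.2.2.2.2.2.2.2 _).2 ⟨i, rfl⟩
      rw [hm]
      exact Or.inl (stepF hBLO hPER hDIF r κ p hs hp w hw)
    · have hm : κ (w i) = κ (w 0) := (hw.2.2 _).2 ⟨i, rfl⟩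
      rw [hm]
      exact Or.inl (stepK hBLO hPER hKFS r κ p hE hs hp w hw)
  by_cases hex : ∃ v u, u ≠ v ∧ κ u = κ v ∧ ∃ (κ' : V → ℕ) (p' : V → Pt),
      Splits κ κ' {u | κ u = κ v} ∧ State r κ' p'
  · obtain ⟨v, u, hu, huk, h⟩ := hex
    exact hone v h ⟨u, hu, huk⟩
  · have hprob : ∀ v u, u ≠ v → κ u = κ v → ∃ z' : ZMod 4 → V, Problem r κ z' ∧
        κ (z' 0) = κ v := by
      intro v u hu huk
      rcases hcl v (Cluster.of_struct hs hu huk) with h | h
      · exact absurd ⟨v, u, hu, huk, h⟩ hex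
      · exact h
    obtain ⟨z, ⟨hz, e, t, hd, hal, hke, hno⟩, hzx⟩ := hprob x y hxy hk
    -- `e 0` and `e 1` are different
    have he01 : e 0 ≠ e 1 := by
      intro he
      obtain ⟨a, ha⟩ : r.Adj (e 0) (z 0) := r.adj_symm (hd 0).2.1
      obtain ⟨b, hb⟩ : r.Adj (e 0) (z 1) := by rw [he]; exact r.adj_symm (hd 1).2.1
      have hab : a ≠ b := by
        rintro rfl
        have := hz.2.1 (ha.symm.trans hb)
        revert this; decide
      exact hno (e 0) (hd 0).2.2.1 a b hab (by rw [ha]) (by rw [hb]; exact hz.mem _)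
    obtain ⟨z', ⟨hz', e', t', hd', hal', -, -⟩, hz'e⟩ := hprob (e 0) (e 1) he01.symm (hke 1 0)
    have hne : κ (z' 0) ≠ κ (z 0) := by rw [hz'e]; exact (hd 0).2.2.1
    obtain ⟨κ', p', h1, h2⟩ := stepP hPER hPAI r κ p hp z z' hz hz' e t hd hal e' t' hd' hal'
      hno hne (fun i => by rw [hz'e]; exact hke i 0)
    refine ⟨κ', p', hSPL V r κ κ' _ hs ?_ h1, h2, ?_⟩
    · intro a b ha hab
      show κ b = κ (z 0) ∨ κ b = κ (z' 0)
      rw [← hab]; exact ha
    · exact nonAlone_lt h1 (x := x) (y := y) (Or.inl hzx.symm) hxy hk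

theorem core (hINI : StmtINI) (hBLO : StmtBLO) (hPER : StmtPER) (hCYC : StmtCYC)
    (hFOU : StmtFOU) (hDIA : StmtDIA) (hDIF : StmtDIF) (hKFS : StmtKFS) (hPAI : StmtPAI)
    (hDEC : StmtDEC) (hSPL : StmtSPL) : StmtCORE := by
  intro V _ r hE
  obtain ⟨κ₀, hs₀, ho₀⟩ := hDEC V r
  obtain ⟨p₀, hp₀⟩ := hINI V r κ₀ hs₀ ho₀
  have key : ∀ n : ℕ, ∀ (κ : V → ℕ) (p : V → Pt), nonAlone κ = n → Struct r κ →
      State r κ p → ∃ (κ' : V → ℕ) (p' : V → Pt), Function.Injective κ' ∧ State r κ' p' := by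
    intro n
    induction n using Nat.strong_induction_on with
    | _ n ih =>
      intro κ p hn hs hp
      by_cases hinj : Function.Injective κ
      · exact ⟨κ, p, hinj, hp⟩
      · obtain ⟨y, x, hyx, hne⟩ : ∃ y x, κ y = κ x ∧ y ≠ x := by
          by_contra hcon
          apply hinj
          intro a b hab
          by_contra h
          exact hcon ⟨a, b, hab, h⟩
        obtain ⟨κ', p', h1, h2, h3⟩ := step hBLO hPER hCYC hFOU hDIA hDIF hKFS hPAI hSPL r hE
          κ p hs hp x y hne hyx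
        exact ih _ (hn ▸ h3) κ' p' rfl h1 h2
  obtain ⟨κ, p, hinj, hp⟩ := key _ κ₀ p₀ rfl hs₀ hp₀
  refine ⟨p, ?_, ?_, ?_⟩
  · intro v
    apply hp.1.2 v
    exact ⟨fun i h => r.irr v i (hinj h), fun i j h => r.inj v i j (hinj h)⟩
  · intro u v huv
    by_contra hne
    exact hp.2.1 u v (fun h => hne (hinj h)) huv
  · intro u v w h1 h2 h3
    exact hp.2.2 u v w (fun h => h1 (hinj h)) (fun h => h2 (hinj h)) (fun h => h3 (hinj h))

end Pool.Agent.T6.H37.RO
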