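import Pool.Agent.T6.H37.RO.Defs

set_option autoImplicit false

/-! Module MIN: shortest cycles. -/

namespace Pool.Agent.T6.H37.RO
namespace ModMIN

variable {V : Type}

lemma adj_symm (r : Rot V) {u v : V} (h : r.Adj u v) : r.Adj v u := by
  obtain ⟨i, rfl⟩ := h
  obtain ⟨j, hj⟩ := r.symm u i
  exact ⟨j, hj⟩

lemma adj_irr (r : Rot V) {u v : V} (h : r.Adj u v) : u ≠ v := by
  obtain ⟨i, rfl⟩ := h
  exact (r.irr u i).symm

/-- a cycle of length `m` in `S` -/
def HasC (r : Rot V) (S : Finset V) (m : ℕ) : Prop :=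
  3 ≤ m ∧ ∃ f : ℕ → V, (∀ k < m, f k ∈ S) ∧ (∀ k < m, ∀ l < m, f k = f l → k = l) ∧
    (∀ k, k + 1 < m → r.Adj (f k) (f (k + 1))) ∧ r.Adj (f (m - 1)) (f 0)

lemma exists_cycle [Fintype V] (r : Rot V) (S : Finset V) (hne : S.Nonempty)
    (hS : ∀ v ∈ S, ∃ i j, i ≠ j ∧ r.n i v ∈ S ∧ r.n j v ∈ S) : ∃ m, HasC r S m := by
  classical
  have hg : ∀ u v : V, ∃ w, v ∈ S → (w ∈ S ∧ r.Adj v w ∧ w ≠ u) := by
    intro u v
    by_cases hv : v ∈ S
    · obtain ⟨i, j, hij, hi, hj⟩ := hS v hv
      by_cases h : r.n i v = u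
      · refine ⟨r.n j v, fun _ => ⟨hj, ⟨j, rfl⟩, ?_⟩⟩
        intro h'
        exact hij (r.inj v i j (h.trans h'.symm))
      · exact ⟨r.n i v, fun _ => ⟨hi, ⟨i, rfl⟩, h⟩⟩
    · exact ⟨v, fun h => absurd h hv⟩
  choose g hg using hg
  obtain ⟨v0, hv0⟩ := hne
  let F : ℕ → V × V := fun k => Nat.rec (v0, v0) (fun _ p => (p.2, g p.1 p.2)) k
  have hF : ∀ k, F (k + 1) = ((F k).2, g (F k).1 (F k).2) := fun k => rfl
  have hFS : ∀ k, (F k).2 ∈ S := by
    intro k
    induction k with
    | zero => exact hv0
    | succ k ih => rw [hF]; exact (hg _ _ ih).1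
  let f : ℕ → V := fun k => (F k).2
  have fS : ∀ k, f k ∈ S := hFS
  have fA : ∀ k, r.Adj (f k) (f (k + 1)) := by
    intro k
    show r.Adj (F k).2 (F (k + 1)).2
    rw [hF]
    exact (hg _ _ (hFS k)).2.1
  have fB : ∀ k, f (k + 2) ≠ f k := by
    intro k
    show (F (k + 1 + 1)).2 ≠ (F k).2
    rw [hF (k + 1)]
    have h1 : (F (k + 1)).1 = (F k).2 := by rw [hF]
    have := (hg (F (k + 1)).1 (F (k + 1)).2 (hFS (k + 1))).2.2
    rw [h1] at this ⊢
    exact this
  have hex : ∃ d : ℕ, 0 < d ∧ ∃ i, f i = f (i + d) := by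
    obtain ⟨a, b, hab, h⟩ := Finite.exists_ne_map_eq_of_infinite f
    rcases lt_or_gt_of_ne hab with h1 | h1
    · exact ⟨b - a, by omega, a, by rw [h]; congr 1; omega⟩
    · exact ⟨a - b, by omega, b, by rw [← h]; congr 1; omega⟩
  classical
  obtain ⟨hd0, i, hi⟩ := Nat.find_spec hex
  have hmin : ∀ d', d' < Nat.find hex → ¬ (0 < d' ∧ ∃ i, f i = f (i + d')) :=
    fun d' h => Nat.find_min hex h
  generalize Nat.find hex = d at hd0 hi hmin
  have hd3 : 3 ≤ d := by
    by_contra hcon
    have : d = 1 ∨ d = 2 := by omega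
    rcases this with rfl | rfl
    · exact adj_irr r (fA i) hi
    · exact fB i hi.symm
  refine ⟨d, hd3, fun k => f (i + k), fun k _ => fS _, ?_, ?_, ?_⟩
  · intro k hk l hl hkl
    by_contra hne
    rcases lt_or_gt_of_ne hne with h1 | h1
    · exact hmin (l - k) (by omega) ⟨by omega, i + k, by
        rw [show i + k + (l - k) = i + l by omega]; exact hkl⟩
    · exact hmin (k - l) (by omega) ⟨by omega, i + l, by
        rw [show i + l + (k - l) = i + k by omega]; exact hkl.symm⟩
  · intro k _
    exact fA (i + k)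
  · have := fA (i + (d - 1))
    rw [show i + (d - 1) + 1 = i + d by omega, ← hi] at this
    exact this

end ModMIN

open ModMIN in
theorem min : StmtMIN := by
  classical
  intro V _ _ r S hne hS
  have hex := exists_cycle r S hne hS
  obtain ⟨hm3, f, fS, fI, fA, fL⟩ := Nat.find_spec hex
  have hmin : ∀ m', HasC r S m' → Nat.find hex ≤ m' := fun m' h => Nat.find_min' hex h
  generalize Nat.find hex = m at hm3 fS fI fA fL hmin
  have hm0 : NeZero m := ⟨by omega⟩
  have hlt : ∀ k : ℕ, k < m → ((k : ℕ) : ZMod m).val = k := fun k hk => ZMod.val_cast_of_lt hk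
  let z : ZMod m → V := fun i => f i.val
  have zS : ∀ i, z i ∈ S := fun i => fS _ (ZMod.val_lt i)
  have zI : Function.Injective z := fun a b h =>
    ZMod.val_injective m (fI _ (ZMod.val_lt a) _ (ZMod.val_lt b) h)
  have zA : ∀ i, r.Adj (z i) (z (i + 1)) := by
    intro i
    have hi : i = ((i.val : ℕ) : ZMod m) := (ZMod.natCast_zmod_val i).symm
    have hi1 : i + 1 = ((i.val + 1 : ℕ) : ZMod m) := by
      push_cast; rw [← hi]
    show r.Adj (f i.val) (f (i + 1).val)
    have hlt' := ZMod.val_lt i
    by_cases h : i.val + 1 < m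
    · rw [hi1, hlt _ h]
      exact fA _ h
    · have h1 : i.val + 1 = m := by omega
      rw [hi1, h1, ZMod.natCast_self, ZMod.val_zero]
      rw [show i.val = m - 1 by omega]
      exact fL
  have hcast : ∀ k l : ℕ, k < m → l < m → ((k : ℕ) : ZMod m) = ((l : ℕ) : ZMod m) → k = l := by
    intro k l hk hl h
    rw [← hlt k hk, ← hlt l hl, h]
  -- a chord gives a shorter cycle
  have path : ∀ (a : ZMod m) (d : ℕ), 2 ≤ d → d < m → r.Adj (z (a + d)) (z a) → HasC r S (d + 1) := by
    intro a d h2 hd hadj
    refine ⟨by omega, fun k => z (a + k), fun k _ => zS _, ?_, ?_, ?_⟩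
    · intro k hk l hl hkl
      have := add_left_cancel (zI hkl)
      exact hcast k l (by omega) (by omega) this
    · intro k _
      have := zA (a + k)
      rw [add_assoc] at this
      simpa using this
    · simpa using hadj
  have out : ∀ (v : V) (a : ZMod m) (d : ℕ), v ∈ S → (∀ i, z i ≠ v) → 1 ≤ d → d < m →
      r.Adj v (z a) → r.Adj v (z (a + d)) → HasC r S (d + 2) := by
    intro v a d hv hvz h1 hd h2 h3
    refine ⟨by omega, fun k => if k = 0 then v else z (a + ((k - 1 : ℕ) : ZMod m)), ?_, ?_, ?_, ?_⟩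
    · intro k _
      by_cases hk : k = 0
      · simp [hk, hv]
      · simp only [hk, if_false]; exact zS _
    · intro k hk l hl hkl
      by_cases hk0 : k = 0 <;> by_cases hl0 : l = 0
      · rw [hk0, hl0]
      · simp only [hk0, hl0, if_true, if_false] at hkl
        exact absurd hkl.symm (hvz _)
      · simp only [hk0, hl0, if_true, if_false] at hkl
        exact absurd hkl (hvz _)
      · simp only [hk0, hl0, if_false] at hkl
        have := hcast (k - 1) (l - 1) (by omega) (by omega) (add_left_cancel (zI hkl))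
        omega
    · intro k hk
      by_cases hk0 : k = 0
      · simp only [hk0, if_true]
        simpa using h2
      · simp only [hk0, if_false, Nat.succ_ne_zero]
        have := zA (a + ((k - 1 : ℕ) : ZMod m))
        rw [add_assoc] at this
        have e : ((k - 1 : ℕ) : ZMod m) + 1 = ((k + 1 - 1 : ℕ) : ZMod m) := by
          have : k + 1 - 1 = (k - 1) + 1 := by omega
          rw [this]; push_cast; rfl
        rw [e] at this
        exact this
    · simp only [if_true]
      have e : d + 2 - 1 = d + 1 := by omega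
      rw [e]
      simp only [Nat.succ_ne_zero, if_false]
      rw [show d + 1 - 1 = d by omega]
      exact adj_symm r h3
  have hdist : ∀ i j : ZMod m, j = i + (((j - i).val : ℕ) : ZMod m) := by
    intro i j
    rw [ZMod.natCast_zmod_val]; ring
  refine ⟨m, z, hm3, zI, zS, zA, ?_, ?_⟩
  · intro i j hij
    have hd := hdist i j
    have hlt' := ZMod.val_lt (j - i)
    generalize (j - i).val = d at hd hlt'
    rcases Nat.lt_or_ge d 2 with h | h
    · have : d = 0 ∨ d = 1 := by omega
      rcases this with rfl | rfl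
      · exfalso
        apply adj_irr r hij
        rw [hd]; simp
      · left; rw [hd]; simp
    · right
      have := hmin _ (path i d h hlt' (by rw [← hd]; exact adj_symm r hij))
      have hdm : d = m - 1 := by omega
      have h3 : (((d + 1 : ℕ)) : ZMod m) = 0 := by
        rw [show d + 1 = m by omega]; exact ZMod.natCast_self m
      push_cast at h3
      rw [hd, add_assoc, h3, add_zero]
  · by_cases hm : m = 3
    · left; exact hm
    · right
      intro v hv hvz i j hij hi hj
      have hd := hdist i j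
      have hd' := hdist j i
      have hlt1 := ZMod.val_lt (j - i)
      have hlt2 := ZMod.val_lt (i - j)
      have hsum : ((((j - i).val + (i - j).val : ℕ)) : ZMod m) = 0 := by
        push_cast
        rw [ZMod.natCast_zmod_val, ZMod.natCast_zmod_val]; ring
      generalize (j - i).val = d at hd hlt1 hsum
      generalize (i - j).val = d' at hd' hlt2 hsum
      have hd1 : 1 ≤ d := by
        rcases Nat.eq_zero_or_pos d with h | h
        · rw [h] at hd; exfalso; apply hij; rw [hd]; simp
        · exact h
      have hd1' : 1 ≤ d' := by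
        rcases Nat.eq_zero_or_pos d' with h | h
        · rw [h] at hd'; exfalso; apply hij; rw [hd']; simp
        · exact h
      have hdd : d + d' = m := by
        rw [ZMod.natCast_eq_zero_iff] at hsum
        obtain ⟨t, ht⟩ := hsum
        have : t = 1 := by
          have h1 : t < 2 := by
            by_contra hcon
            have : m * 2 ≤ m * t := Nat.mul_le_mul_left m (by omega)
            omega
          have h2 : t ≠ 0 := by
            intro h; rw [h] at ht; omega
          omega
        rw [this] at ht; omega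
      have b1 := hmin _ (out v i d hv hvz hd1 hlt1 hi (by rw [← hd]; exact hj))
      have b2 := hmin _ (out v j d' hv hvz hd1' hlt2 hj (by rw [← hd']; exact hi))
      have hm4 : m = 4 := by omega
      have hd2 : d = 2 := by omega
      refine ⟨hm4, ?_⟩
      rw [hd, hd2]; simp

end Pool.Agent.T6.H37.RO
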