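import Pool.Agent.T6.H37.RO.Defs

/-!
Module PER of the project RO (MP_8b4fe7_lc): perturbation into general position.
-/

set_option autoImplicit false

namespace Pool.Agent.T6.H37.RO

open Filter Topology

namespace PERx

variable {V : Type}

theorem Ccw_rot {x y z : Pt} (h : Ccw x y z) : Ccw y z x := by
  rcases h with h | h | h
  · exact Or.inr (Or.inr h)
  · exact Or.inl h
  · exact Or.inr (Or.inl h)

theorem cr_tendsto {ι : Type} {l : Filter ι} {f g : ι → Pt} {x y : Pt}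
    (hf : Tendsto f l (𝓝 x)) (hg : Tendsto g l (𝓝 y)) :
    Tendsto (fun t => cr (f t) (g t)) l (𝓝 (cr x y)) := by
  have h1 := (continuous_fst.tendsto x).comp hf
  have h2 := (continuous_snd.tendsto x).comp hf
  have h3 := (continuous_fst.tendsto y).comp hg
  have h4 := (continuous_snd.tendsto y).comp hg
  exact (h1.mul h4).sub (h2.mul h3)

/-- `Ccw` is an open condition -/
theorem Ccw_tendsto {ι : Type} {l : Filter ι} {f g h : ι → Pt} {x y z : Pt}
    (hf : Tendsto f l (𝓝 x)) (hg : Tendsto g l (𝓝 y)) (hh : Tendsto h l (𝓝 z))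
    (hc : Ccw x y z) : ∀ᶠ t in l, Ccw (f t) (g t) (h t) := by
  have hxy := cr_tendsto hf hg
  have hyz := cr_tendsto hg hh
  have hzx := cr_tendsto hh hf
  rcases hc with ⟨h1, h2⟩ | ⟨h1, h2⟩ | ⟨h1, h2⟩
  · filter_upwards [hxy.eventually_const_lt h1, hyz.eventually_const_lt h2] with t h3 h4
    exact Or.inl ⟨h3, h4⟩
  · filter_upwards [hyz.eventually_const_lt h1, hzx.eventually_const_lt h2] with t h3 h4
    exact Or.inr (Or.inl ⟨h3, h4⟩)
  · filter_upwards [hzx.eventually_const_lt h1, hxy.eventually_const_lt h2] with t h3 h4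
    exact Or.inr (Or.inr ⟨h3, h4⟩)

theorem quad_ne (A B C : ℝ) (h : A ≠ 0 ∨ B ≠ 0 ∨ C ≠ 0) :
    ∀ᶠ t in 𝓝[>] (0 : ℝ), A + B * t + C * t ^ 2 ≠ 0 := by
  have hc : ∀ D E F : ℝ, D ≠ 0 → ∀ᶠ t in 𝓝[>] (0 : ℝ), D + E * t + F * t ^ 2 ≠ 0 := by
    intro D E F hD
    have h1 : Continuous (fun t : ℝ => D + E * t + F * t ^ 2) := by fun_prop
    have h2 : Tendsto (fun t : ℝ => D + E * t + F * t ^ 2) (𝓝[>] (0 : ℝ)) (𝓝 D) := by
      have h3 := (h1.tendsto 0).mono_left (nhdsWithin_le_nhds (s := Set.Ioi (0 : ℝ)))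
      have h4 : D + E * 0 + F * 0 ^ 2 = D := by ring
      rwa [h4] at h3
    exact h2.eventually_ne hD
  by_cases hA : A = 0
  · by_cases hB : B = 0
    · have hC : C ≠ 0 := by
        rcases h with h | h | h
        · exact absurd hA h
        · exact absurd hB h
        · exact h
      filter_upwards [self_mem_nhdsWithin] with t ht
      have ht' : t ≠ 0 := ne_of_gt ht
      rw [hA, hB]
      have : (0 : ℝ) + 0 * t + C * t ^ 2 = C * t ^ 2 := by ring
      rw [this]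
      exact mul_ne_zero hC (pow_ne_zero 2 ht')
    · filter_upwards [self_mem_nhdsWithin, hc B C 0 hB] with t ht h1
      have ht' : t ≠ 0 := ne_of_gt ht
      rw [hA]
      have : (0 : ℝ) + B * t + C * t ^ 2 = t * (B + C * t + 0 * t ^ 2) := by ring
      rw [this]
      exact mul_ne_zero ht' h1
  · exact hc A B C hA

/-- the perturbation -/
noncomputable def pt (κ : V → ℕ) (p : V → Pt) (t : ℝ) (v : V) : Pt :=
  ((p v).1 + t * (κ v : ℝ), (p v).2 + t * (κ v : ℝ) ^ 2)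

theorem pt_tendsto (κ : V → ℕ) (p : V → Pt) (v : V) :
    Tendsto (fun t : ℝ => pt κ p t v) (𝓝[>] (0 : ℝ)) (𝓝 (p v)) := by
  have h1 : Continuous (fun t : ℝ => pt κ p t v) := by
    unfold pt
    fun_prop
  have h3 := (h1.tendsto 0).mono_left (nhdsWithin_le_nhds (s := Set.Ioi (0 : ℝ)))
  have h4 : pt κ p 0 v = p v := by
    unfold pt
    simp
  rwa [h4] at h3

end PERx

open PERx

theorem per : StmtPER := by
  intro V _ r κ p hp
  obtain ⟨h1, h2⟩ := hp
  have hgood : ∀ᶠ t in 𝓝[>] (0 : ℝ), ∀ v, Rainbow r κ v → Good r (pt κ p t) v := by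
    rw [eventually_all]
    intro v
    by_cases hr : Rainbow r κ v
    · have h3 := h2 v hr
      have h4 : ∀ i : Fin 3, Tendsto (fun t : ℝ => pt κ p t (r.n i v) - pt κ p t v)
          (𝓝[>] (0 : ℝ)) (𝓝 (p (r.n i v) - p v)) := fun i =>
        (pt_tendsto κ p _).sub (pt_tendsto κ p _)
      filter_upwards [Ccw_tendsto (h4 0) (h4 1) (h4 2) h3] with t ht _
      exact ht
    · exact Eventually.of_forall fun t h => absurd h hr
  have hne : ∀ᶠ t in 𝓝[>] (0 : ℝ), ∀ u v : V, κ u ≠ κ v → pt κ p t u ≠ pt κ p t v := by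
    rw [eventually_all]
    intro u
    rw [eventually_all]
    intro v
    by_cases h : κ u = κ v
    · exact Eventually.of_forall fun t h' => absurd h h'
    · have h3 : (κ u : ℝ) - (κ v : ℝ) ≠ 0 := by
        rw [sub_ne_zero]
        exact_mod_cast h
      filter_upwards [quad_ne ((p u).1 - (p v).1) ((κ u : ℝ) - (κ v : ℝ)) 0
        (Or.inr (Or.inl h3))] with t ht _ heq
      apply ht
      have h4 := congrArg Prod.fst heq
      unfold pt at h4
      linear_combination h4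
  have htri : ∀ᶠ t in 𝓝[>] (0 : ℝ), ∀ u v w : V, κ u ≠ κ v → κ v ≠ κ w → κ u ≠ κ w →
      cr (pt κ p t v - pt κ p t u) (pt κ p t w - pt κ p t u) ≠ 0 := by
    rw [eventually_all]
    intro u
    rw [eventually_all]
    intro v
    rw [eventually_all]
    intro w
    by_cases h : κ u ≠ κ v ∧ κ v ≠ κ w ∧ κ u ≠ κ w
    · obtain ⟨h3, h4, h5⟩ := h
      have h6 : ((κ v : ℝ) - (κ u : ℝ)) * ((κ w : ℝ) - (κ u : ℝ)) * ((κ w : ℝ) - (κ v : ℝ)) ≠ 0 := by
        refine mul_ne_zero (mul_ne_zero ?_ ?_) ?_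
        · rw [sub_ne_zero]
          exact_mod_cast Ne.symm h3
        · rw [sub_ne_zero]
          exact_mod_cast Ne.symm h5
        · rw [sub_ne_zero]
          exact_mod_cast Ne.symm h4
      filter_upwards [quad_ne
        (((p v).1 - (p u).1) * ((p w).2 - (p u).2) - ((p v).2 - (p u).2) * ((p w).1 - (p u).1))
        (((p v).1 - (p u).1) * ((κ w : ℝ) ^ 2 - (κ u : ℝ) ^ 2) +
          ((κ v : ℝ) - (κ u : ℝ)) * ((p w).2 - (p u).2) -
          ((p v).2 - (p u).2) * ((κ w : ℝ) - (κ u : ℝ)) -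
          ((κ v : ℝ) ^ 2 - (κ u : ℝ) ^ 2) * ((p w).1 - (p u).1))
        (((κ v : ℝ) - (κ u : ℝ)) * ((κ w : ℝ) - (κ u : ℝ)) * ((κ w : ℝ) - (κ v : ℝ)))
        (Or.inr (Or.inr h6))] with t ht _ _ _ h7
      apply ht
      have h8 : cr (pt κ p t v - pt κ p t u) (pt κ p t w - pt κ p t u) =
          ((p v).1 + t * (κ v : ℝ) - ((p u).1 + t * (κ u : ℝ))) *
            ((p w).2 + t * (κ w : ℝ) ^ 2 - ((p u).2 + t * (κ u : ℝ) ^ 2)) -
          ((p v).2 + t * (κ v : ℝ) ^ 2 - ((p u).2 + t * (κ u : ℝ) ^ 2)) *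
            ((p w).1 + t * (κ w : ℝ) - ((p u).1 + t * (κ u : ℝ))) := rfl
      rw [h8] at h7
      linear_combination h7
    · exact Eventually.of_forall fun t h3 h4 h5 => absurd ⟨h3, h4, h5⟩ h
  obtain ⟨t, ht1, ht2, ht3⟩ := (hgood.and (hne.and htri)).exists
  refine ⟨pt κ p t, ⟨fun u v huv => ?_, ht1⟩, ht2, ht3⟩
  unfold pt
  rw [h1 u v huv, huv]

end Pool.Agent.T6.H37.RO
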