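import Pool.Agent.T6.H37.RO.Basic

/-!
Project RO: structure of the classes and the general blow-up step.
-/

set_option autoImplicit false

namespace Pool.Agent.T6.H37.RO

variable {V : Type}

theorem Rot.third_sign (r : Rot V) {v a b : V} (ha : r.Adj v a) (hb : r.Adj v b)
    (hab : a ≠ b) : ∃ (c : V) (s : Bool), SignIs r v a b c s ∧ r.Adj v c ∧ c ≠ a ∧ c ≠ b ∧
      ∀ d, r.Adj v d → d = a ∨ d = b ∨ d = c := by
  obtain ⟨c, hc⟩ := r.exists_third ha hb hab
  rcases hc with h | h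
  · exact ⟨c, true, ⟨fun _ => h, fun h => by simp at h⟩, h.adj.2.2, h.ne.2.2.symm,
      h.ne.2.1.symm, fun d hd => h.of_adj hd⟩
  · refine ⟨c, false, ⟨fun h => by simp at h, fun _ => h⟩, h.adj.2.2, h.ne.2.1.symm,
      h.ne.2.2.symm, fun d hd => ?_⟩
    rcases h.of_adj hd with h | h | h <;> tauto

theorem two_ne {m : ℕ} (hm : 3 ≤ m) (i : ZMod m) : i - 1 ≠ i + 1 := by
  intro h
  have h2 : ((2 : ℕ) : ZMod m) = 0 := by
    have : (i + 1) - (i - 1) = 0 := by rw [h]; ring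
    have h3 : (i + 1) - (i - 1) = (2 : ZMod m) := by ring
    rw [h3] at this
    exact_mod_cast this
  rw [ZMod.natCast_eq_zero_iff] at h2
  have := Nat.le_of_dvd (by norm_num) h2
  omega

theorem IsCyc.mem {r : Rot V} {κ : V → ℕ} {m : ℕ} {z : ZMod m → V} (h : IsCyc r κ m z)
    (i : ZMod m) : κ (z i) = κ (z 0) := (h.2.2.2.1 (z i)).2 ⟨i, rfl⟩

/-- the third neighbours of the vertices of a cycle class -/
theorem IsCyc.data {r : Rot V} {κ : V → ℕ} {m : ℕ} {z : ZMod m → V} (h : IsCyc r κ m z) :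
    ∃ (e : ZMod m → V) (t : ZMod m → Bool), ∀ i,
      SignIs r (z i) (z (i - 1)) (z (i + 1)) (e i) (t i) ∧ r.Adj (z i) (e i) ∧
      κ (e i) ≠ κ (z 0) ∧
      ∀ d, r.Adj (z i) d → d = z (i - 1) ∨ d = z (i + 1) ∨ d = e i := by
  have key : ∀ i, ∃ (e : V) (t : Bool), 
      SignIs r (z i) (z (i - 1)) (z (i + 1)) e t ∧ r.Adj (z i) e ∧ κ e ≠ κ (z 0) ∧
      ∀ d, r.Adj (z i) d → d = z (i - 1) ∨ d = z (i + 1) ∨ d = e := by
    intro i
    have h1 : r.Adj (z i) (z (i + 1)) := h.2.2.1 i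
    have h2 : r.Adj (z i) (z (i - 1)) := by
      have := h.2.2.1 (i - 1)
      rw [sub_add_cancel] at this
      exact r.adj_symm this
    have hne : z (i - 1) ≠ z (i + 1) := fun hh => two_ne h.1 i (h.2.1 hh)
    obtain ⟨c, s, hs, hc, hca, hcb, hall⟩ := r.third_sign h2 h1 hne
    refine ⟨c, s, hs, hc, ?_, hall⟩
    intro hk
    obtain ⟨j, rfl⟩ := (h.2.2.2.1 c).1 hk
    rcases h.2.2.2.2 i j hc with rfl | rfl
    · exact hcb rfl
    · apply hca; congr 1; ring
  choose e t h using key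
  exact ⟨e, t, h⟩

/-- a vertex in a class which is not alone has at most one neighbour outside its class -/
theorem out_unique {r : Rot V} {v a b : V} {P : V → Prop} (ha : r.Adj v a) (hb : r.Adj v b)
    (hab : a ≠ b) (hPa : P a) (hPb : P b) (i j : Fin 3) (hi : ¬ P (r.n i v))
    (hj : ¬ P (r.n j v)) : i = j := by
  obtain ⟨c, s, -, hc, -, -, hall⟩ := r.third_sign ha hb hab
  have h1 : r.n i v = c := by
    rcases hall _ (r.adj_n v i) with h | h | h
    · rw [h] at hi; exact absurd hPa hi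
    · rw [h] at hi; exact absurd hPb hi
    · exact h
  have h2 : r.n j v = c := by
    rcases hall _ (r.adj_n v j) with h | h | h
    · rw [h] at hj; exact absurd hPa hj
    · rw [h] at hj; exact absurd hPb hj
    · exact h
  exact r.inj v i j (h1.trans h2.symm)

/-- the cluster part of `Struct` -/
def Cluster (r : Rot V) (κ : V → ℕ) (v : V) : Prop :=
  (∃ (m : ℕ) (z : ZMod m → V), IsCyc r κ m z ∧ ∃ i, z i = v) ∨
  (∃ w : Fin 4 → V, IsDia r κ w ∧ ∃ i, w i = v) ∨
  (∃ w : Fin 5 → V, IsDiaFive r κ w ∧ ∃ i, w i = v) ∨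
  (∃ w : Fin 4 → V, IsKFour r κ w ∧ ∃ i, w i = v)

/-- every vertex in a cluster has two different neighbours in its class -/
theorem Cluster.two {r : Rot V} {κ : V → ℕ} {v : V} (h : Cluster r κ v) :
    ∃ a b, r.Adj v a ∧ r.Adj v b ∧ a ≠ b ∧ κ a = κ v ∧ κ b = κ v := by
  rcases h with ⟨m, z, hz, i, rfl⟩ | ⟨w, hw, i, rfl⟩ | ⟨w, hw, i, rfl⟩ | ⟨w, hw, i, rfl⟩
  · refine ⟨z (i - 1), z (i + 1), ?_, hz.2.2.1 i, fun hh => two_ne hz.1 i (hz.2.1 hh), ?_, ?_⟩
    · have := hz.2.2.1 (i - 1)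
      rw [sub_add_cancel] at this
      exact r.adj_symm this
    · rw [hz.mem, hz.mem i]
    · rw [hz.mem, hz.mem i]
  · obtain ⟨hi, h01, h02, h03, h12, h13, -, hc⟩ := hw
    have hm : ∀ i, κ (w i) = κ (w 0) := fun i => (hc _).2 ⟨i, rfl⟩
    fin_cases i
    · exact ⟨w 1, w 2, h01, h02, fun h => by simpa using hi h, by simp [hm], by simp [hm]⟩
    · exact ⟨w 0, w 2, r.adj_symm h01, h12, fun h => by simpa using hi h,
        by simp [hm], by simp [hm]⟩
    · exact ⟨w 0, w 1, r.adj_symm h02, r.adj_symm h12, fun h => by simpa using hi h,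
        by simp [hm], by simp [hm]⟩
    · exact ⟨w 0, w 1, r.adj_symm h03, r.adj_symm h13, fun h => by simpa using hi h,
        by simp [hm], by simp [hm]⟩
  · obtain ⟨hi, h01, h02, h03, h12, h13, h24, h34, hc⟩ := hw
    have hm : ∀ i, κ (w i) = κ (w 0) := fun i => (hc _).2 ⟨i, rfl⟩
    fin_cases i
    · exact ⟨w 1, w 2, h01, h02, fun h => by simpa using hi h, by simp [hm], by simp [hm]⟩
    · exact ⟨w 0, w 2, r.adj_symm h01, h12, fun h => by simpa using hi h,
        by simp [hm], by simp [hm]⟩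
    · exact ⟨w 0, w 1, r.adj_symm h02, r.adj_symm h12, fun h => by simpa using hi h,
        by simp [hm], by simp [hm]⟩
    · exact ⟨w 0, w 1, r.adj_symm h03, r.adj_symm h13, fun h => by simpa using hi h,
        by simp [hm], by simp [hm]⟩
    · exact ⟨w 2, w 3, r.adj_symm h24, r.adj_symm h34, fun h => by simpa using hi h,
        by simp [hm], by simp [hm]⟩
  · obtain ⟨hi, h01, hc⟩ := hw
    have hm : ∀ i, κ (w i) = κ (w 0) := fun i => (hc _).2 ⟨i, rfl⟩
    refine ⟨w (i + 1), w (i + 2), h01 _ _ ?_, h01 _ _ ?_, fun h => ?_, by simp [hm],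
      by simp [hm]⟩
    · fin_cases i <;> decide
    · fin_cases i <;> decide
    · have := hi h; revert this; fin_cases i <;> decide

theorem Cluster.out {r : Rot V} {κ : V → ℕ} {v : V} (h : Cluster r κ v) (i j : Fin 3)
    (hi : κ (r.n i v) ≠ κ v) (hj : κ (r.n j v) ≠ κ v) : i = j := by
  obtain ⟨a, b, ha, hb, hab, hka, hkb⟩ := h.two
  exact out_unique (P := fun x => κ x = κ v) ha hb hab hka hkb i j hi hj

theorem Cluster.not_rainbow {r : Rot V} {κ : V → ℕ} {v : V} (h : Cluster r κ v) :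
    ¬ Rainbow r κ v := by
  obtain ⟨a, b, ⟨i, rfl⟩, hb, hab, hka, hkb⟩ := h.two
  exact fun h => h.1 i hka

/-- two neighbours of `v` in one other class: `v` is alone and the class is a 4-cycle -/
theorem Struct.special {r : Rot V} {κ : V → ℕ} (h : Struct r κ) {v : V} {i j : Fin 3}
    (hij : i ≠ j) (hk : κ (r.n i v) = κ (r.n j v)) (hv : κ (r.n i v) ≠ κ v) :
    (∀ u, κ u = κ v → u = v) ∧
    ∃ z : ZMod 4 → V, IsCyc r κ 4 z ∧ r.n i v = z 0 ∧ r.n j v = z 2 := by
  rcases h v with ⟨h1, h2⟩ | h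
  · exact ⟨h1, h2 i j hij hk⟩
  · exact absurd (Cluster.out h i j hv (hk ▸ hv)) hij

/-- general blow-up step -/
theorem blowK [Fintype V] (hBLO : StmtBLO) (hPER : StmtPER) (r : Rot V) (κ : V → ℕ)
    (p : V → Pt) (hp : PreState r κ p) (x : V) (q : V → Pt)
    (h1 : ∀ v, κ v = κ x → LimGood r {v | κ v = κ x} p q v)
    (h2 : ∀ v, κ v ≠ κ x → ∀ i j, i ≠ j → κ (r.n i v) = κ x → κ (r.n j v) = κ x →
      LimGood r {v | κ v = κ x} p q v) :
    ∃ (κ' : V → ℕ) (p' : V → Pt), Splits κ κ' {v | κ v = κ x} ∧ State r κ' p' := by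
  obtain ⟨κ', hκ'⟩ := exists_splits κ {v | κ v = κ x}
  have hK : ∀ u v, u ∈ {v | κ v = κ x} → (v ∈ {v | κ v = κ x} ↔ κ u = κ v) := by
    intro u v hu
    simp only [Set.mem_setOf_eq] at *
    rw [hu]
    exact eq_comm
  have hlim : ∀ v, Rainbow r κ' v → ¬ Rainbow r κ v → LimGood r {v | κ v = κ x} p q v := by
    intro v hr hnr
    by_cases hv : κ v = κ x
    · exact h1 v hv
    · have hA : ∀ i, κ (r.n i v) ≠ κ v := by
        intro i hi
        apply hr.1 i
        rw [hκ']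
        right
        refine ⟨?_, ?_, hi⟩
        · simpa [hi] using hv
        · simpa using hv
      have hB : ¬ ∀ i j, κ (r.n i v) = κ (r.n j v) → i = j := fun hh => hnr ⟨hA, hh⟩
      push_neg at hB
      obtain ⟨i, j, hk, hij⟩ := hB
      have hne : κ' (r.n i v) ≠ κ' (r.n j v) := fun hh => hij (hr.2 i j hh)
      have hin : κ (r.n i v) = κ x := by
        by_contra hc
        apply hne
        rw [hκ']
        right
        refine ⟨?_, ?_, hk⟩
        · simpa using hc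
        · simpa [← hk] using hc
      exact h2 v hv i j hij hin (hk ▸ hin)
  obtain ⟨p₁, hp₁⟩ := hBLO V r κ κ' p q {v | κ v = κ x} hp hK hκ' hlim
  obtain ⟨p', hp'⟩ := hPER V r κ' p₁ hp₁
  exact ⟨κ', p', hκ', hp'⟩

end Pool.Agent.T6.H37.RO
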