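import Pool.Agent.T6.H37.RO.Steps

/-!
Project RO: the blow-up step for cycles.
-/

set_option autoImplicit false

namespace Pool.Agent.T6.H37.RO

variable {V : Type}

/-- `e i` is the third neighbour of `z i`, and `t i` the sign of its rotation -/
def CycData (r : Rot V) (κ : V → ℕ) (m : ℕ) (z : ZMod m → V) (e : ZMod m → V)
    (t : ZMod m → Bool) : Prop := ∀ i,
      SignIs r (z i) (z (i - 1)) (z (i + 1)) (e i) (t i) ∧ r.Adj (z i) (e i) ∧
      κ (e i) ≠ κ (z 0) ∧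
      ∀ d, r.Adj (z i) d → d = z (i - 1) ∨ d = z (i + 1) ∨ d = e i

theorem IsCyc.eq_e {r : Rot V} {κ : V → ℕ} {m : ℕ} {z : ZMod m → V} {e : ZMod m → V}
    {t : ZMod m → Bool} (h : IsCyc r κ m z) (hd : CycData r κ m z e t) {v : V}
    (hv : κ v ≠ κ (z 0)) {i : ZMod m} (ha : r.Adj v (z i)) : v = e i := by
  rcases (hd i).2.2.2 v (r.adj_symm ha) with rfl | rfl | h1
  · exact absurd (h.mem _) hv
  · exact absurd (h.mem _) hv
  · exact h1

theorem cycStep [Fintype V] (hBLO : StmtBLO) (hPER : StmtPER) (r : Rot V) (κ : V → ℕ)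
    (p : V → Pt) (hp : State r κ p) {m : ℕ} (z : ZMod m → V) (hz : IsCyc r κ m z)
    (e : ZMod m → V) (t : ZMod m → Bool) (hd : CycData r κ m z e t) (q : ZMod m → Pt)
    (hq : ∀ i, CcwB (t i) (q (i - 1) - q i) (q (i + 1) - q i) (p (e i) - p (z 0)))
    (h2 : ∀ v, κ v ≠ κ (z 0) → ∀ i j, i ≠ j → κ (r.n i v) = κ (z 0) →
      κ (r.n j v) = κ (z 0) →
      LimGood r {v | κ v = κ (z 0)} p (Function.extend z q (fun _ => 0)) v) :
    ∃ (κ' : V → ℕ) (p' : V → Pt), Splits κ κ' {v | κ v = κ (z 0)} ∧ State r κ' p' := by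
  have hm : ∀ i, z i ∈ {v | κ v = κ (z 0)} := fun i => hz.mem i
  have hp0 : ∀ i, p (z i) = p (z 0) := fun i => hp.1.1 _ _ (hm i)
  have hqe : ∀ i, Function.extend z q (fun _ => 0) (z i) = q i := fun i =>
    hz.2.1.extend_apply _ _ _
  refine blowK hBLO hPER r κ p hp.1 (z 0) (Function.extend z q (fun _ => 0)) ?_ h2
  intro v hv
  obtain ⟨i, rfl⟩ := (hz.2.2.2.1 v).1 hv
  refine limGood_in (hm i) (hd i).1 (dirIs_in (hm _) (by rw [hqe, hqe]))
    (dirIs_in (hm _) (by rw [hqe, hqe])) (dirIs_out (hd i).2.2.1 ?_) (hq i)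
  rw [hp0 i]

theorem zmod4_opp : ∀ a b : ZMod 4, b ≠ a → b ≠ a + 1 → a ≠ b + 1 → b = a + 2 := by
  decide

/-- a vertex outside with two neighbours in a 4-cycle class -/
theorem Struct.opp {r : Rot V} {κ : V → ℕ} (hs : Struct r κ) {z : ZMod 4 → V}
    (hz : IsCyc r κ 4 z) {u : V} {i j : Fin 3} (hij : i ≠ j) (hi : κ (r.n i u) = κ (z 0))
    (hj : κ (r.n j u) = κ (z 0)) (hu : κ u ≠ κ (z 0)) :
    (∀ w, κ w = κ u → w = u) ∧ ∃ a : ZMod 4, r.n i u = z a ∧ r.n j u = z (a + 2) := by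
  obtain ⟨hsing, z', hz', h0, h2⟩ := hs.special hij (hi.trans hj.symm) (by rw [hi]; exact hu.symm)
  refine ⟨hsing, ?_⟩
  obtain ⟨a, ha⟩ := (hz.2.2.2.1 _).1 hi
  obtain ⟨b, hb⟩ := (hz.2.2.2.1 _).1 hj
  have hnadj : ¬ r.Adj (z' 0) (z' 2) := by
    intro h
    rcases hz'.2.2.2.2 0 2 h with h | h <;> revert h <;> decide
  have hba : b ≠ a := by
    rintro rfl
    exact hij (r.inj u i j (ha.symm.trans hb))
  have hba1 : b ≠ a + 1 := by
    rintro rfl
    apply hnadj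
    rw [← h0, ← h2, ← ha, ← hb]
    exact hz.2.2.1 a
  have hab1 : a ≠ b + 1 := by
    rintro rfl
    apply hnadj
    rw [← h0, ← h2, ← ha, ← hb]
    exact r.adj_symm (hz.2.2.1 b)
  refine ⟨a, ha.symm, ?_⟩
  rw [← hb, zmod4_opp a b hba hba1 hab1]

theorem Struct.opp_third {r : Rot V} {κ : V → ℕ} (hs : Struct r κ) {z : ZMod 4 → V}
    (hz : IsCyc r κ 4 z) {u : V} {a : ZMod 4} (hu : κ u ≠ κ (z 0)) (ha : r.Adj u (z a))
    (hb : r.Adj u (z (a + 2))) :
    (∀ w, κ w = κ u → w = u) ∧ ∃ (c : V) (s : Bool), SignIs r u (z a) (z (a + 2)) c s ∧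
      κ c ≠ κ (z 0) ∧ κ c ≠ κ u := by
  have hne : z a ≠ z (a + 2) := by
    intro h
    have h1 : ∀ a : ZMod 4, a ≠ a + 2 := by decide
    exact h1 a (hz.2.1 h)
  obtain ⟨c, s, hs1, hc, hca, hcb, -⟩ := r.third_sign ha hb hne
  obtain ⟨i, hi⟩ := ha
  obtain ⟨j, hj⟩ := hb
  obtain ⟨k, hk⟩ := hc
  have hij : i ≠ j := by rintro rfl; exact hne (hi.symm.trans hj)
  have hik : i ≠ k := by rintro rfl; exact hca (hk.symm.trans hi)
  have hjk : j ≠ k := by rintro rfl; exact hcb (hk.symm.trans hj)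
  obtain ⟨hsing, -⟩ := hs.opp hz hij (by rw [hi]; exact hz.mem _) (by rw [hj]; exact hz.mem _) hu
  refine ⟨hsing, c, s, hs1, ?_, ?_⟩
  · intro hc
    obtain ⟨-, a', h1, h2⟩ := hs.opp hz hik (by rw [hi]; exact hz.mem _) (by rw [hk]; exact hc) hu
    have : a' = a := hz.2.1 (h1.symm.trans hi)
    subst this
    exact hcb (hk.symm.trans h2)
  · intro hc
    have := hsing c hc
    rw [← hk] at this
    exact r.irr u k this

/-- `LimGood` for an outside vertex with two neighbours in the class -/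
theorem limGood_out {r : Rot V} {κ : V → ℕ} {p q : V → Pt} (hp : State r κ p) {x u a b c : V}
    {s : Bool} (ha : κ a = κ x) (hb : κ b = κ x) (hu : κ u ≠ κ x) (hc : κ c ≠ κ x)
    (hcu : κ c ≠ κ u) (hsg : SignIs r u a b c s)
    (hq : SgnB s (cr (q b - q a) (p u - p x))) :
    LimGood r {v | κ v = κ x} p q u := by
  right
  refine ⟨hu, ?_⟩
  have hpa : p a = p x := hp.1.1 _ _ ha
  have hpb : p b = p x := hp.1.1 _ _ hb
  have hgen : cr (p x - p u) (p c - p u) ≠ 0 := hp.2.2 u x c hu hc.symm hcu.symm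
  cases s with
  | true =>
    refine ⟨a, b, c, hsg.1 rfl, ha, hb, hc, ?_, ?_⟩
    · have := hq.1 rfl
      rw [hpa]
      have h2 : cr (p x - p u) (q b - q a) = cr (q b - q a) (p u - p x) := by
        unfold cr; simp; ring
      rw [h2]; exact this
    · rw [hpa]; exact hgen
  | false =>
    refine ⟨b, a, c, hsg.2 rfl, hb, ha, hc, ?_, ?_⟩
    · have := hq.2 rfl
      rw [hpb]
      have h2 : cr (p x - p u) (q a - q b) = - cr (q b - q a) (p u - p x) := by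
        unfold cr; simp; ring
      rw [h2]; linarith
    · rw [hpb]; exact hgen

theorem stepC_special [Fintype V] (hBLO : StmtBLO) (hPER : StmtPER) (hFOU : StmtFOU)
    (r : Rot V) (κ : V → ℕ) (p : V → Pt) (hs : Struct r κ) (hp : State r κ p)
    (z : ZMod 4 → V) (hz : IsCyc r κ 4 z) (v : V) (hv : κ v ≠ κ (z 0))
    (hv0 : r.Adj v (z 0)) (hv2 : r.Adj v (z 2)) :
    ∃ (κ' : V → ℕ) (p' : V → Pt), Splits κ κ' {v | κ v = κ (z 0)} ∧ State r κ' p' := by
  obtain ⟨e, t, hd⟩ := hz.data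
  have hd' : CycData r κ 4 z e t := hd
  have hve0 : v = e 0 := hz.eq_e hd' hv hv0
  have hve2 : v = e 2 := hz.eq_e hd' hv hv2
  have h02 : (0 : ZMod 4) + 2 = 2 := by decide
  have h13 : (1 : ZMod 4) + 2 = 3 := by decide
  obtain ⟨hsing, c, o, ho, hc1, hc2⟩ := hs.opp_third hz hv hv0 (by rw [h02]; exact hv2)
  -- `e 1, e 3` are not `v`
  have hne1 : κ (e 1) ≠ κ v := by
    intro h
    have h1 := hsing _ h
    obtain ⟨i, hi⟩ := hv0
    have : r.Adj v (z 1) := by rw [← h1]; exact r.adj_symm (hd 1).2.1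
    obtain ⟨j, hj⟩ := this
    have hij : i ≠ j := by
      rintro rfl
      have := hz.2.1 (hi.symm.trans hj)
      revert this; decide
    obtain ⟨-, a, ha, hb⟩ := hs.opp hz hij (by rw [hi]) (by rw [hj]; exact hz.mem _) hv
    have e1 : a = 0 := hz.2.1 (ha.symm.trans hi)
    have e2 : a + 2 = 1 := hz.2.1 (hb.symm.trans hj)
    subst e1
    revert e2; decide
  have hne3 : κ (e 3) ≠ κ v := by
    intro h
    have h1 := hsing _ h
    obtain ⟨i, hi⟩ := hv0
    have : r.Adj v (z 3) := by rw [← h1]; exact r.adj_symm (hd 3).2.1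
    obtain ⟨j, hj⟩ := this
    have hij : i ≠ j := by
      rintro rfl
      have := hz.2.1 (hi.symm.trans hj)
      revert this; decide
    obtain ⟨-, a, ha, hb⟩ := hs.opp hz hij (by rw [hi]) (by rw [hj]; exact hz.mem _) hv
    have e1 : a = 0 := hz.2.1 (ha.symm.trans hi)
    have e2 : a + 2 = 3 := hz.2.1 (hb.symm.trans hj)
    subst e1
    revert e2; decide
  -- sign of the second special vertex
  have ho' : ∃ o' : Bool, ∀ u, κ u ≠ κ (z 0) → r.Adj u (z 1) → r.Adj u (z 3) →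
      ∃ c, SignIs r u (z 1) (z 3) c o' ∧ κ c ≠ κ (z 0) ∧ κ c ≠ κ u := by
    by_cases hex : κ (e 1) ≠ κ (z 0) ∧ r.Adj (e 1) (z 1) ∧ r.Adj (e 1) (z 3)
    · obtain ⟨h1, h2, h3⟩ := hex
      obtain ⟨-, c', o', hs', hc', hcc⟩ := hs.opp_third hz h1 h2 (by rw [h13]; exact h3)
      refine ⟨o', fun u hu ha hb => ?_⟩
      have : u = e 1 := hz.eq_e hd' hu ha
      subst this
      rw [h13] at hs'
      exact ⟨c', hs', hc', hcc⟩
    · refine ⟨true, fun u hu ha hb => ?_⟩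
      have : u = e 1 := hz.eq_e hd' hu ha
      subst this
      exact absurd ⟨hu, ha, hb⟩ hex
  obtain ⟨o', ho'⟩ := ho'
  obtain ⟨q, hq, hqo, hqo'⟩ := hFOU t (fun i => p (e i) - p (z 0))
    (fun i => sub_ne_of_label hp.2 (hd i).2.2.1) (by
      show p (e 0) - p (z 0) = p (e 2) - p (z 0)
      rw [← hve0, ← hve2])
    (hp.2.2 (z 0) (e 0) (e 1) (hd 0).2.2.1.symm (by rw [← hve0]; exact hne1.symm)
      (hd 1).2.2.1.symm)
    (hp.2.2 (z 0) (e 0) (e 3) (hd 0).2.2.1.symm (by rw [← hve0]; exact hne3.symm)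
      (hd 3).2.2.1.symm) o o'
  have hqe : ∀ i, Function.extend z q (fun _ => 0) (z i) = q i := fun i =>
    hz.2.1.extend_apply _ _ _
  refine cycStep hBLO hPER r κ p hp z hz e t hd' q hq ?_
  -- `v` type vertex
  have main0 : ∀ u, κ u ≠ κ (z 0) → r.Adj u (z 0) → r.Adj u (z 2) →
      LimGood r {v | κ v = κ (z 0)} p (Function.extend z q (fun _ => 0)) u := by
    intro u hu h0 h2
    have huv : u = v := by rw [hz.eq_e hd' hu h0, hve0]
    subst huv
    rw [h02] at ho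
    refine limGood_out hp (a := z 0) (b := z 2) (c := c) (s := o) rfl (hz.mem _) hu hc1 hc2 ho ?_
    rw [hqe, hqe]
    have h4 : p (e 0) - p (z 0) = p u - p (z 0) := by rw [← hve0]
    rw [← h4]
    exact hqo
  have main1 : ∀ u, κ u ≠ κ (z 0) → r.Adj u (z 1) → r.Adj u (z 3) →
      LimGood r {v | κ v = κ (z 0)} p (Function.extend z q (fun _ => 0)) u := by
    intro u hu h1 h3
    have hu1 : u = e 1 := hz.eq_e hd' hu h1
    have hu3 : u = e 3 := hz.eq_e hd' hu h3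
    obtain ⟨c', hs', hc', hcc⟩ := ho' u hu h1 h3
    refine limGood_out hp (a := z 1) (b := z 3) (c := c') (s := o') (hz.mem _) (hz.mem _) hu
      hc' hcc hs' ?_
    rw [hqe, hqe]
    have := hqo' (by
      show p (e 1) - p (z 0) = p (e 3) - p (z 0)
      rw [← hu1, ← hu3])
    have h4 : p (e 1) - p (z 0) = p u - p (z 0) := by rw [← hu1]
    rw [← h4]
    exact this
  intro u hu i j hij hi hj
  obtain ⟨-, a, ha, hb⟩ := hs.opp hz hij hi hj hu
  have ha' : r.Adj u (z a) := ⟨i, ha⟩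
  have hb' : r.Adj u (z (a + 2)) := ⟨j, hb⟩
  have hcases : ∀ a : ZMod 4, (a = 0 ∧ a + 2 = 2) ∨ (a = 1 ∧ a + 2 = 3) ∨
      (a = 2 ∧ a + 2 = 0) ∨ (a = 3 ∧ a + 2 = 1) := by decide
  rcases hcases a with ⟨h1, h2⟩ | ⟨h1, h2⟩ | ⟨h1, h2⟩ | ⟨h1, h2⟩
  · rw [h2] at hb'; rw [h1] at ha'; exact main0 u hu ha' hb'
  · rw [h2] at hb'; rw [h1] at ha'; exact main1 u hu ha' hb'
  · rw [h2] at hb'; rw [h1] at ha'; exact main0 u hu hb' ha'
  · rw [h2] at hb'; rw [h1] at ha'; exact main1 u hu hb' ha'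

/-- a problematic class: a 4-cycle with alternating signs, all third neighbours in one class and
no outside vertex with two neighbours in the class -/
def Problem (r : Rot V) (κ : V → ℕ) (z : ZMod 4 → V) : Prop :=
  IsCyc r κ 4 z ∧ ∃ e t, CycData r κ 4 z e t ∧ (∀ i, t (i + 1) = !(t i)) ∧
    (∀ i j, κ (e i) = κ (e j)) ∧
    (∀ v, κ v ≠ κ (z 0) → ∀ i j, i ≠ j → κ (r.n i v) = κ (z 0) → κ (r.n j v) = κ (z 0) → False)

theorem stepC [Fintype V] (hBLO : StmtBLO) (hPER : StmtPER) (hFOU : StmtFOU)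
    (hCYC : StmtCYC) (r : Rot V) (κ : V → ℕ) (p : V → Pt) (hs : Struct r κ)
    (hp : State r κ p) {m : ℕ} (z : ZMod m → V) (hz : IsCyc r κ m z) :
    (∃ (κ' : V → ℕ) (p' : V → Pt), Splits κ κ' {v | κ v = κ (z 0)} ∧ State r κ' p') ∨
    ∃ z' : ZMod 4 → V, Problem r κ z' ∧ κ (z' 0) = κ (z 0) := by
  by_cases hspec : ∃ v, κ v ≠ κ (z 0) ∧ ∃ i j, i ≠ j ∧ κ (r.n i v) = κ (z 0) ∧
      κ (r.n j v) = κ (z 0)
  · left
    obtain ⟨v, hv, i, j, hij, hi, hj⟩ := hspec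
    obtain ⟨-, z', hz', h0, h2⟩ := hs.special hij (hi.trans hj.symm) (by rw [hi]; exact hv.symm)
    have hk : κ (z' 0) = κ (z 0) := by rw [← h0, hi]
    have := stepC_special hBLO hPER hFOU r κ p hs hp z' hz' v (by rw [hk]; exact hv)
      ⟨i, h0⟩ ⟨j, h2⟩
    rw [hk] at this
    exact this
  · obtain ⟨e, t, hd⟩ := hz.data
    have hno : ∀ v, κ v ≠ κ (z 0) → ∀ i j, i ≠ j → κ (r.n i v) = κ (z 0) →
        κ (r.n j v) = κ (z 0) → False :=
      fun v hv i j hij hi hj => hspec ⟨v, hv, i, j, hij, hi, hj⟩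
    by_cases hprob : m = 4 ∧ (∀ i, t (i + 1) = !(t i)) ∧ ∀ i j, κ (e i) = κ (e j)
    · right
      obtain ⟨rfl, hal, hke⟩ := hprob
      exact ⟨z, ⟨hz, e, t, hd, hal, hke, hno⟩, rfl⟩
    · left
      obtain ⟨q, hq⟩ := hCYC m hz.1 t (fun i => p (e i) - p (z 0))
        (fun i => sub_ne_of_label hp.2 (hd i).2.2.1)
        (fun i j => eq_or_cr hp (hd i).2.2.1 (hd j).2.2.1) (by
          rintro ⟨h4, hal, heq⟩
          apply hprob
          refine ⟨h4, hal, fun i j => ?_⟩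
          by_contra hne
          have := heq i j
          simp only [sub_left_inj] at this
          exact hp.2.1 _ _ hne this)
      exact cycStep hBLO hPER r κ p hp z hz e t hd q hq
        (fun v hv i j hij hi hj => (hno v hv i j hij hi hj).elim)

end Pool.Agent.T6.H37.RO
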