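import Pool.Agent.T6.H37.RO.Stages

/-!
Project RO: the blow-up steps for diamonds, diamonds with a common neighbour, complete graphs.
-/

set_option autoImplicit false

namespace Pool.Agent.T6.H37.RO

variable {V : Type}

theorem dirIs_in {K : Set V} {p q : V → Pt} {v u : V} {x : Pt} (hu : u ∈ K)
    (hx : x = q u - q v) : DirIs K p q v u x := ⟨fun _ => hx, fun h => absurd hu h⟩

theorem dirIs_out {K : Set V} {p q : V → Pt} {v u : V} {x : Pt} (hu : u ∉ K)
    (hx : x = p u - p v) : DirIs K p q v u x := ⟨fun h => absurd h hu, fun _ => hx⟩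

theorem Rot.all_of_three (r : Rot V) {v a b c : V} (ha : r.Adj v a) (hb : r.Adj v b)
    (hc : r.Adj v c) (hab : a ≠ b) (hac : a ≠ c) (hbc : b ≠ c) (d : V) (hd : r.Adj v d) :
    d = a ∨ d = b ∨ d = c := by
  rcases r.cyc_or ha hb hc hab hac hbc with h | h
  · exact h.of_adj hd
  · rcases h.of_adj hd with h | h | h <;> tauto

theorem IsCyc.not_three {r : Rot V} {κ : V → ℕ} {m : ℕ} {z : ZMod m → V}
    (h : IsCyc r κ m z) {v : V} (hv : κ v = κ (z 0)) (hall : ∀ d, r.Adj v d → κ d = κ v) :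
    False := by
  obtain ⟨i, rfl⟩ := (h.2.2.2.1 v).1 hv
  obtain ⟨e, t, hd⟩ := h.data
  exact (hd i).2.2.1 ((hall _ (hd i).2.1).trans hv)

/-- no vertex outside has two neighbours in a class containing a vertex with all neighbours in
the class -/
theorem Struct.no_special {r : Rot V} {κ : V → ℕ} (h : Struct r κ) {x : V}
    (hall : ∀ d, r.Adj x d → κ d = κ x) {v : V} (hv : κ v ≠ κ x) {i j : Fin 3}
    (hij : i ≠ j) (hi : κ (r.n i v) = κ x) (hj : κ (r.n j v) = κ x) : False := by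
  obtain ⟨-, z, hz, hz0, -⟩ := h.special hij (hi.trans hj.symm) (by rw [hi]; exact hv.symm)
  exact hz.not_three (v := x) (by rw [← hz0, hi]) hall

theorem sub_ne_of_label {κ : V → ℕ} {p : V → Pt} (hg : GenPos κ p) {u v : V}
    (h : κ u ≠ κ v) : p u - p v ≠ 0 := sub_ne_zero.2 (hg.1 u v h)

theorem eq_or_cr {r : Rot V} {κ : V → ℕ} {p : V → Pt} (hp : State r κ p) {x a b : V}
    (ha : κ a ≠ κ x) (hb : κ b ≠ κ x) :
    p a - p x = p b - p x ∨ cr (p a - p x) (p b - p x) ≠ 0 := by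
  by_cases hab : κ a = κ b
  · left; rw [hp.1.1 a b hab]
  · right
    exact hp.2.2 x a b ha.symm hab hb.symm

theorem stepK [Fintype V] (hBLO : StmtBLO) (hPER : StmtPER) (hKFS : StmtKFS) (r : Rot V)
    (κ : V → ℕ) (p : V → Pt) (hE : EvenKFour r) (hs : Struct r κ) (hp : State r κ p)
    (w : Fin 4 → V) (hw : IsKFour r κ w) :
    ∃ (κ' : V → ℕ) (p' : V → Pt), Splits κ κ' {v | κ v = κ (w 0)} ∧ State r κ' p' := by
  obtain ⟨hi, hadj, hc⟩ := hw
  have hm : ∀ i, w i ∈ {v | κ v = κ (w 0)} := fun i => (hc _).2 ⟨i, rfl⟩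
  have hne : ∀ i j : Fin 4, i ≠ j → w i ≠ w j := fun i j h hh => h (hi hh)
  obtain ⟨s0, h0⟩ := r.exists_sign (hadj 0 1 (by decide)) (hadj 0 2 (by decide))
    (hadj 0 3 (by decide)) (hne 1 2 (by decide)) (hne 1 3 (by decide)) (hne 2 3 (by decide))
  obtain ⟨s1, h1⟩ := r.exists_sign (hadj 1 0 (by decide)) (hadj 1 2 (by decide))
    (hadj 1 3 (by decide)) (hne 0 2 (by decide)) (hne 0 3 (by decide)) (hne 2 3 (by decide))
  obtain ⟨s2, h2⟩ := r.exists_sign (hadj 2 0 (by decide)) (hadj 2 1 (by decide))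
    (hadj 2 3 (by decide)) (hne 0 1 (by decide)) (hne 0 3 (by decide)) (hne 1 3 (by decide))
  obtain ⟨s3, h3⟩ := r.exists_sign (hadj 3 0 (by decide)) (hadj 3 1 (by decide))
    (hadj 3 2 (by decide)) (hne 0 1 (by decide)) (hne 0 2 (by decide)) (hne 1 2 (by decide))
  have hpar := hE w ![s0, s1, s2, s3] hi hadj h0 h1 h2 h3
  obtain ⟨q, q0, q1, q2, q3⟩ := hKFS ![s0, s1, s2, s3] hpar
  have hq : ∀ i, Function.extend w q (fun _ => 0) (w i) = q i := fun i =>
    hi.extend_apply _ _ _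
  have hall : ∀ d, r.Adj (w 0) d → κ d = κ (w 0) := by
    intro d hd
    rcases r.all_of_three (hadj 0 1 (by decide)) (hadj 0 2 (by decide))
      (hadj 0 3 (by decide)) (hne 1 2 (by decide)) (hne 1 3 (by decide))
      (hne 2 3 (by decide)) d hd with rfl | rfl | rfl
    · exact hm 1
    · exact hm 2
    · exact hm 3
  refine blowK hBLO hPER r κ p hp.1 (w 0) (Function.extend w q (fun _ => 0)) ?_ ?_
  · intro v hv
    obtain ⟨i, rfl⟩ := (hc v).1 hv
    fin_cases i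
    · exact limGood_in (hm 0) h0 (dirIs_in (hm 1) (by rw [hq, hq]; rfl))
        (dirIs_in (hm 2) (by rw [hq, hq]; rfl)) (dirIs_in (hm 3) (by rw [hq, hq]; rfl)) q0
    · exact limGood_in (hm 1) h1 (dirIs_in (hm 0) (by rw [hq, hq]; rfl))
        (dirIs_in (hm 2) (by rw [hq, hq]; rfl)) (dirIs_in (hm 3) (by rw [hq, hq]; rfl)) q1
    · exact limGood_in (hm 2) h2 (dirIs_in (hm 0) (by rw [hq, hq]; rfl))
        (dirIs_in (hm 1) (by rw [hq, hq]; rfl)) (dirIs_in (hm 3) (by rw [hq, hq]; rfl)) q2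
    · exact limGood_in (hm 3) h3 (dirIs_in (hm 0) (by rw [hq, hq]; rfl))
        (dirIs_in (hm 1) (by rw [hq, hq]; rfl)) (dirIs_in (hm 2) (by rw [hq, hq]; rfl)) q3
  · intro v hv i j hij h1 h2
    exact (hs.no_special hall hv hij h1 h2).elim

theorem stepD [Fintype V] (hBLO : StmtBLO) (hPER : StmtPER) (hDIA : StmtDIA) (r : Rot V)
    (κ : V → ℕ) (p : V → Pt) (hs : Struct r κ) (hp : State r κ p)
    (w : Fin 4 → V) (hw : IsDia r κ w) :
    ∃ (κ' : V → ℕ) (p' : V → Pt), Splits κ κ' {v | κ v = κ (w 0)} ∧ State r κ' p' := by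
  obtain ⟨hi, h01, h02, h03, h12, h13, h23, hc⟩ := hw
  have hm : ∀ i, w i ∈ {v | κ v = κ (w 0)} := fun i => (hc _).2 ⟨i, rfl⟩
  have hne : ∀ i j : Fin 4, i ≠ j → w i ≠ w j := fun i j h hh => h (hi hh)
  have hp0 : ∀ i, p (w i) = p (w 0) := fun i => hp.1.1 _ _ (hm i)
  obtain ⟨s0, h0⟩ := r.exists_sign h01 h02 h03 (hne 1 2 (by decide)) (hne 1 3 (by decide))
    (hne 2 3 (by decide))
  obtain ⟨s1, h1⟩ := r.exists_sign (r.adj_symm h01) h12 h13 (hne 0 2 (by decide))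
    (hne 0 3 (by decide)) (hne 2 3 (by decide))
  obtain ⟨e2, s2, h2, ha2, e20, e21, -⟩ := r.third_sign (r.adj_symm h02) (r.adj_symm h12)
    (hne 0 1 (by decide))
  obtain ⟨e3, s3, h3, ha3, e30, e31, -⟩ := r.third_sign (r.adj_symm h03) (r.adj_symm h13)
    (hne 0 1 (by decide))
  have he2 : κ e2 ≠ κ (w 0) := by
    intro h
    obtain ⟨i, rfl⟩ := (hc e2).1 h
    fin_cases i
    · exact e20 rfl
    · exact e21 rfl
    · exact r.adj_ne ha2 rfl
    · exact h23 ha2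
  have he3 : κ e3 ≠ κ (w 0) := by
    intro h
    obtain ⟨i, rfl⟩ := (hc e3).1 h
    fin_cases i
    · exact e30 rfl
    · exact e31 rfl
    · exact h23 (r.adj_symm ha3)
    · exact r.adj_ne ha3 rfl
  obtain ⟨q, q0, q1, q2, q3⟩ := hDIA ![s0, s1, s2, s3] (p e2 - p (w 0)) (p e3 - p (w 0))
    (sub_ne_of_label hp.2 he2) (sub_ne_of_label hp.2 he3) (eq_or_cr hp he2 he3)
  have hq : ∀ i, Function.extend w q (fun _ => 0) (w i) = q i := fun i =>
    hi.extend_apply _ _ _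
  have hall : ∀ d, r.Adj (w 0) d → κ d = κ (w 0) := by
    intro d hd
    rcases r.all_of_three h01 h02 h03 (hne 1 2 (by decide)) (hne 1 3 (by decide))
      (hne 2 3 (by decide)) d hd with rfl | rfl | rfl
    · exact hm 1
    · exact hm 2
    · exact hm 3
  refine blowK hBLO hPER r κ p hp.1 (w 0) (Function.extend w q (fun _ => 0)) ?_ ?_
  · intro v hv
    obtain ⟨i, rfl⟩ := (hc v).1 hv
    fin_cases i
    · exact limGood_in (hm 0) h0 (dirIs_in (hm 1) (by rw [hq, hq]; rfl))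
        (dirIs_in (hm 2) (by rw [hq, hq]; rfl)) (dirIs_in (hm 3) (by rw [hq, hq]; rfl)) q0
    · exact limGood_in (hm 1) h1 (dirIs_in (hm 0) (by rw [hq, hq]; rfl))
        (dirIs_in (hm 2) (by rw [hq, hq]; rfl)) (dirIs_in (hm 3) (by rw [hq, hq]; rfl)) q1
    · exact limGood_in (hm 2) h2 (dirIs_in (hm 0) (by rw [hq, hq]; rfl))
        (dirIs_in (hm 1) (by rw [hq, hq]; rfl)) (dirIs_out he2 (by
          show p e2 - p (w 0) = p e2 - p (w 2)
          rw [hp0 2])) q2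
    · exact limGood_in (hm 3) h3 (dirIs_in (hm 0) (by rw [hq, hq]; rfl))
        (dirIs_in (hm 1) (by rw [hq, hq]; rfl)) (dirIs_out he3 (by
          show p e3 - p (w 0) = p e3 - p (w 3)
          rw [hp0 3])) q3
  · intro v hv i j hij h1 h2
    exact (hs.no_special hall hv hij h1 h2).elim

theorem stepF [Fintype V] (hBLO : StmtBLO) (hPER : StmtPER) (hDIF : StmtDIF) (r : Rot V)
    (κ : V → ℕ) (p : V → Pt) (hs : Struct r κ) (hp : State r κ p)
    (w : Fin 5 → V) (hw : IsDiaFive r κ w) :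
    ∃ (κ' : V → ℕ) (p' : V → Pt), Splits κ κ' {v | κ v = κ (w 0)} ∧ State r κ' p' := by
  obtain ⟨hi, h01, h02, h03, h12, h13, h24, h34, hc⟩ := hw
  have hm : ∀ i, w i ∈ {v | κ v = κ (w 0)} := fun i => (hc _).2 ⟨i, rfl⟩
  have hne : ∀ i j : Fin 5, i ≠ j → w i ≠ w j := fun i j h hh => h (hi hh)
  have hp0 : ∀ i, p (w i) = p (w 0) := fun i => hp.1.1 _ _ (hm i)
  obtain ⟨s0, h0⟩ := r.exists_sign h01 h02 h03 (hne 1 2 (by decide)) (hne 1 3 (by decide))
    (hne 2 3 (by decide))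
  obtain ⟨s1, h1⟩ := r.exists_sign (r.adj_symm h01) h12 h13 (hne 0 2 (by decide))
    (hne 0 3 (by decide)) (hne 2 3 (by decide))
  obtain ⟨s2, h2⟩ := r.exists_sign (r.adj_symm h02) (r.adj_symm h12) h24 (hne 0 1 (by decide))
    (hne 0 4 (by decide)) (hne 1 4 (by decide))
  obtain ⟨s3, h3⟩ := r.exists_sign (r.adj_symm h03) (r.adj_symm h13) h34 (hne 0 1 (by decide))
    (hne 0 4 (by decide)) (hne 1 4 (by decide))
  obtain ⟨e4, s4, h4, ha4, e42, e43, -⟩ := r.third_sign (r.adj_symm h24) (r.adj_symm h34)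
    (hne 2 3 (by decide))
  have hall0 : ∀ d, r.Adj (w 0) d → d = w 1 ∨ d = w 2 ∨ d = w 3 := fun d hd =>
    r.all_of_three h01 h02 h03 (hne 1 2 (by decide)) (hne 1 3 (by decide))
      (hne 2 3 (by decide)) d hd
  have hall1 : ∀ d, r.Adj (w 1) d → d = w 0 ∨ d = w 2 ∨ d = w 3 := fun d hd =>
    r.all_of_three (r.adj_symm h01) h12 h13 (hne 0 2 (by decide)) (hne 0 3 (by decide))
      (hne 2 3 (by decide)) d hd
  have he4 : κ e4 ≠ κ (w 0) := by
    intro h
    obtain ⟨i, rfl⟩ := (hc e4).1 h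
    fin_cases i
    · rcases hall0 _ (r.adj_symm ha4) with h | h | h
      · exact hne 4 1 (by decide) h
      · exact hne 4 2 (by decide) h
      · exact hne 4 3 (by decide) h
    · rcases hall1 _ (r.adj_symm ha4) with h | h | h
      · exact hne 4 0 (by decide) h
      · exact hne 4 2 (by decide) h
      · exact hne 4 3 (by decide) h
    · exact e42 rfl
    · exact e43 rfl
    · exact r.adj_ne ha4 rfl
  obtain ⟨q, q0, q1, q2, q3, q4⟩ := hDIF ![s0, s1, s2, s3, s4] (p e4 - p (w 0))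
    (sub_ne_of_label hp.2 he4)
  have hq : ∀ i, Function.extend w q (fun _ => 0) (w i) = q i := fun i =>
    hi.extend_apply _ _ _
  have hall : ∀ d, r.Adj (w 0) d → κ d = κ (w 0) := by
    intro d hd
    rcases hall0 d hd with rfl | rfl | rfl
    · exact hm 1
    · exact hm 2
    · exact hm 3
  refine blowK hBLO hPER r κ p hp.1 (w 0) (Function.extend w q (fun _ => 0)) ?_ ?_
  · intro v hv
    obtain ⟨i, rfl⟩ := (hc v).1 hv
    fin_cases i
    · exact limGood_in (hm 0) h0 (dirIs_in (hm 1) (by rw [hq, hq]; rfl))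
        (dirIs_in (hm 2) (by rw [hq, hq]; rfl)) (dirIs_in (hm 3) (by rw [hq, hq]; rfl)) q0
    · exact limGood_in (hm 1) h1 (dirIs_in (hm 0) (by rw [hq, hq]; rfl))
        (dirIs_in (hm 2) (by rw [hq, hq]; rfl)) (dirIs_in (hm 3) (by rw [hq, hq]; rfl)) q1
    · exact limGood_in (hm 2) h2 (dirIs_in (hm 0) (by rw [hq, hq]; rfl))
        (dirIs_in (hm 1) (by rw [hq, hq]; rfl)) (dirIs_in (hm 4) (by rw [hq, hq]; rfl)) q2
    · exact limGood_in (hm 3) h3 (dirIs_in (hm 0) (by rw [hq, hq]; rfl))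
        (dirIs_in (hm 1) (by rw [hq, hq]; rfl)) (dirIs_in (hm 4) (by rw [hq, hq]; rfl)) q3
    · exact limGood_in (hm 4) h4 (dirIs_in (hm 2) (by rw [hq, hq]; rfl))
        (dirIs_in (hm 3) (by rw [hq, hq]; rfl)) (dirIs_out he4 (by
          show p e4 - p (w 0) = p e4 - p (w 4)
          rw [hp0 4])) q4
  · intro v hv i j hij h1 h2
    exact (hs.no_special hall hv hij h1 h2).elim

end Pool.Agent.T6.H37.RO
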